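import Pool.Agent.Helper14.CW.Tetra
import Pool.Agent.Helper47.Brouwer

/-!
# Placement of a regular tetrahedron: algebra
-/

set_option autoImplicit false

namespace Helper13.PLM

open Set Metric Helper80.CW Helper82.CW Helper14.CW
open scoped RealInnerProductSpace

/-- cross product -/
noncomputable def cr (x y : E3) : E3 :=
  !₂[x 1 * y 2 - x 2 * y 1, x 2 * y 0 - x 0 * y 2, x 0 * y 1 - x 1 * y 0]

theorem inn (x y : E3) : ⟪x, y⟫ = x 0 * y 0 + x 1 * y 1 + x 2 * y 2 := by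
  rw [PiLp.inner_apply, Fin.sum_univ_three]
  simp only [RCLike.inner_apply, conj_trivial]
  ring

@[simp] theorem cr0 (x y : E3) : cr x y 0 = x 1 * y 2 - x 2 * y 1 := rfl
@[simp] theorem cr1 (x y : E3) : cr x y 1 = x 2 * y 0 - x 0 * y 2 := rfl
@[simp] theorem cr2 (x y : E3) : cr x y 2 = x 0 * y 1 - x 1 * y 0 := rfl

theorem ext3 {x y : E3} (h0 : x 0 = y 0) (h1 : x 1 = y 1) (h2 : x 2 = y 2) : x = y := by
  ext i
  fin_cases i
  · exact h0
  · exact h1
  · exact h2

theorem cr_inner (x y z : E3) : ⟪cr x y, z⟫ = ⟪x, cr y z⟫ := by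
  rw [inn, inn]; simp only [cr0, cr1, cr2]; ring

theorem cr_anti (x y : E3) : cr x y = -cr y x := by
  apply ext3 <;> simp only [cr0, cr1, cr2, PiLp.neg_apply] <;> ring

theorem cr_skew (w x y : E3) : ⟪x, cr w y⟫ = -⟪cr w x, y⟫ := by
  rw [inn, inn]; simp only [cr0, cr1, cr2]; ring

theorem cr_lag (a b c d : E3) : ⟪cr a b, cr c d⟫ = ⟪a, c⟫ * ⟪b, d⟫ - ⟪a, d⟫ * ⟪b, c⟫ := by
  simp only [inn, cr0, cr1, cr2]; ring

theorem cr_cr (w x : E3) : cr w (cr w x) = ⟪w, x⟫ • w - ⟪w, w⟫ • x := by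
  apply ext3 <;> simp only [inn, cr0, cr1, cr2, PiLp.sub_apply, PiLp.smul_apply, smul_eq_mul] <;>
    ring

theorem cr_add (w x y : E3) : cr w (x + y) = cr w x + cr w y := by
  apply ext3 <;> simp only [cr0, cr1, cr2, PiLp.add_apply] <;> ring

theorem cr_smul (w : E3) (k : ℝ) (x : E3) : cr w (k • x) = k • cr w x := by
  apply ext3 <;> simp only [cr0, cr1, cr2, PiLp.smul_apply, smul_eq_mul] <;> ring

theorem cr_zero (w : E3) : cr w 0 = 0 := by
  apply ext3 <;> simp

/-- rotation with the quaternion `(1, w)` -/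
noncomputable def rt (w : E3) : E3 →ₗ[ℝ] E3 where
  toFun x := x + (2 / (1 + ⟪w, w⟫)) • (cr w x + cr w (cr w x))
  map_add' x y := by rw [cr_add, cr_add]; module
  map_smul' k x := by rw [cr_smul, cr_smul]; simp only [RingHom.id_apply]; module

theorem rt_apply (w x : E3) : rt w x = x + (2 / (1 + ⟪w, w⟫)) • (cr w x + cr w (cr w x)) := rfl

theorem one_add_pos (w : E3) : 0 < 1 + ⟪w, w⟫ := by
  have := real_inner_self_nonneg (x := w); linarith

theorem rt_inner (w x y : E3) : ⟪rt w x, rt w y⟫ = ⟪x, y⟫ := by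
  have h := (one_add_pos w).ne'
  rw [rt_apply, rt_apply]
  have e1 : ⟪cr w x, y⟫ = -⟪x, cr w y⟫ := by rw [cr_skew w x y]; ring
  have e2 : ⟪cr w (cr w x), y⟫ = ⟪x, cr w (cr w y)⟫ := by
    have h1 := cr_skew w (cr w x) y
    have h2 := cr_skew w x (cr w y)
    linarith
  have e3 : ⟪cr w x, cr w y⟫ = -⟪x, cr w (cr w y)⟫ := by
    have h2 := cr_skew w x (cr w y)
    linarith
  have e4 : ⟪cr w x, cr w (cr w y)⟫ = ⟪w, w⟫ * ⟪x, cr w y⟫ := by
    have h2 := cr_skew w x (cr w (cr w y))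
    have h3 : cr w (cr w (cr w y)) = -(⟪w, w⟫ • cr w y) := by
      rw [cr_cr w (cr w y)]
      have : ⟪w, cr w y⟫ = 0 := by
        rw [inn]; simp only [cr0, cr1, cr2]; ring
      rw [this]; simp
    rw [h3, inner_neg_right, inner_smul_right] at h2
    linarith
  have e5 : ⟪cr w (cr w x), cr w y⟫ = -(⟪w, w⟫ * ⟪x, cr w y⟫) := by
    have h1 := cr_skew w (cr w x) y
    have h2 := cr_skew w (cr w x) (cr w y)
    have h3 := cr_skew w x (cr w (cr w y))
    rw [e4] at h3
    have h4 := real_inner_comm (cr w (cr w x)) (cr w y)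
    linarith [e4, h2]
  have e6 : ⟪cr w (cr w x), cr w (cr w y)⟫ = -(⟪w, w⟫ * ⟪x, cr w (cr w y)⟫) := by
    have h2 := cr_skew w (cr w x) (cr w (cr w y))
    have h3 : cr w (cr w (cr w y)) = -(⟪w, w⟫ • cr w y) := by
      rw [cr_cr w (cr w y)]
      have : ⟪w, cr w y⟫ = 0 := by
        rw [inn]; simp only [cr0, cr1, cr2]; ring
      rw [this]; simp
    have h5 := cr_skew w (cr w x) (cr w y)
    have h6 := cr_skew w x (cr w (cr w y))
    have h7 := cr_skew w (cr w (cr w x)) y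
    simp only [inn, cr0, cr1, cr2] at *
    ring
  simp only [inner_add_left, inner_add_right, inner_smul_left, inner_smul_right,
    RCLike.conj_to_real]
  rw [e1, e2, e3, e4, e5, e6]
  field_simp
  ring

theorem rt_self (w x : E3) : ⟪rt w x, w⟫ = ⟪x, w⟫ := by
  rw [rt_apply, inner_add_left, inner_smul_left, inner_add_left]
  have e1 : ⟪cr w x, w⟫ = 0 := by rw [inn]; simp only [cr0, cr1, cr2]; ring
  have e2 : ⟪cr w (cr w x), w⟫ = 0 := by rw [inn]; simp only [cr0, cr1, cr2]; ring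
  rw [e1, e2]; simp

theorem cr_cont (x : E3) : Continuous fun w : E3 => cr w x := by
  unfold cr
  refine (PiLp.continuous_toLp 2 _).comp ?_
  refine continuous_pi fun i => ?_
  fin_cases i <;> simp <;> fun_prop

end Helper13.PLM
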