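import Mathlib

/-!
# A priori bound (project MEI): arithmetic
-/

set_option autoImplicit false

namespace Helper13.PLM

/-- the largest coordinate of a far point is at most `0.78` -/
theorem ap_b1 {b0 b1 b2 b3 s : ℝ} (hsum : b0 + b1 + b2 + b3 = 1) (h10 : b1 - b0 ≤ 1)
    (h32 : b3 ≤ b2)
    (hs : s = 1 / 2 * ((1 - b0) ^ 2 + b1 ^ 2 + b2 ^ 2 + b3 ^ 2) - 1)
    (hk : -b3 ≤ -b0 + 0.3006 * b1 - 0.375) (hs1 : 0.1875 ≤ s) : b1 ≤ 0.78 := by
  by_contra hcon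
  push Not at hcon
  obtain ⟨β, hβ⟩ : ∃ β, b0 = -β := ⟨-b0, by ring⟩
  obtain ⟨η, hη⟩ : ∃ η, b1 = 1 - β - η := ⟨1 - β - b1, by ring⟩
  obtain ⟨κ, hκ⟩ : ∃ κ, b3 = -κ := ⟨-b3, by ring⟩
  have hb2 : b2 = 2 * β + η + κ := by subst hβ hη hκ; linarith
  subst hβ hη hκ hb2
  have hη0 : 0 ≤ η := by linarith
  have hβη : β + η ≤ 0.22 := by linarith
  have hk' : κ ≤ 0.6994 * β - 0.3006 * η - 0.0744 := by linarith
  have hkl : -κ ≤ β + η / 2 := by linarith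
  have hs2 : s = (3 * β ^ 2 + 2 * (β * κ) + κ ^ 2) - η * (1 - η - 3 * β - κ) := by
    rw [hs]; ring
  rcases le_or_gt 0 κ with hκ0 | hκ0
  · have hβ0 : 0.1 ≤ β := by linarith
    have hβ1 : β ≤ 0.22 := by linarith
    have h2 : κ ≤ 0.0795 := by linarith
    have h1 : 0 ≤ η * (1 - η - 3 * β - κ) := mul_nonneg hη0 (by linarith)
    have g1 : β ^ 2 ≤ 0.22 ^ 2 := pow_le_pow_left₀ (by linarith) hβ1 2
    have g2 : κ ^ 2 ≤ 0.0795 ^ 2 := pow_le_pow_left₀ hκ0 h2 2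
    have g3 : β * κ ≤ 0.22 * 0.0795 := mul_le_mul hβ1 h2 hκ0 (by norm_num)
    norm_num at g1 g2 g3
    linarith
  · have h1 : 0 ≤ κ + 2 * β + η := by linarith
    have h2 : κ * (κ + 2 * β + η) ≤ 0 := mul_nonpos_of_nonpos_of_nonneg hκ0.le h1
    have h3 : 0 ≤ β + η / 2 := by linarith
    have h4 : s = 3 * β ^ 2 + κ * (κ + 2 * β + η) - η * (1 - η - 3 * β) := by
      rw [hs2]; ring
    rcases le_or_gt 0 β with hb | hb
    · have h5 : 0 ≤ η * (1 - η - 3 * β) := mul_nonneg hη0 (by linarith)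
      have h6 : β ^ 2 ≤ 0.22 ^ 2 := pow_le_pow_left₀ hb (by linarith) 2
      norm_num at h6
      linarith
    · have h5 : (-β) ^ 2 ≤ (η / 2) ^ 2 := pow_le_pow_left₀ (by linarith) (by linarith) 2
      have h6 : η ≤ 0.44 := by linarith
      have h7 : 0 ≤ η * (1 - 1.75 * η) := mul_nonneg hη0 (by linarith)
      have h8 : η * β ≤ 0 := mul_nonpos_of_nonneg_of_nonpos hη0 hb.le
      have h9 : s ≤ 3 * (η / 2) ^ 2 - η * (1 - η - 3 * β) := by
        have : β ^ 2 = (-β) ^ 2 := by ring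
        rw [h4, this]; linarith
      have h10' : 3 * (η / 2) ^ 2 - η * (1 - η - 3 * β) = -(η * (1 - 1.75 * η)) + 3 * (η * β) := by
        ring
      linarith

/-- the a priori bound, arithmetic part -/
theorem ap_arith {b0 b1 b2 b3 x1 x2 x3 A1 A2 A3 d s : ℝ} (hsum : b0 + b1 + b2 + b3 = 1)
    (h10 : b1 - b0 ≤ 1) (h12 : b1 - b2 ≤ 1) (h13 : b1 - b3 ≤ 1) (h21 : b2 ≤ b1) (h32 : b3 ≤ b2)
    (hs : s = 1 / 2 * ((1 - b0) ^ 2 + b1 ^ 2 + b2 ^ 2 + b3 ^ 2) - 1)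
    (hx1 : 0 ≤ x1) (hx2 : 0 ≤ x2) (hx3 : 0 ≤ x3) (hA1 : 0 ≤ A1) (hA2 : 0 ≤ A2) (hA3 : 0 ≤ A3)
    (hA : x1 + x2 + x3 + (A1 + A2 + A3) ≤ 0.1503)
    (hc0 : s ≤ 2 * (b1 * x1 + b2 * x2 + b3 * x3) - d) (hc3 : s + b0 - b3 ≤ 2 * b1 * A3)
    (hd0 : 0 ≤ d) (hd : d ≤ 1.5 * (x1 + x2 + x3) ^ 2)
    (hbud : 0.09 ≤ x1 + x2 + x3 → 2 * (x1 + x2 + x3) - 3 * d + 1.32 * (A1 + A2 + A3) ≤ 0.21)
    (h2 : 0.4079 * (d - 2 * x2) ≤ A2) (h3 : 0.4079 * (d - 2 * x3) ≤ A3) : s < 0.1875 := by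
  by_contra hcon
  push Not at hcon
  have hb1 : b1 ≤ 1 := by linarith
  have hb1p : 0 ≤ b1 := by
    by_contra h
    push Not at h
    have g1 : b1 * x1 ≤ 0 := mul_nonpos_of_nonpos_of_nonneg h.le hx1
    have g2 : b2 * x2 ≤ 0 := mul_nonpos_of_nonpos_of_nonneg (by linarith) hx2
    have g3 : b3 * x3 ≤ 0 := mul_nonpos_of_nonpos_of_nonneg (by linarith) hx3
    linarith
  obtain ⟨P, hP⟩ : ∃ P, P = x1 + x2 + x3 := ⟨_, rfl⟩
  obtain ⟨A', hA'⟩ : ∃ A', A' = A1 + A2 + A3 := ⟨_, rfl⟩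
  rw [← hP] at hd hbud
  rw [← hA'] at hbud
  rw [← hP, ← hA'] at hA
  have hP0 : 0 ≤ P := by linarith
  have hPle : P ≤ 0.1503 := by linarith
  have e2 : b2 * x2 ≤ b1 * x2 := mul_le_mul_of_nonneg_right h21 hx2
  have e3 : b3 * x3 ≤ b1 * x3 := mul_le_mul_of_nonneg_right (h32.trans h21) hx3
  have hbP : b1 * P = b1 * x1 + b1 * x2 + b1 * x3 := by rw [hP]; ring
  have hsA : s ≤ 2 * (b1 * P) - d := by linarith
  have hA09 : 0.09 ≤ P := by
    by_contra h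
    push Not at h
    have : b1 * P ≤ 1 * 0.09 := mul_le_mul hb1 h.le hP0 (by norm_num)
    linarith
  have hB := hbud hA09
  have hd1 : d ≤ 0.0339 := by
    have : P ^ 2 ≤ 0.1503 ^ 2 := pow_le_pow_left₀ hP0 hPle 2
    norm_num at this
    linarith
  -- first bound of `b1`
  have hb162 : 0.62 ≤ b1 := by
    by_contra h
    push Not at h
    have : b1 * P ≤ 0.62 * 0.1503 := mul_le_mul h.le hPle hP0 (by norm_num)
    norm_num at this
    linarith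
  have hk : -b3 ≤ -b0 + 0.3006 * b1 - 0.375 := by
    have h5 : b1 * (P + A3) ≤ b1 * 0.1503 := mul_le_mul_of_nonneg_left (by linarith) hb1p
    have h6 : b1 * (P + A3) = b1 * P + b1 * A3 := by ring
    linarith
  have hb78 := ap_b1 hsum h10 h32 hs hk hcon
  have hbd : b1 * d ≤ b1 * 0.0339 := mul_le_mul_of_nonneg_left hd1 hb1p
  have hbd0 : 0 ≤ b1 * d := mul_nonneg hb1p hd0
  have g6 : b1 * (2 * P - 3 * d + 1.32 * A') ≤ b1 * 0.21 :=
    mul_le_mul_of_nonneg_left hB hb1p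
  have g6' : b1 * (2 * P - 3 * d + 1.32 * A') =
      2 * (b1 * P) - 3 * (b1 * d) + 1.32 * (b1 * A1 + b1 * A2 + b1 * A3) := by
    rw [hA']; ring
  have bA1 : 0 ≤ b1 * A1 := mul_nonneg hb1p hA1
  have bA2 : 0 ≤ b1 * A2 := mul_nonneg hb1p hA2
  have bA3 : 0 ≤ b1 * A3 := mul_nonneg hb1p hA3
  have h3' : 0.4079 * (b1 * d - 2 * (b1 * x3)) ≤ b1 * A3 := by
    have := mul_le_mul_of_nonneg_left h3 hb1p
    have e : b1 * (0.4079 * (d - 2 * x3)) = 0.4079 * (b1 * d - 2 * (b1 * x3)) := by ring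
    linarith
  have h2' : 0.4079 * (b1 * d - 2 * (b1 * x2)) ≤ b1 * A2 := by
    have := mul_le_mul_of_nonneg_left h2 hb1p
    have e : b1 * (0.4079 * (d - 2 * x2)) = 0.4079 * (b1 * d - 2 * (b1 * x2)) := by ring
    linarith
  have bx1 : 0 ≤ b1 * x1 := mul_nonneg hb1p hx1
  have bx2 : 0 ≤ b1 * x2 := mul_nonneg hb1p hx2
  have bx3 : 0 ≤ b1 * x3 := mul_nonneg hb1p hx3
  by_cases hc : 0.4615 * b1 < b3
  · -- all coordinates are comparable
    have h5 : b1 ≤ 0.6845 := by linarith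
    have h6 : b1 * d ≤ 0.6845 * d := mul_le_mul_of_nonneg_right h5 hd0
    linarith
  · push Not at hc
    have e3' : b3 * x3 ≤ 0.4615 * (b1 * x3) := by
      have := mul_le_mul_of_nonneg_right hc hx3
      linarith
    by_cases hc2 : b2 ≤ 0.4615 * b1
    · have e2' : b2 * x2 ≤ 0.4615 * (b1 * x2) := by
        have := mul_le_mul_of_nonneg_right hc2 hx2
        linarith
      have h6 : b1 * d ≤ 0.78 * d := mul_le_mul_of_nonneg_right hb78 hd0
      linarith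
    · push Not at hc2
      -- theta multiplier
      have g1 : (b1 - b2) * (d - 2 * x2) ≤ 1.3204 * (b1 * A2) := by
        rcases le_or_gt 0 (d - 2 * x2) with h | h
        · have : (b1 - b2) ≤ 0.5385 * b1 := by linarith
          have g2 := mul_le_mul_of_nonneg_right this h
          have g3 : 0.5385 * b1 * (d - 2 * x2) = 0.5385 * (b1 * d - 2 * (b1 * x2)) := by ring
          linarith
        · have g2 : (b1 - b2) * (d - 2 * x2) ≤ 0 :=
            mul_nonpos_of_nonneg_of_nonpos (by linarith) h.le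
          linarith
      have g1' : (b1 - b2) * (d - 2 * x2) = b1 * d - b2 * d - 2 * (b1 * x2) + 2 * (b2 * x2) := by
        ring
      have bA2' : b1 * A2 ≤ b1 * 0.0603 := mul_le_mul_of_nonneg_left (by linarith) hb1p
      have h6 : s ≤ 0.21 * b1 + 1.4618 * (b1 * d) + b2 * d - d + 0.0004 * (b1 * A2) := by
        linarith
      have h7 : b2 ≤ 2.625 - 2.6994 * b1 := by linarith
      have h8 : (1.4618 * b1 + b2 - 1) * d ≤ (1.4618 * b1 + b2 - 1) * 0.0339 :=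
        mul_le_mul_of_nonneg_left hd1 (by linarith)
      have h8' : (1.4618 * b1 + b2 - 1) * d = 1.4618 * (b1 * d) + b2 * d - d := by ring
      rcases le_or_gt b1 0.71 with h9 | h9 <;> linarith

end Helper13.PLM
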