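import Pool.Agent.Helper13.PLM.Placement2
import Pool.Agent.Helper13.PLM.ApArith
import Pool.Agent.Helper66.MEI.PlD

/-!
# A priori bound `Q_i ≤ 3/16` on `K`
-/

set_option autoImplicit false

namespace Helper13.PLM

open Set Metric Finset MeasureTheory Helper80.CW Helper82.CW Helper14.CW Helper93.MEI Helper66.MEI
open scoped RealInnerProductSpace

/-- placed tetrahedron with four nearby points of `K`, sharper constants -/
structure Near (K : Set E3) (a c : Fin 4 → E3) : Prop where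
  reg : ∀ i j, i ≠ j → dist (a i) (a j) = 1
  mem : ∀ i, c i ∈ K
  sup : ∀ i j, i ≠ j → supp K (a i - a j) = ⟪a i, a i - a j⟫
  pl : ∀ x ∈ K, Pl a x
  nonneg : ∀ i j, 0 ≤ ⟪a i - c i, a i - a j⟫
  sum_le : ∑ i, ∑ j, ⟪a i - c i, a i - a j⟫ ≤ 0.1503
  eps_le : ∑ i, ∑ j, (if i = j then 0 else 1 - ‖c i - c j‖ ^ 2) ≤ 0.42

/-- **Placement**, packaged, sharper constants. -/
theorem exists_near {K : Set E3} (hK : IsCompact K) (hw : Width1 K)
    (hno : ¬ ∃ x0, K ⊆ Metric.closedBall x0 0.6026) : ∃ a c : Fin 4 → E3, Near K a c := by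
  obtain ⟨a, c, h1, h2, h3, h4, h5, h6, h7, -⟩ := placement2 hK hw hno
  exact ⟨a, c, h1, h2, h3, h4, h5, h6, h7⟩

theorem Near.placed {K : Set E3} {a c : Fin 4 → E3} (N : Near K a c) : Placed K a c :=
  ⟨N.reg, N.mem, N.sup, N.pl, N.nonneg, N.sum_le.trans (by norm_num)⟩

theorem Near.perm {K : Set E3} {a c : Fin 4 → E3} (N : Near K a c) (σ : Equiv.Perm (Fin 4)) :
    Near K (fun i => a (σ i)) (fun i => c (σ i)) where
  reg i j hij := N.reg _ _ (fun h => hij (σ.injective h))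
  mem i := N.mem _
  sup i j hij := N.sup _ _ (fun h => hij (σ.injective h))
  pl x hx := Pl_perm σ (N.pl x hx)
  nonneg i j := N.nonneg _ _
  sum_le := by
    have h := N.sum_le
    rw [← Equiv.sum_comp σ] at h
    refine le_of_eq_of_le (Finset.sum_congr rfl fun i _ => ?_) h
    exact Equiv.sum_comp σ (fun j => ⟪a (σ i) - c (σ i), a (σ i) - a j⟫)
  eps_le := by
    have h := N.eps_le
    rw [← Equiv.sum_comp σ] at h
    refine le_of_eq_of_le (Finset.sum_congr rfl fun i _ => ?_) h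
    rw [← Equiv.sum_comp σ (fun j => if σ i = j then (0 : ℝ) else 1 - ‖c (σ i) - c j‖ ^ 2)]
    refine Finset.sum_congr rfl fun j _ => ?_
    simp only [σ.injective.eq_iff]

theorem offdiag (f : Fin 4 → Fin 4 → ℝ) (hf : ∀ i j, f i j = f j i) :
    ∑ i, ∑ j, (if i = j then 0 else f i j) =
      2 * (f 0 1 + f 0 2 + f 0 3 + f 1 2 + f 1 3 + f 2 3) := by
  simp [Fin.sum_univ_four]
  rw [hf 1 0, hf 2 0, hf 3 0, hf 2 1, hf 3 1, hf 3 2]
  ring

section core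
variable {K : Set E3} {a c : Fin 4 → E3} (N : Near K a c)
include N

theorem Near.dist_c {i j : Fin 4} (hij : i ≠ j) : ‖c i - c j‖ ^ 2 =
    1 + ‖(a i - c i) - (a j - c j)‖ ^ 2 -
      2 * (⟪a i - c i, a i - a j⟫ + ⟪a j - c j, a j - a i⟫) := by
  have he : ‖a i - a j‖ = 1 := by rw [← dist_eq_norm]; exact N.reg i j hij
  have h1 : c i - c j = (a i - a j) - ((a i - c i) - (a j - c j)) := by abel
  have h2 : ⟪a j - c j, a j - a i⟫ = -⟪a j - c j, a i - a j⟫ := by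
    rw [← inner_neg_right, neg_sub]
  have h3 : ‖c i - c j‖ ^ 2 = ‖a i - a j‖ ^ 2 - 2 * ⟪a i - a j, (a i - c i) - (a j - c j)⟫ +
      ‖(a i - c i) - (a j - c j)‖ ^ 2 := by
    conv_lhs => rw [h1]
    exact norm_sub_sq_real _ _
  rw [h3, he, inner_sub_right, real_inner_comm (a i - c i), real_inner_comm (a j - c j), h2]
  ring

variable (hK : IsCompact K) (hw : Width1 K)
include hK hw

theorem Near.eps_nonneg {i j : Fin 4} (hij : i ≠ j) : ‖(a i - c i) - (a j - c j)‖ ^ 2 ≤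
      2 * (⟪a i - c i, a i - a j⟫ + ⟪a j - c j, a j - a i⟫) := by
  have h1 := diam_le hK hw _ (N.mem i) _ (N.mem j)
  rw [dist_eq_norm] at h1
  have h2 := N.dist_c hij
  have h3 := norm_nonneg (c i - c j)
  have h4 : ‖c i - c j‖ ^ 2 ≤ 1 := by nlinarith
  linarith

omit hK hw in
/-- the budget of `∑ ε` -/
theorem Near.budget : 2 * ∑ i, ∑ j, ⟪a i - c i, a i - a j⟫ ≤ 0.21 +
    (‖(a 0 - c 0) - (a 1 - c 1)‖ ^ 2 + ‖(a 0 - c 0) - (a 2 - c 2)‖ ^ 2 +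
      ‖(a 0 - c 0) - (a 3 - c 3)‖ ^ 2 + ‖(a 1 - c 1) - (a 2 - c 2)‖ ^ 2 +
      ‖(a 1 - c 1) - (a 3 - c 3)‖ ^ 2 + ‖(a 2 - c 2) - (a 3 - c 3)‖ ^ 2) := by
  have h := N.eps_le
  rw [offdiag (fun i j => 1 - ‖c i - c j‖ ^ 2) (fun i j => by rw [norm_sub_rev])] at h
  rw [N.dist_c (i := 0) (j := 1) (by decide), N.dist_c (i := 0) (j := 2) (by decide),
    N.dist_c (i := 0) (j := 3) (by decide), N.dist_c (i := 1) (j := 2) (by decide),
    N.dist_c (i := 1) (j := 3) (by decide), N.dist_c (i := 2) (j := 3) (by decide)] at h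
  simp only [Fin.sum_univ_four, sub_self, inner_zero_right]
  linarith

omit N hK hw in
theorem vec_sum (x0 x1 x2 x3 : E3) : ‖x0 - x1‖ ^ 2 + ‖x0 - x2‖ ^ 2 + ‖x0 - x3‖ ^ 2 +
    ‖x1 - x2‖ ^ 2 + ‖x1 - x3‖ ^ 2 + ‖x2 - x3‖ ^ 2 ≤
      3 * ‖x0‖ ^ 2 + 2 * (‖x0‖ * (‖x1‖ + ‖x2‖ + ‖x3‖)) + 3 * (‖x1‖ + ‖x2‖ + ‖x3‖) ^ 2 := by
  have key : ∀ x y : E3, ‖x - y‖ ^ 2 ≤ ‖x‖ ^ 2 + 2 * (‖x‖ * ‖y‖) + ‖y‖ ^ 2 := by
    intro x y
    have h := pow_le_pow_left₀ (norm_nonneg _) (norm_sub_le x y) 2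
    linarith [h, (by ring : (‖x‖ + ‖y‖) ^ 2 = ‖x‖ ^ 2 + 2 * (‖x‖ * ‖y‖) + ‖y‖ ^ 2)]
  have h01 := key x0 x1
  have h02 := key x0 x2
  have h03 := key x0 x3
  have h12 := key x1 x2
  have h13 := key x1 x3
  have h23 := key x2 x3
  have p12 := mul_nonneg (norm_nonneg x1) (norm_nonneg x2)
  have p13 := mul_nonneg (norm_nonneg x1) (norm_nonneg x3)
  have p23 := mul_nonneg (norm_nonneg x2) (norm_nonneg x3)
  have e : 3 * (‖x1‖ + ‖x2‖ + ‖x3‖) ^ 2 = 3 * (‖x1‖ ^ 2 + ‖x2‖ ^ 2 + ‖x3‖ ^ 2) +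
      6 * (‖x1‖ * ‖x2‖ + ‖x1‖ * ‖x3‖ + ‖x2‖ * ‖x3‖) := by ring
  have e' : 2 * (‖x0‖ * (‖x1‖ + ‖x2‖ + ‖x3‖)) = 2 * (‖x0‖ * ‖x1‖) + 2 * (‖x0‖ * ‖x2‖) +
      2 * (‖x0‖ * ‖x3‖) := by ring
  linarith

omit N hK hw in
theorem bud_arith {r X P A : ℝ} (hr : r ≤ 1.2248 * P) (hX : X ≤ 1.2248 * A) (_hr0 : 0 ≤ r)
    (hX0 : 0 ≤ X) (hP : 0.09 ≤ P) (hA : 0 ≤ A) (hPA : P + A ≤ 0.1503)
    (hb : 2 * (P + A) ≤ 0.21 + (3 * r ^ 2 + 2 * (r * X) + 3 * X ^ 2)) :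
    2 * P - 3 * r ^ 2 + 1.32 * A ≤ 0.21 := by
  have h1 : r * X ≤ (1.2248 * P) * (1.2248 * A) := mul_le_mul hr hX hX0 (by linarith)
  have h2 : X ^ 2 ≤ (1.2248 * A) ^ 2 := pow_le_pow_left₀ hX0 hX 2
  have h3 : (0.68 - 2 * 1.2248 ^ 2 * P - 3 * 1.2248 ^ 2 * A) * A ≥ 0 :=
    mul_nonneg (by norm_num; linarith) hA
  have h4 : (0.68 - 2 * 1.2248 ^ 2 * P - 3 * 1.2248 ^ 2 * A) * A = 0.68 * A -
    2 * ((1.2248 * P) * (1.2248 * A)) - 3 * (1.2248 * A) ^ 2 := by ring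
  linarith

omit N hK hw in
theorem side_arith {r y P A x w t : ℝ} (hr : r ≤ 1.2248 * P) (hy : y ≤ 1.2248 * A) (hr0 : 0 ≤ r)
    (hy0 : 0 ≤ y) (_hP : 0 ≤ P) (hA : 0 ≤ A) (hPA : P + A ≤ 0.1503)
    (hw : r ^ 2 - 2 * (r * y) ≤ w) (hwx : w ≤ 2 * (x + t)) (ht : t ≤ A) :
    0.4079 * (r ^ 2 - 2 * x) ≤ A := by
  have h1 : r * y ≤ (1.2248 * P) * (1.2248 * A) := mul_le_mul hr hy hy0 (by linarith)
  have h2 : P * A ≤ 0.1503 * A := mul_le_mul_of_nonneg_right (by linarith) hA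
  have h3 : (1.2248 * P) * (1.2248 * A) = 1.2248 ^ 2 * (P * A) := by ring
  norm_num at *
  linarith

omit N hK hw in
theorem norm_sub_ge (x y : E3) : ‖x‖ ^ 2 - 2 * (‖x‖ * ‖y‖) ≤ ‖x - y‖ ^ 2 := by
  have h1 := real_inner_le_norm x y
  rw [norm_sub_sq_real]
  have := sq_nonneg ‖y‖
  linarith

omit N hK hw in
/-- a point whose first coordinate is the largest has `Q_0 ≤ -1/2` -/
theorem max0_arith {b0 b1 b2 b3 : ℝ} (hsum : b0 + b1 + b2 + b3 = 1) (h1 : b0 - b1 ≤ 1)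
    (h2 : b0 - b2 ≤ 1) (h3 : b0 - b3 ≤ 1) (g1 : b1 ≤ b0) (g2 : b2 ≤ b0) (g3 : b3 ≤ b0) :
    1 / 2 * ((1 - b0) ^ 2 + b1 ^ 2 + b2 ^ 2 + b3 ^ 2) - 1 ≤ -1 / 2 := by
  have k1 := mul_nonneg (by linarith : (0 : ℝ) ≤ b0 - b1) (by linarith : (0 : ℝ) ≤ 1 - (b0 - b1))
  have k2 := mul_nonneg (by linarith : (0 : ℝ) ≤ b0 - b2) (by linarith : (0 : ℝ) ≤ 1 - (b0 - b2))
  have k3 := mul_nonneg (by linarith : (0 : ℝ) ≤ b0 - b3) (by linarith : (0 : ℝ) ≤ 1 - (b0 - b3))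
  nlinarith [sq_nonneg (b0 - 1 / 2)]

/-- vertex `0`, coordinates in decreasing order -/
theorem Near.ap_sorted {z : E3} (hz : z ∈ K) (h12 : bar a 2 z ≤ bar a 1 z)
    (h23 : bar a 3 z ≤ bar a 2 z) : Qv a 0 z < 0.1875 := by
  have P := N.placed
  have hG := P.gram
  have hs := bar_sum hG z
  have hp := (pl_iff hG).1 (N.pl z hz)
  have hQ0 := Qv_eq0 hG z
  by_cases hmax : bar a 1 z < bar a 0 z
  · have := max0_arith hs (hp 0 1 (by decide)) (hp 0 2 (by decide)) (hp 0 3 (by decide))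
      hmax.le (by linarith) (by linarith)
    rw [hQ0]
    linarith
  push Not at hmax
  have q0 := P.Qv_le hK hw hz 0
  have q3 := P.Qv_le hK hw hz 3
  have hbud := N.budget
  have hsum := N.sum_le
  have n0 := P.norm_le 0
  have n1 := P.norm_le 1
  have n2 := P.norm_le 2
  have n3 := P.norm_le 3
  have dd := norm_sq_depth hG 0 (c 0)
  have e2 := N.eps_nonneg hK hw (i := 0) (j := 2) (by decide)
  have e3 := N.eps_nonneg hK hw (i := 0) (j := 3) (by decide)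
  have hvs := vec_sum (a 0 - c 0) (a 1 - c 1) (a 2 - c 2) (a 3 - c 3)
  have hg2 := norm_sub_ge (a 0 - c 0) (a 2 - c 2)
  have hg3 := norm_sub_ge (a 0 - c 0) (a 3 - c 3)
  have hQ3 : Qv a 3 z = Qv a 0 z + bar a 0 z - bar a 3 z := by
    rw [Qv_eq hG, Qv_eq hG]; ring
  simp only [Fin.sum_univ_four, sub_self, inner_zero_right] at q0 q3 hbud hsum n0 n1 n2 n3 dd
  have m01 := N.nonneg 0 1
  have m02 := N.nonneg 0 2
  have m03 := N.nonneg 0 3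
  have m10 := N.nonneg 1 0
  have m12 := N.nonneg 1 2
  have m13 := N.nonneg 1 3
  have m20 := N.nonneg 2 0
  have m21 := N.nonneg 2 1
  have m23 := N.nonneg 2 3
  have m30 := N.nonneg 3 0
  have m31 := N.nonneg 3 1
  have m32 := N.nonneg 3 2
  generalize ⟪a 0 - c 0, a 0 - a 1⟫ = x1 at *
  generalize ⟪a 0 - c 0, a 0 - a 2⟫ = x2 at *
  generalize ⟪a 0 - c 0, a 0 - a 3⟫ = x3 at *
  generalize ⟪a 1 - c 1, a 1 - a 0⟫ = u0 at *
  generalize ⟪a 1 - c 1, a 1 - a 2⟫ = u2 at *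
  generalize ⟪a 1 - c 1, a 1 - a 3⟫ = u3 at *
  generalize ⟪a 2 - c 2, a 2 - a 0⟫ = v0 at *
  generalize ⟪a 2 - c 2, a 2 - a 1⟫ = v1 at *
  generalize ⟪a 2 - c 2, a 2 - a 3⟫ = v3 at *
  generalize ⟪a 3 - c 3, a 3 - a 0⟫ = w0 at *
  generalize ⟪a 3 - c 3, a 3 - a 1⟫ = w1 at *
  generalize ⟪a 3 - c 3, a 3 - a 2⟫ = w2 at *
  have r0 := norm_nonneg (a 0 - c 0)
  have r1 := norm_nonneg (a 1 - c 1)
  have r2 := norm_nonneg (a 2 - c 2)
  have r3 := norm_nonneg (a 3 - c 3)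
  generalize ‖a 0 - c 0‖ = r at *
  generalize ‖a 1 - c 1‖ = y1 at *
  generalize ‖a 2 - c 2‖ = y2 at *
  generalize ‖a 3 - c 3‖ = y3 at *
  generalize ‖a 0 - c 0 - (a 2 - c 2)‖ ^ 2 = z2 at *
  generalize ‖a 0 - c 0 - (a 3 - c 3)‖ ^ 2 = z3 at *
  have k0 : bar a 0 z * w0 ≤ bar a 1 z * w0 := mul_le_mul_of_nonneg_right hmax m30
  have k2 : bar a 2 z * w2 ≤ bar a 1 z * w2 := mul_le_mul_of_nonneg_right h12 m32
  refine ap_arith (b0 := bar a 0 z) (b1 := bar a 1 z) (b2 := bar a 2 z) (b3 := bar a 3 z)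
    (x1 := x1) (x2 := x2) (x3 := x3) (A1 := u0 + u2 + u3) (A2 := v0 + v1 + v3)
    (A3 := w0 + w1 + w2) (d := r ^ 2) hs (hp 1 0 (by decide)) (hp 1 2 (by decide))
    (hp 1 3 (by decide)) h12 h23 hQ0 m01 m02 m03 (by linarith) (by linarith) (by linarith)
    (by linarith) (by linarith) ?_ (sq_nonneg _) ?_ ?_ ?_ ?_
  · have e : 2 * bar a 1 z * (w0 + w1 + w2) = 2 * (bar a 1 z * w0 + bar a 1 z * w1 +
        bar a 1 z * w2) := by ring
    rw [e]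
    have := sq_nonneg y3
    linarith
  · have := mul_nonneg m01 m02
    have := mul_nonneg m01 m03
    have := mul_nonneg m02 m03
    have e : (0 + x1 + x2 + x3) ^ 2 = x1 ^ 2 + x2 ^ 2 + x3 ^ 2 + 2 * (x1 * x2) + 2 * (x1 * x3) +
      2 * (x2 * x3) := by ring
    have e' : (x1 + x2 + x3) ^ 2 = x1 ^ 2 + x2 ^ 2 + x3 ^ 2 + 2 * (x1 * x2) + 2 * (x1 * x3) +
      2 * (x2 * x3) := by ring
    rw [e']
    rw [e] at dd
    linarith
  · intro h09
    exact bud_arith (r := r) (X := y1 + y2 + y3) (P := x1 + x2 + x3)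
      (A := u0 + u2 + u3 + (v0 + v1 + v3) + (w0 + w1 + w2)) (by linarith) (by linarith) r0
      (by linarith) h09 (by linarith) (by linarith) (by linarith)
  · exact side_arith (r := r) (y := y2) (P := x1 + x2 + x3) (A := v0 + v1 + v3) (x := x2)
      (w := z2) (t := v0) (by linarith) (by linarith) r0 r2 (by linarith) (by linarith)
      (by linarith) hg2 e2 (by linarith)
  · exact side_arith (r := r) (y := y3) (P := x1 + x2 + x3) (A := w0 + w1 + w2) (x := x3)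
      (w := z3) (t := w0) (by linarith) (by linarith) r0 r3 (by linarith) (by linarith)
      (by linarith) hg3 e3 (by linarith)

theorem Near.ap_of_perm (σ : Equiv.Perm (Fin 4)) {i j k l : Fin 4} (e0 : σ 0 = i) (e1 : σ 1 = j)
    (e2 : σ 2 = k) (e3 : σ 3 = l) {z : E3} (hz : z ∈ K)
    (h12 : bar a k z ≤ bar a j z) (h23 : bar a l z ≤ bar a k z) :
    Qv a i z < 0.1875 := by
  have h := (N.perm σ).ap_sorted hK hw hz (by rwa [bar_perm, bar_perm, e1, e2])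
    (by rwa [bar_perm, bar_perm, e2, e3])
  rwa [Qv_perm, e0] at h

theorem Near.ap_zero {z : E3} (hz : z ∈ K) : Qv a 0 z < 0.1875 := by
  have s123 : bar a 2 z ≤ bar a 1 z → bar a 3 z ≤ bar a 2 z → Qv a 0 z < 0.1875 :=
    N.ap_of_perm hK hw (Equiv.refl _) rfl rfl rfl rfl hz
  have s132 : bar a 3 z ≤ bar a 1 z → bar a 2 z ≤ bar a 3 z → Qv a 0 z < 0.1875 :=
    N.ap_of_perm hK hw (Equiv.swap 2 3) (by decide) (by decide) (by decide) (by decide) hz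
  have s213 : bar a 1 z ≤ bar a 2 z → bar a 3 z ≤ bar a 1 z → Qv a 0 z < 0.1875 :=
    N.ap_of_perm hK hw (Equiv.swap 1 2) (by decide) (by decide) (by decide) (by decide) hz
  have s321 : bar a 2 z ≤ bar a 3 z → bar a 1 z ≤ bar a 2 z → Qv a 0 z < 0.1875 :=
    N.ap_of_perm hK hw (Equiv.swap 1 3) (by decide) (by decide) (by decide) (by decide) hz
  have s231 : bar a 3 z ≤ bar a 2 z → bar a 1 z ≤ bar a 3 z → Qv a 0 z < 0.1875 :=
    N.ap_of_perm hK hw (Equiv.swap 1 2 * Equiv.swap 2 3) (by decide) (by decide) (by decide)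
      (by decide) hz
  have s312 : bar a 1 z ≤ bar a 3 z → bar a 2 z ≤ bar a 1 z → Qv a 0 z < 0.1875 :=
    N.ap_of_perm hK hw (Equiv.swap 1 3 * Equiv.swap 2 3) (by decide) (by decide) (by decide)
      (by decide) hz
  rcases le_total (bar a 1 z) (bar a 2 z) with h12 | h12
  · rcases le_total (bar a 2 z) (bar a 3 z) with h23 | h23
    · exact s321 h23 h12
    · rcases le_total (bar a 1 z) (bar a 3 z) with h13 | h13
      · exact s231 h23 h13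
      · exact s213 h12 h13
  · rcases le_total (bar a 2 z) (bar a 3 z) with h23 | h23
    · rcases le_total (bar a 1 z) (bar a 3 z) with h13 | h13
      · exact s312 h13 h12
      · exact s132 h13 h23
    · exact s123 h12 h23

/-- **A priori bound**: `Q_i < 3/16` on `K`. -/
theorem Near.ap {z : E3} (hz : z ∈ K) (i : Fin 4) : Qv a i z < 3 / 16 := by
  have h := (N.perm (Equiv.swap 0 i)).ap_zero hK hw hz
  rw [Qv_perm, Equiv.swap_apply_left] at h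
  linarith

end core

end Helper13.PLM
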