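import Pool.Agent.Helper13.PLM.Ap1

/-!
# A priori bounds for several vertices (project MEI)
-/

set_option autoImplicit false

namespace Helper13.PLM

open Set Metric Finset MeasureTheory Helper80.CW Helper82.CW Helper14.CW Helper93.MEI Helper66.MEI
open scoped RealInnerProductSpace

/-- total depth of `c i` at the vertex `a i` -/
noncomputable def Adep (a c : Fin 4 → E3) (i : Fin 4) : ℝ := ∑ j, ⟪a i - c i, a i - a j⟫

/-- `∑_{i<j} (1 - |c_i - c_j|²)` -/
noncomputable def Eps (c : Fin 4 → E3) : ℝ :=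
  (∑ i, ∑ j, (if i = j then 0 else 1 - ‖c i - c j‖ ^ 2)) / 2

section gram
variable {a : Fin 4 → E3} (h : Gram4 (al a))
include h

/-- barycentric coordinates through the depths -/
theorem bar_depth (i j : Fin 4) (x : E3) : bar a j (a i) - bar a j x =
    (∑ k, ⟪a i - x, a i - a k⟫) / 2 - 2 * ⟪a i - x, a i - a j⟫ := by
  have hs := depth_sum h i x
  by_cases hij : i = j
  · subst hij
    rw [hs, bar_vertex_self h, sub_self, inner_zero_right]
    ring
  · rw [hs, bar_vertex_ne h (Ne.symm hij), depth_bar h hij]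
    ring

/-- exact inner product of two displacement vectors -/
theorem inner_disp (i k : Fin 4) (x y : E3) : ⟪a i - x, a k - y⟫ =
    2 * ∑ j, ⟪a i - x, a i - a j⟫ * ⟪a k - y, a k - a j⟫ -
      (∑ j, ⟪a i - x, a i - a j⟫) * (∑ j, ⟪a k - y, a k - a j⟫) / 2 := by
  rw [inner_bar h, bar_depth h, bar_depth h, bar_depth h, bar_depth h, bar_depth h, bar_depth h,
    bar_depth h, bar_depth h]
  simp only [Fin.sum_univ_four]
  ring

/-- `Q_i ≤ 6 (1 - b_k)²` for placed points, `k ≠ i` -/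
theorem Qv_le_six {z : E3} (hz : Pl a z) {i k : Fin 4} (hik : i ≠ k) :
    Qv a i z ≤ 6 * (1 - bar a k z) ^ 2 := by
  have h0 : ∀ j, 0 ≤ ⟪a k - z, a k - a j⟫ := by
    intro j
    by_cases hkj : k = j
    · subst hkj; simp
    · have := hz k j hkj
      rw [inner_sub_left]
      linarith
  have h1 := norm_sq_depth h k z
  have h2 : ∑ j, ⟪a k - z, a k - a j⟫ ^ 2 ≤ (∑ j, ⟪a k - z, a k - a j⟫) ^ 2 :=
    Finset.sum_sq_le_sq_sum_of_nonneg fun j _ => h0 j
  have h3 := depth_sum h k z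
  have h4 : Qv a i z = ‖a k - z‖ ^ 2 - 2 * ⟪a k - z, a k - a i⟫ := by
    have e1 : ‖a k - a i‖ ^ 2 = 1 := by
      rw [norm_sub_sq_bar h, bar_depth h k 0 (a i), bar_depth h k 1 (a i), bar_depth h k 2 (a i),
        bar_depth h k 3 (a i)]
      have e2 : ∀ j, ⟪a k - a i, a k - a j⟫ = if k = j then (0 : ℝ) else if i = j then 1 else 1 / 2 := by
        intro j
        by_cases hkj : k = j
        · subst hkj; simp
        · rw [if_neg hkj, depth_bar h hkj, bar_vertex_ne h (Ne.symm hik), bar_vertex h]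
          by_cases hij : i = j
          · subst hij; simp
          · rw [if_neg (Ne.symm hij), if_neg hij]; ring
      simp only [e2]
      revert hik
      fin_cases i <;> fin_cases k <;> simp [Fin.sum_univ_four] <;> norm_num
    have e3 : z - a i = (a k - a i) - (a k - z) := by abel
    unfold Qv
    rw [e3, norm_sub_sq_real, e1, real_inner_comm (a k - z)]
    ring
  rw [h4]
  have h5 := h0 i
  rw [h3] at h2 h1
  nlinarith

end gram

section near
variable {K : Set E3} {a c : Fin 4 → E3} (N : Near K a c)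
include N

theorem Near.A_nonneg (i : Fin 4) : 0 ≤ Adep a c i := Finset.sum_nonneg fun j _ => N.nonneg i j

theorem Near.A_sum : ∑ i, Adep a c i ≤ 0.1503 := N.sum_le

theorem Near.A_le (i : Fin 4) : Adep a c i ≤ 0.1503 :=
  (Finset.single_le_sum (f := Adep a c) (fun i _ => N.A_nonneg i) (Finset.mem_univ i)).trans N.A_sum

theorem Near.Eps_le : Eps c ≤ 0.21 := by
  have := N.eps_le
  unfold Eps
  linarith

theorem Near.delta_le (i : Fin 4) : ‖a i - c i‖ ^ 2 ≤ 1.5 * Adep a c i ^ 2 := by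
  have h1 := norm_sq_depth N.placed.gram i (c i)
  have h2 : ∑ j, ⟪a i - c i, a i - a j⟫ ^ 2 ≤ (∑ j, ⟪a i - c i, a i - a j⟫) ^ 2 :=
    Finset.sum_sq_le_sq_sum_of_nonneg fun j _ => N.nonneg i j
  unfold Adep
  linarith

/-- `-2 ⟪x_i, x_k⟫ ≤ A_i A_k` -/
theorem Near.cross (i k : Fin 4) : -2 * ⟪a i - c i, a k - c k⟫ ≤ Adep a c i * Adep a c k := by
  rw [inner_disp N.placed.gram]
  have : 0 ≤ ∑ j, ⟪a i - c i, a i - a j⟫ * ⟪a k - c k, a k - a j⟫ :=
    Finset.sum_nonneg fun j _ => mul_nonneg (N.nonneg i j) (N.nonneg k j)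
  unfold Adep
  linarith

theorem Near.diff_sq (i k : Fin 4) : ‖(a i - c i) - (a k - c k)‖ ^ 2 ≤
    ‖a i - c i‖ ^ 2 + ‖a k - c k‖ ^ 2 + Adep a c i * Adep a c k := by
  have := N.cross i k
  rw [norm_sub_sq_real]
  linarith

/-- the exact budget -/
theorem Near.budget_eq : 2 * ∑ i, Adep a c i = Eps c +
    (‖(a 0 - c 0) - (a 1 - c 1)‖ ^ 2 + ‖(a 0 - c 0) - (a 2 - c 2)‖ ^ 2 +
      ‖(a 0 - c 0) - (a 3 - c 3)‖ ^ 2 + ‖(a 1 - c 1) - (a 2 - c 2)‖ ^ 2 +
      ‖(a 1 - c 1) - (a 3 - c 3)‖ ^ 2 + ‖(a 2 - c 2) - (a 3 - c 3)‖ ^ 2) := by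
  unfold Eps Adep
  rw [offdiag (fun i j => 1 - ‖c i - c j‖ ^ 2) (fun i j => by rw [norm_sub_rev])]
  rw [N.dist_c (i := 0) (j := 1) (by decide), N.dist_c (i := 0) (j := 2) (by decide),
    N.dist_c (i := 0) (j := 3) (by decide), N.dist_c (i := 1) (j := 2) (by decide),
    N.dist_c (i := 1) (j := 3) (by decide), N.dist_c (i := 2) (j := 3) (by decide)]
  simp only [Fin.sum_univ_four, sub_self, inner_zero_right]
  ring

/-- the budget, cross terms estimated -/
theorem Near.budget3 : 2 * ∑ i, Adep a c i ≤ Eps c + 3 * ∑ i, ‖a i - c i‖ ^ 2 +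
    ((∑ i, Adep a c i) ^ 2 - ∑ i, Adep a c i ^ 2) / 2 := by
  rw [N.budget_eq]
  have h01 := N.diff_sq 0 1
  have h02 := N.diff_sq 0 2
  have h03 := N.diff_sq 0 3
  have h12 := N.diff_sq 1 2
  have h13 := N.diff_sq 1 3
  have h23 := N.diff_sq 2 3
  simp only [Fin.sum_univ_four]
  have e : ((Adep a c 0 + Adep a c 1 + Adep a c 2 + Adep a c 3) ^ 2 -
      (Adep a c 0 ^ 2 + Adep a c 1 ^ 2 + Adep a c 2 ^ 2 + Adep a c 3 ^ 2)) / 2 =
      Adep a c 0 * Adep a c 1 + Adep a c 0 * Adep a c 2 + Adep a c 0 * Adep a c 3 +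
      Adep a c 1 * Adep a c 2 + Adep a c 1 * Adep a c 3 + Adep a c 2 * Adep a c 3 := by ring
  rw [e]
  linarith

variable (hK : IsCompact K) (hw : Width1 K)
include hK hw

/-- `s_i + .816 A_i √s_i ≤ 2 A_i - δ_i`, `s_i` the positive part of `Q_i(z)` -/
theorem Near.vertex (i : Fin 4) {z : E3} (hz : z ∈ K) {s : ℝ} (hs : s = max (Qv a i z) 0) :
    s + 0.816 * Adep a c i * √s ≤ 2 * Adep a c i - ‖a i - c i‖ ^ 2 := by
  have hA := N.A_nonneg i
  have hA1 := N.A_le i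
  have hd := N.delta_le i
  rcases le_or_gt (Qv a i z) 0 with h | h
  · rw [max_eq_right h] at hs
    rw [hs, Real.sqrt_zero]
    nlinarith
  · rw [max_eq_left h.le] at hs
    have hs0 : 0 ≤ s := by rw [hs]; exact h.le
    have hr := Real.sqrt_nonneg s
    have hr2 := Real.sq_sqrt hs0
    have hG := N.placed.gram
    have hp := N.pl z hz
    have hb : ∀ k, i ≠ k → bar a k z ≤ 1 - 0.408 * √s := by
      intro k hik
      have h6 := Qv_le_six hG hp hik
      rw [← hs, ← hr2] at h6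
      have h1 : bar a k z ≤ 1 := N.placed.bar_le hz k
      have h2 : (0.408 * √s) ^ 2 ≤ (1 - bar a k z) ^ 2 := by nlinarith
      have h3 := abs_le_of_sq_le_sq' h2 (by linarith)
      linarith [h3.2]
    have hq := N.placed.Qv_le hK hw hz i
    have hsum : ∑ j, bar a j z * ⟪a i - c i, a i - a j⟫ ≤ (1 - 0.408 * √s) * Adep a c i := by
      unfold Adep
      rw [Finset.mul_sum]
      refine Finset.sum_le_sum fun j _ => ?_
      by_cases hij : i = j
      · subst hij; simp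
      · exact mul_le_mul_of_nonneg_right (hb j hij) (N.nonneg i j)
    rw [← hs] at hq
    nlinarith

omit hK hw N in
theorem vertex3_arith {A d r s : ℝ} (hA : 0 ≤ A) (hA1 : A ≤ 0.1503) (hd : d ≤ 1.5 * A ^ 2)
    (hr : 0 ≤ r) (hs : r ^ 2 = s) (hs1 : s < 3 / 16)
    (h : s + 0.816 * A * r ≤ 2 * A - d) : s + 3 * d ≤ 2 * A + A ^ 2 / 2 := by
  rcases le_or_gt (3.064 * A) r with h1 | h1
  · have h2 : A * (3.064 * A) ≤ A * r := mul_le_mul_of_nonneg_left h1 hA
    nlinarith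
  · rcases le_or_gt A 0.1492 with h3 | h3
    · have h4 : r ^ 2 ≤ (3.064 * A) ^ 2 := pow_le_pow_left₀ hr h1.le 2
      have h5 : A * A ≤ 0.1492 * A := mul_le_mul_of_nonneg_right h3 hA
      nlinarith
    · nlinarith

/-- **per vertex**: `s_i + 3 δ_i ≤ 2 A_i + A_i² / 2` -/
theorem Near.vertex3 (i : Fin 4) {z : E3} (hz : z ∈ K) :
    max (Qv a i z) 0 + 3 * ‖a i - c i‖ ^ 2 ≤ 2 * Adep a c i + Adep a c i ^ 2 / 2 := by
  have h0 : 0 ≤ max (Qv a i z) 0 := le_max_right _ _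
  refine vertex3_arith (N.A_nonneg i) (N.A_le i) (N.delta_le i)
    (Real.sqrt_nonneg (max (Qv a i z) 0)) (Real.sq_sqrt h0) ?_ (N.vertex hK hw i hz rfl)
  exact max_lt (N.ap hK hw hz i) (by norm_num)

/-- **(C3)** `∑ s_i ≤ ∑_{i<j} (1 - |c_i - c_j|²) + (∑ A_i)² / 2` for any four points of `K` -/
theorem Near.sum_sup {z : Fin 4 → E3} (hz : ∀ i, z i ∈ K) :
    ∑ i, max (Qv a i (z i)) 0 ≤ Eps c + (∑ i, Adep a c i) ^ 2 / 2 := by
  have h1 : ∑ i, (max (Qv a i (z i)) 0 + 3 * ‖a i - c i‖ ^ 2) ≤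
      ∑ i, (2 * Adep a c i + Adep a c i ^ 2 / 2) :=
    Finset.sum_le_sum fun i _ => N.vertex3 hK hw i (hz i)
  have h2 := N.budget3
  rw [Finset.sum_add_distrib, Finset.sum_add_distrib, ← Finset.mul_sum, ← Finset.mul_sum,
    ← Finset.sum_div] at h1
  linarith

/-- **(C3)** `∑ s_i ≤ .2213` -/
theorem Near.sum_sup_le {z : Fin 4 → E3} (hz : ∀ i, z i ∈ K) :
    ∑ i, max (Qv a i (z i)) 0 ≤ 0.2213 := by
  have h1 := N.sum_sup hK hw hz
  have h2 := N.A_sum
  have h3 := N.Eps_le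
  have h4 : 0 ≤ ∑ i, Adep a c i := Finset.sum_nonneg fun i _ => N.A_nonneg i
  nlinarith

end near

end Helper13.PLM
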