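import Pool.Agent.Helper13.PLM.Ap2

/-!
# A priori bounds for several vertices, in terms of the sum of the edge defects (project MEI)

With `X` any bound of `Eps c`: the sum of the depths, the sum of the four violations under the cap
`0.14`, and the smaller of two violations.
-/

set_option autoImplicit false

namespace Helper13.PLM

open Set Metric Finset MeasureTheory Helper80.CW Helper82.CW Helper14.CW Helper93.MEI Helper66.MEI
open scoped RealInnerProductSpace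

/-- one variable inequality for the capped vertex estimate -/
theorem cap_poly {A : ℝ} (h1 : 0.001 ≤ A) (h2 : A ≤ 0.09) :
    (0.0752 * A + 2.5 * A ^ 2 - 0.00008) ^ 2 ≤
      0.665856 * A ^ 2 * (1.9248 * A - 4 * A ^ 2 + 0.00008) := by
  rcases le_or_gt A 0.006 with h | h
  · nlinarith [mul_nonneg (sub_nonneg.2 h1) (sub_nonneg.2 h), sq_nonneg (A - 0.0025),
      mul_nonneg (sub_nonneg.2 h1) (sq_nonneg (A - 0.0025)),
      mul_nonneg (mul_nonneg (sub_nonneg.2 h1) (sub_nonneg.2 h)) (sub_nonneg.2 h1),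
      mul_nonneg (mul_nonneg (sub_nonneg.2 h1) (sub_nonneg.2 h)) (sq_nonneg A)]
  · nlinarith [mul_nonneg (sub_nonneg.2 h.le) (sub_nonneg.2 h2),
      mul_nonneg (mul_nonneg (sub_nonneg.2 h.le) (sub_nonneg.2 h2)) (sub_nonneg.2 h.le),
      mul_nonneg (mul_nonneg (sub_nonneg.2 h.le) (sub_nonneg.2 h2)) (sq_nonneg A)]

/-- per vertex with the cap `0.14` -/
theorem cap_arith {A d r s : ℝ} (hA : 0 ≤ A) (hA1 : A ≤ 0.1503) (hd : d ≤ 1.5 * A ^ 2)
    (hr : 0 ≤ r) (hs : r ^ 2 = s) (hs1 : s ≤ 0.14)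
    (h : s + 0.816 * A * r ≤ 2 * A - d) :
    s + 3 * d ≤ 1.9248 * A + A ^ 2 / 2 + 0.00008 := by
  rcases le_or_gt 0.0898 A with h1 | h1
  · nlinarith
  rcases le_or_gt (0.0752 * A + 2.5 * A ^ 2 - 0.00008) (0.816 * A * r) with h2 | h2
  · nlinarith
  rcases le_or_gt A 0.001 with h3 | h3
  · have h4 : 0 ≤ 0.816 * A * r := by positivity
    nlinarith
  · have h4 : 0 ≤ 0.816 * A * r := by positivity
    have h5 : (0.816 * A * r) ^ 2 < (0.0752 * A + 2.5 * A ^ 2 - 0.00008) ^ 2 :=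
      pow_lt_pow_left₀ h2 h4 two_ne_zero
    have h6 := cap_poly h3.le (by linarith)
    have h7 : (0.816 * A * r) ^ 2 = 0.665856 * A ^ 2 * s := by rw [← hs]; ring
    rw [h7] at h5
    have h8 : 0 < 0.665856 * A ^ 2 := by positivity
    have h9 : s < 1.9248 * A - 4 * A ^ 2 + 0.00008 := by
      by_contra hc
      push Not at hc
      have := mul_le_mul_of_nonneg_left hc h8.le
      linarith
    linarith

/-- one variable inequality for two violations -/
theorem two_poly {u : ℝ} (h1 : 0.27 ≤ u) (h2 : u ≤ 0.325) :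
    (u ^ 2 + 0.002) * (4.04 - 2.448 * u) ^ 2 + 4.5 * (2 * u ^ 2 - 0.002) ^ 2 ≤
      1.96 * (2 * u ^ 2 - 0.002) * (4.04 - 2.448 * u) := by
  nlinarith [mul_nonneg (sub_nonneg.2 h1) (sub_nonneg.2 h2),
    mul_nonneg (mul_nonneg (sub_nonneg.2 h1) (sub_nonneg.2 h2)) (sub_nonneg.2 h1),
    mul_nonneg (mul_nonneg (sub_nonneg.2 h1) (sub_nonneg.2 h2)) (sq_nonneg u),
    mul_nonneg (mul_nonneg (sub_nonneg.2 h1) (sub_nonneg.2 h2))
      (mul_nonneg (sub_nonneg.2 h1) (sub_nonneg.2 h2))]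

/-- per vertex, for two large violations -/
theorem two_arith {A d u m : ℝ} (hA1 : A ≤ 0.1503) (hd : d ≤ 1.5 * A ^ 2)
    (hu1 : 0.27 ≤ u) (hu2 : u ≤ 0.325) (hm : u ^ 2 = m)
    (h : m + 0.816 * A * u ≤ 2 * A - d) :
    m + 3 * d ≤ 1.96 * A - 0.002 := by
  have hD : 0 < 4.04 - 2.448 * u := by linarith
  set A1 : ℝ := (2 * m - 0.002) / (4.04 - 2.448 * u) with hA1d
  have hmul : A1 * (4.04 - 2.448 * u) = 2 * m - 0.002 := by
    rw [hA1d]; field_simp
  rcases le_or_gt A A1 with h1 | h1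
  · have h2 : A * (4.04 - 2.448 * u) ≤ 2 * m - 0.002 := by
      rw [← hmul]; exact mul_le_mul_of_nonneg_right h1 hD.le
    linarith
  · have h3 : m + 4.5 * A1 ^ 2 ≤ 1.96 * A1 - 0.002 := by
      have h4 := two_poly hu1 hu2
      rw [hm, ← hmul] at h4
      have h5 : (m + 0.002 + 4.5 * A1 ^ 2 - 1.96 * A1) * (4.04 - 2.448 * u) ^ 2 ≤ 0 := by
        linarith
      have h6 : 0 < (4.04 - 2.448 * u) ^ 2 := by positivity
      by_contra hc
      push Not at hc
      have h7 : 0 < m + 0.002 + 4.5 * A1 ^ 2 - 1.96 * A1 := by linarith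
      have := mul_pos h7 h6
      linarith
    have h8 : 0 ≤ (A - A1) * (0.1503 - A) := mul_nonneg (by linarith) (by linarith)
    have hA1p : A1 ≤ 0.1503 := by linarith
    nlinarith

/-- budget for two large violations -/
theorem two_sum {x y z w X Y Z W E m : ℝ} (hx : 0 ≤ x) (hy : 0 ≤ y) (hz : 0 ≤ z) (hw : 0 ≤ w)
    (hS : x + y + z + w ≤ 0.1503) (hX : m + 3 * X ≤ 1.96 * x - 0.002)
    (hY : m + 3 * Y ≤ 1.96 * y - 0.002) (hZ : Z ≤ 1.5 * z ^ 2) (hW : W ≤ 1.5 * w ^ 2)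
    (hb : 2 * (x + y + z + w) ≤ E + 3 * (X + Y + Z + W) +
      ((x + y + z + w) ^ 2 - (x ^ 2 + y ^ 2 + z ^ 2 + w ^ 2)) / 2) : 2 * m + 0.004 ≤ E := by
  have e : ((x + y + z + w) ^ 2 - (x ^ 2 + y ^ 2 + z ^ 2 + w ^ 2)) / 2 =
    x * y + (x + y) * (z + w) + z * w := by ring
  rw [e] at hb
  have h1 : x * y ≤ 0.04 * (x + y) := by
    nlinarith [sq_nonneg (x - y), mul_nonneg (add_nonneg hx hy)
      (by linarith : (0 : ℝ) ≤ 0.1503 - (x + y))]
  have h2 : (x + y) * (z + w) ≤ 0.1503 * (z + w) :=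
    mul_le_mul_of_nonneg_right (by linarith) (add_nonneg hz hw)
  have h3 : z ^ 2 ≤ 0.1503 * z := by nlinarith
  have h4 : w ^ 2 ≤ 0.1503 * w := by nlinarith
  have h5 : z * w ≤ 0.1503 * w := mul_le_mul_of_nonneg_right (by linarith) hw
  nlinarith

section near
variable {K : Set E3} {a c : Fin 4 → E3} (N : Near K a c)
include N

/-- quadratic inequality for the sum of the depths -/
theorem Near.A_quad : (2 - 4.5 * ∑ i, Adep a c i) * ∑ i, Adep a c i ≤ Eps c := by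
  have h1 := N.budget3
  have h2 : ∑ i, ‖a i - c i‖ ^ 2 ≤ 1.5 * ∑ i, Adep a c i ^ 2 := by
    rw [Finset.mul_sum]
    exact Finset.sum_le_sum fun i _ => N.delta_le i
  have h3 : ∑ i, Adep a c i ^ 2 ≤ (∑ i, Adep a c i) ^ 2 :=
    Finset.sum_sq_le_sq_sum_of_nonneg fun i _ => N.A_nonneg i
  nlinarith

theorem Near.A_sum_nonneg : 0 ≤ ∑ i, Adep a c i := Finset.sum_nonneg fun i _ => N.A_nonneg i

theorem Near.Eps_nonneg : 0 ≤ Eps c := by
  have h1 := N.A_quad
  have h2 := N.A_sum_nonneg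
  have h3 := N.A_sum
  nlinarith

/-- the sum of the depths for `Eps c ≤ 0.182` -/
theorem Near.A_sum_182 (hE : Eps c ≤ 0.182) : ∑ i, Adep a c i ≤ 0.128 := by
  have h1 := N.A_quad
  have h3 := N.A_sum
  nlinarith

/-- the sum of the depths for `Eps c ≤ 0.1774` -/
theorem Near.A_sum_1774 (hE : Eps c ≤ 0.1774) : ∑ i, Adep a c i ≤ 0.123 := by
  have h1 := N.A_quad
  have h3 := N.A_sum
  nlinarith

variable (hK : IsCompact K) (hw : Width1 K)
include hK hw

/-- per vertex with the cap `0.14` -/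
theorem Near.vertex_cap (i : Fin 4) {z : E3} (hz : z ∈ K) (hcap : Qv a i z ≤ 0.14) :
    max (Qv a i z) 0 + 3 * ‖a i - c i‖ ^ 2 ≤
      1.9248 * Adep a c i + Adep a c i ^ 2 / 2 + 0.00008 := by
  have h0 : 0 ≤ max (Qv a i z) 0 := le_max_right _ _
  exact cap_arith (N.A_nonneg i) (N.A_le i) (N.delta_le i)
    (Real.sqrt_nonneg (max (Qv a i z) 0)) (Real.sq_sqrt h0) (max_le hcap (by norm_num))
    (N.vertex hK hw i hz rfl)

/-- **(C3), with the cap**: `∑ s_i ≤ ∑_{i<j} (1 - |c_i - c_j|²) + 0.00032` -/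
theorem Near.sum_sup_cap {z : Fin 4 → E3} (hz : ∀ i, z i ∈ K)
    (hcap : ∀ i, Qv a i (z i) ≤ 0.14) :
    ∑ i, max (Qv a i (z i)) 0 ≤ Eps c + 0.00032 := by
  have h1 : ∑ i, (max (Qv a i (z i)) 0 + 3 * ‖a i - c i‖ ^ 2) ≤
      ∑ i, (1.9248 * Adep a c i + Adep a c i ^ 2 / 2 + 0.00008) :=
    Finset.sum_le_sum fun i _ => N.vertex_cap hK hw i (hz i) (hcap i)
  have h2 := N.budget3
  have h3 := N.A_sum
  have h4 := N.A_sum_nonneg
  rw [Finset.sum_add_distrib, Finset.sum_add_distrib, Finset.sum_add_distrib, ← Finset.mul_sum,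
    ← Finset.mul_sum, ← Finset.sum_div] at h1
  simp only [Finset.sum_const, Finset.card_univ, Fintype.card_fin, nsmul_eq_mul] at h1
  push_cast at h1
  nlinarith

/-- per vertex, for two large violations -/
theorem Near.vertex_two (i : Fin 4) {z : E3} (hz : z ∈ K) {u : ℝ} (hu1 : 0.27 ≤ u)
    (hu2 : u ≤ 0.325) (hm : u ^ 2 ≤ Qv a i z) :
    u ^ 2 + 3 * ‖a i - c i‖ ^ 2 ≤ 1.96 * Adep a c i - 0.002 := by
  have hA := N.A_nonneg i
  have h1 := N.vertex hK hw i hz rfl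
  have h2 : u ^ 2 ≤ max (Qv a i z) 0 := hm.trans (le_max_left _ _)
  have h3 : u ≤ √(max (Qv a i z) 0) := Real.le_sqrt_of_sq_le h2
  refine two_arith (N.A_le i) (N.delta_le i) hu1 hu2 rfl ?_
  have h4 : 0.816 * Adep a c i * u ≤ 0.816 * Adep a c i * √(max (Qv a i z) 0) :=
    mul_le_mul_of_nonneg_left h3 (by positivity)
  linarith

/-- **two large violations**: `2 m + 0.004 ≤ ∑_{i<j} (1 - |c_i - c_j|²)` if two of the four
violations are at least `m = u²`, `0.27 ≤ u ≤ 0.325` -/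
theorem Near.two_sup {i k : Fin 4} (hik : i ≠ k) {z y : E3} (hz : z ∈ K) (hy : y ∈ K) {u : ℝ}
    (hu1 : 0.27 ≤ u) (hu2 : u ≤ 0.325) (hm : u ^ 2 ≤ Qv a i z) (hm2 : u ^ 2 ≤ Qv a k y) :
    2 * u ^ 2 + 0.004 ≤ Eps c := by
  have h1 := N.vertex_two hK hw i hz hu1 hu2 hm
  have h2 := N.vertex_two hK hw k hy hu1 hu2 hm2
  have hS := N.A_sum
  have hb := N.budget3
  have hA := N.A_nonneg
  have hd := N.delta_le
  simp only [Fin.sum_univ_four] at hS hb
  have key : ∀ p q r s : Fin 4, u ^ 2 + 3 * ‖a p - c p‖ ^ 2 ≤ 1.96 * Adep a c p - 0.002 →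
      u ^ 2 + 3 * ‖a q - c q‖ ^ 2 ≤ 1.96 * Adep a c q - 0.002 →
      Adep a c p + Adep a c q + Adep a c r + Adep a c s ≤ 0.1503 →
      2 * (Adep a c p + Adep a c q + Adep a c r + Adep a c s) ≤ Eps c +
        3 * (‖a p - c p‖ ^ 2 + ‖a q - c q‖ ^ 2 + ‖a r - c r‖ ^ 2 + ‖a s - c s‖ ^ 2) +
        ((Adep a c p + Adep a c q + Adep a c r + Adep a c s) ^ 2 -
          (Adep a c p ^ 2 + Adep a c q ^ 2 + Adep a c r ^ 2 + Adep a c s ^ 2)) / 2 →
      2 * u ^ 2 + 0.004 ≤ Eps c := fun p q r s g1 g2 g3 g4 =>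
    two_sum (hA p) (hA q) (hA r) (hA s) g3 g1 g2 (hd r) (hd s) g4
  have hex : ∃ r s : Fin 4, (∀ f : Fin 4 → ℝ, f i + f k + f r + f s = f 0 + f 1 + f 2 + f 3) := by
    have hdec : ∀ i k : Fin 4, i ≠ k → ∃ r s : Fin 4, r ≠ s ∧ r ≠ i ∧ r ≠ k ∧ s ≠ i ∧ s ≠ k ∧
        (Finset.univ : Finset (Fin 4)) = {i, k, r, s} := by
      decide
    obtain ⟨r, s, hrs, hri, hrk, hsi, hsk, hu⟩ := hdec i k hik
    refine ⟨r, s, fun f => ?_⟩
    have h4 : ∑ j, f j = f 0 + f 1 + f 2 + f 3 := Fin.sum_univ_four _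
    rw [← h4, hu, Finset.sum_insert, Finset.sum_insert, Finset.sum_insert, Finset.sum_singleton]
    · ring
    · simpa using hrs
    · simp [Ne.symm hrk, Ne.symm hsk]
    · simp [hik, Ne.symm hri, Ne.symm hsi]
  obtain ⟨r, s, hf⟩ := hex
  refine key i k r s h1 h2 ?_ ?_
  · rw [hf (fun j => Adep a c j)]; exact hS
  · rw [hf (fun j => Adep a c j), hf (fun j => ‖a j - c j‖ ^ 2), hf (fun j => Adep a c j ^ 2)]
    exact hb

/-- **(C2)** the smaller of two violations is at most `X / 2 - 0.002` -/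
theorem Near.min_sup {i k : Fin 4} (hik : i ≠ k) {z y : E3} (hz : z ∈ K) (hy : y ∈ K) {X : ℝ}
    (hX1 : 0.1498 ≤ X) (hX2 : X ≤ 0.21) (hE : Eps c ≤ X) :
    min (Qv a i z) (Qv a k y) ≤ X / 2 - 0.002 := by
  by_contra hc
  push Not at hc
  set m : ℝ := min (Qv a i z) (Qv a k y) with hm
  have h1 : m ≤ Qv a i z := min_le_left _ _
  have h2 : m ≤ Qv a k y := min_le_right _ _
  rcases le_or_gt m 0.105625 with h | h
  · have h0 : 0 ≤ m := by linarith
    have hs := Real.sq_sqrt h0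
    have h3 : 0.27 ≤ √m := Real.le_sqrt_of_sq_le (by norm_num; linarith)
    have h4 : √m ≤ 0.325 := by
      rw [Real.sqrt_le_left (by norm_num)]
      norm_num
      linarith
    have h5 := N.two_sup hK hw hik hz hy h3 h4 (by rw [hs]; exact h1) (by rw [hs]; exact h2)
    rw [hs] at h5
    linarith
  · have h5 := N.two_sup hK hw hik hz hy (u := 0.325) (by norm_num) (by norm_num)
      (by norm_num; linarith) (by norm_num; linarith)
    norm_num at h5
    linarith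

end near

end Helper13.PLM
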