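import Pool.Agent.Helper13.PLM.Ap3

/-!
# The sum of the depths with the diameter condition between the four points (project MEI)
-/

set_option autoImplicit false

namespace Helper13.PLM

open Set Metric Finset MeasureTheory Helper80.CW Helper82.CW Helper14.CW Helper93.MEI Helper66.MEI
open scoped RealInnerProductSpace

/-- no dominating vertex -/
theorem sum_arith1 {R S t q : ℝ} (hS1 : S ≤ 0.1503) (hS2 : 0.1115 < S) (h1 : 0.21 * S ≤ R)
    (hq1 : q ≤ t * R) (ht : t = S - R) :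
    0.1774 + 4.5 * t ^ 2 + 4 * q + R ^ 2 / 2 + t * R < 2 * S := by
  subst ht
  have h3 : 0.1774 + 4.5 * (S - R) ^ 2 + 5 * ((S - R) * R) + R ^ 2 / 2 < 2 * S := by
    have e : 4.5 * (S - R) ^ 2 + 5 * ((S - R) * R) + R ^ 2 / 2 = S * (4.5 * S - 4 * R) := by ring
    have h4 : S * (4.5 * S - 4 * R) ≤ S * (3.66 * S) :=
      mul_le_mul_of_nonneg_left (by linarith) (by linarith)
    have h5 : 0.1774 + 3.66 * S ^ 2 < 2 * S := by nlinarith
    linarith
  linarith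

/-- dominating vertex, spread depths -/
theorem sum_arith2 {R S t q d : ℝ} (hS1 : S ≤ 0.1503) (hS2 : 0.1115 < S) (hR : 0 ≤ R)
    (h1 : R < 0.21 * S) (hq2 : q ≤ R ^ 2) (ht : t = S - R) (hd : d ≤ 0.7 * t ^ 2) :
    0.1774 + 3 * d + 4 * q + R ^ 2 / 2 + t * R < 2 * S := by
  subst ht
  have h3 : R ^ 2 ≤ 0.21 * S * R := by nlinarith
  have h4 : 0.1774 + 2.1 * S ^ 2 < 2 * S := by nlinarith
  nlinarith

/-- dominating vertex, concentrated depths -/
theorem sum_arith3 {S u d : ℝ} (hS1 : S ≤ 0.1503) (hS2 : 0.1115 < S) (hu0 : 0 ≤ u)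
    (hus : u ≤ 0.53 * S) (hu : d ≤ u) (hd : d ≤ 1.5 * (S - u) ^ 2) :
    0.1774 + 3 * d + S * u + 3.5 * u ^ 2 < 2 * S := by
  rcases le_or_gt u 0.0143 with h8 | h8
  · nlinarith
  · nlinarith [mul_nonneg (by linarith : (0 : ℝ) ≤ S - 0.1115) (by linarith : (0 : ℝ) ≤ 0.1503 - S),
      mul_nonneg (by linarith : (0 : ℝ) ≤ u - 0.0143) (by linarith : (0 : ℝ) ≤ 0.53 * S - u),
      mul_nonneg (by linarith : (0 : ℝ) ≤ u - 0.0143) (by linarith : (0 : ℝ) ≤ S - 0.1115)]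

/-- arithmetic of the sum of the depths, `X = 0.1774` -/
theorem sum_arith {a b R d S E q : ℝ} (ha : 0 ≤ a) (hb : 0 ≤ b) (hR : 0 ≤ R)
    (hS : S = a + b + R) (hS1 : S ≤ 0.1503) (hu : d ≤ b + R)
    (hd1 : d ≤ 1.5 * a ^ 2 - a * b + 1.5 * b ^ 2) (hd2 : d ≤ 1.5 * (a + b) ^ 2 - 2 * (a + b) * b)
    (hq1 : q ≤ (a + b) * R) (hq2 : q ≤ R ^ 2) (hX : E ≤ 0.1774)
    (hbud : 2 * S ≤ E + 3 * d + 4 * q + R ^ 2 / 2 + (a + b) * R) : S ≤ 0.1115 := by
  by_contra hc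
  push Not at hc
  rcases le_or_gt (0.21 * S) R with h1 | h1
  · have h2 := sum_arith1 hS1 hc h1 hq1 (by linarith)
    have h3 : d ≤ 1.5 * (a + b) ^ 2 := by nlinarith [mul_nonneg (add_nonneg ha hb) hb]
    linarith
  rcases le_or_gt (2 / 3 * a) b with h3 | h3
  · have h5 : d ≤ 0.7 * (a + b) ^ 2 := by
      have h6 : 0.4 * (a + b) ≤ b := by linarith
      have h7 := mul_le_mul_of_nonneg_left h6 (add_nonneg ha hb)
      linarith
    have h2 := sum_arith2 hS1 hc hR h1 hq2 (by linarith : a + b = S - R) h5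
    linarith
  · have h4 : d ≤ 1.5 * a ^ 2 := by
      have h5 := mul_le_mul_of_nonneg_left h3.le hb
      linarith
    have h8 : a = S - (b + R) := by linarith
    have h9 : d ≤ 1.5 * (S - (b + R)) ^ 2 := by rw [← h8]; exact h4
    have h10 := sum_arith3 hS1 hc (by linarith) (by linarith) hu h9
    have h6 : (a + b) * R + 4 * q + R ^ 2 / 2 ≤ S * (b + R) + 3.5 * (b + R) ^ 2 := by
      rw [hS]
      nlinarith [mul_nonneg hR hb, mul_nonneg ha hb, mul_nonneg ha hR, mul_nonneg hb hb,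
        mul_nonneg hR hR]
    linarith

/-- squared length through the depths, largest depth `p` -/
theorem depth_arith {p q r d : ℝ} (hq : 0 ≤ q) (hr : 0 ≤ r) (hqp : q ≤ p) (hrp : r ≤ p)
    (hd : d = 2 * (p ^ 2 + q ^ 2 + r ^ 2) - (p + q + r) ^ 2 / 2) :
    d ≤ 1.5 * p ^ 2 - p * (q + r) + 1.5 * (q + r) ^ 2 ∧
      d ≤ 1.5 * (p + (q + r)) ^ 2 - 2 * (p + (q + r)) * (q + r) := by
  constructor
  · nlinarith [mul_nonneg hq hr]
  · nlinarith [mul_nonneg hq (sub_nonneg.2 hqp), mul_nonneg hr (sub_nonneg.2 hrp),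
      mul_nonneg hq hr]

section near
variable {K : Set E3} {a c : Fin 4 → E3} (N : Near K a c) (hK : IsCompact K) (hw : Width1 K)
include N hK hw

/-- for each pair: `|x_i|² + |x_k|² ≤ 2 α_ik + (2 - A_i) A_k` -/
theorem Near.pair_ge {i k : Fin 4} (hik : i ≠ k) : ‖a i - c i‖ ^ 2 + ‖a k - c k‖ ^ 2 ≤
    2 * ⟪a i - c i, a i - a k⟫ + (2 - Adep a c i) * Adep a c k := by
  have h1 := N.eps_nonneg hK hw hik
  have h2 := inner_disp N.placed.gram i k (c i) (c k)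
  have hAi := N.A_nonneg i
  have hAi1 := N.A_le i
  have hki : ⟪a k - c k, a k - a i⟫ ≤ Adep a c k :=
    Finset.single_le_sum (f := fun j => ⟪a k - c k, a k - a j⟫)
      (fun j _ => N.nonneg k j) (Finset.mem_univ i)
  have h3 : ∑ j, ⟪a i - c i, a i - a j⟫ * ⟪a k - c k, a k - a j⟫ ≤
      Adep a c i * (Adep a c k - ⟪a k - c k, a k - a i⟫) := by
    have e : Adep a c k - ⟪a k - c k, a k - a i⟫ =
        ∑ j, (if j = i then 0 else ⟪a k - c k, a k - a j⟫) := by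
      have : ∑ j, (if j = i then 0 else ⟪a k - c k, a k - a j⟫) +
          ∑ j, (if j = i then ⟪a k - c k, a k - a j⟫ else 0) = Adep a c k := by
        rw [← Finset.sum_add_distrib]
        unfold Adep
        refine Finset.sum_congr rfl fun j _ => ?_
        split_ifs <;> simp
      rw [Finset.sum_ite_eq' Finset.univ i] at this
      simp at this
      linarith
    rw [e, Finset.mul_sum]
    refine Finset.sum_le_sum fun j _ => ?_
    by_cases hj : j = i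
    · subst hj; simp
    · rw [if_neg hj]
      refine mul_le_mul_of_nonneg_right ?_ (N.nonneg k j)
      exact Finset.single_le_sum (f := fun j => ⟪a i - c i, a i - a j⟫)
        (fun j _ => N.nonneg i j) (Finset.mem_univ j)
  have e2 : ‖(a i - c i) - (a k - c k)‖ ^ 2 =
      ‖a i - c i‖ ^ 2 + ‖a k - c k‖ ^ 2 - 2 * ⟪a i - c i, a k - c k⟫ := by
    rw [norm_sub_sq_real]; ring
  rw [e2, h2] at h1
  have e3 : (∑ j, ⟪a i - c i, a i - a j⟫) = Adep a c i := rfl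
  have e4 : (∑ j, ⟪a k - c k, a k - a j⟫) = Adep a c k := rfl
  rw [e3, e4] at h1
  have h5 : 0 ≤ (2 - 4 * Adep a c i) * (Adep a c k - ⟪a k - c k, a k - a i⟫) :=
    mul_nonneg (by linarith) (by linarith)
  nlinarith

theorem Near.A_sum_sorted (hE : Eps c ≤ 0.1774) (h1 : Adep a c 1 ≤ Adep a c 0)
    (h2 : Adep a c 2 ≤ Adep a c 0) (h3 : Adep a c 3 ≤ Adep a c 0)
    (g2 : ⟪a 0 - c 0, a 0 - a 2⟫ ≤ ⟪a 0 - c 0, a 0 - a 1⟫)
    (g3 : ⟪a 0 - c 0, a 0 - a 3⟫ ≤ ⟪a 0 - c 0, a 0 - a 1⟫) : ∑ i, Adep a c i ≤ 0.1115 := by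
  have hn : ∀ i j, 0 ≤ ⟪a i - c i, a i - a j⟫ := N.nonneg
  have hA0 : Adep a c 0 = ⟪a 0 - c 0, a 0 - a 1⟫ + (⟪a 0 - c 0, a 0 - a 2⟫ +
      ⟪a 0 - c 0, a 0 - a 3⟫) := by
    unfold Adep
    rw [Fin.sum_univ_four]
    simp only [sub_self, inner_zero_right]
    ring
  have hd : ‖a 0 - c 0‖ ^ 2 = 2 * (⟪a 0 - c 0, a 0 - a 1⟫ ^ 2 + ⟪a 0 - c 0, a 0 - a 2⟫ ^ 2 +
      ⟪a 0 - c 0, a 0 - a 3⟫ ^ 2) - (⟪a 0 - c 0, a 0 - a 1⟫ + ⟪a 0 - c 0, a 0 - a 2⟫ +
      ⟪a 0 - c 0, a 0 - a 3⟫) ^ 2 / 2 := by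
    rw [norm_sq_depth N.placed.gram 0 (c 0), Fin.sum_univ_four, Fin.sum_univ_four]
    simp only [sub_self, inner_zero_right]
    ring
  obtain ⟨d1, d2⟩ := depth_arith (hn 0 2) (hn 0 3) g2 g3 hd
  have p2 := N.pair_ge hK hw (i := 0) (k := 2) (by decide)
  have p3 := N.pair_ge hK hw (i := 0) (k := 3) (by decide)
  have b3 := N.budget3
  have e1 := N.delta_le 1
  have e2 := N.delta_le 2
  have e3 := N.delta_le 3
  have n0 := N.A_nonneg 0
  have n1 := N.A_nonneg 1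
  have n2 := N.A_nonneg 2
  have n3 := N.A_nonneg 3
  have hS := N.A_sum
  have z2 := sq_nonneg ‖a 2 - c 2‖
  have z3 := sq_nonneg ‖a 3 - c 3‖
  simp only [Fin.sum_univ_four] at b3 hS ⊢
  refine sum_arith (a := ⟪a 0 - c 0, a 0 - a 1⟫)
    (b := ⟪a 0 - c 0, a 0 - a 2⟫ + ⟪a 0 - c 0, a 0 - a 3⟫)
    (R := Adep a c 1 + Adep a c 2 + Adep a c 3) (d := ‖a 0 - c 0‖ ^ 2) (E := Eps c)
    (q := Adep a c 1 ^ 2 + Adep a c 2 ^ 2 + Adep a c 3 ^ 2)
    (hn 0 1) (add_nonneg (hn 0 2) (hn 0 3)) (by linarith) (by rw [← hA0]; ring) hS ?_ d1 d2 ?_ ?_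
    hE ?_
  · nlinarith [mul_nonneg n0 n2, mul_nonneg n0 n3]
  · rw [← hA0]
    nlinarith [mul_nonneg n1 (sub_nonneg.2 h1), mul_nonneg n2 (sub_nonneg.2 h2),
      mul_nonneg n3 (sub_nonneg.2 h3)]
  · nlinarith [mul_nonneg n1 n2, mul_nonneg n1 n3, mul_nonneg n2 n3]
  · rw [← hA0]
    linarith

omit hK hw N in
theorem Adep_perm (σ : Equiv.Perm (Fin 4)) (i : Fin 4) :
    Adep (fun i => a (σ i)) (fun i => c (σ i)) i = Adep a c (σ i) := by
  unfold Adep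
  exact Equiv.sum_comp σ (fun j => ⟪a (σ i) - c (σ i), a (σ i) - a j⟫)

omit hK hw N in
theorem Eps_perm (σ : Equiv.Perm (Fin 4)) : Eps (fun i => c (σ i)) = Eps c := by
  unfold Eps
  congr 1
  have h1 : ∀ i : Fin 4, ∑ j, (if i = j then 0 else 1 - ‖c (σ i) - c (σ j)‖ ^ 2) =
      ∑ j, (if σ i = j then 0 else 1 - ‖c (σ i) - c j‖ ^ 2) := by
    intro i
    rw [← Equiv.sum_comp σ (fun j => if σ i = j then (0 : ℝ) else 1 - ‖c (σ i) - c j‖ ^ 2)]
    refine Finset.sum_congr rfl fun j _ => ?_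
    by_cases h : i = j
    · subst h; simp
    · rw [if_neg h, if_neg (fun e => h (σ.injective e))]
  simp only [h1]
  exact Equiv.sum_comp σ (fun i => ∑ j, (if i = j then 0 else 1 - ‖c i - c j‖ ^ 2))

/-- **(E1)** the sum of the depths is at most `0.1115` for `Eps c ≤ 0.1774` -/
theorem Near.A_sum_1115 (hE : Eps c ≤ 0.1774) : ∑ i, Adep a c i ≤ 0.1115 := by
  obtain ⟨i, -, hi⟩ := Finset.exists_max_image Finset.univ (Adep a c) ⟨0, Finset.mem_univ _⟩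
  obtain ⟨j, hj, hj2⟩ := Finset.exists_max_image (Finset.univ.erase i)
    (fun j => ⟪a i - c i, a i - a j⟫) (by
      fin_cases i
      · exact ⟨1, by simp⟩
      · exact ⟨0, by simp⟩
      · exact ⟨0, by simp⟩
      · exact ⟨0, by simp⟩)
  have hij : j ≠ i := (Finset.mem_erase.1 hj).1
  have hdec : ∀ i j : Fin 4, j ≠ i → ∃ σ : Equiv.Perm (Fin 4), σ 0 = i ∧ σ 1 = j := by decide
  obtain ⟨σ, s0, s1⟩ := hdec i j hij
  have hne : ∀ k : Fin 4, k ≠ 0 → σ k ≠ i := by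
    intro k hk e
    rw [← s0] at e
    exact hk (σ.injective e)
  have h := (N.perm σ).A_sum_sorted hK hw (by rw [Eps_perm]; exact hE)
    (by rw [Adep_perm, Adep_perm, s0]; exact hi _ (Finset.mem_univ _))
    (by rw [Adep_perm, Adep_perm, s0]; exact hi _ (Finset.mem_univ _))
    (by rw [Adep_perm, Adep_perm, s0]; exact hi _ (Finset.mem_univ _))
    (by rw [s0, s1]; exact hj2 _ (Finset.mem_erase.2 ⟨hne 2 (by decide), Finset.mem_univ _⟩))
    (by rw [s0, s1]; exact hj2 _ (Finset.mem_erase.2 ⟨hne 3 (by decide), Finset.mem_univ _⟩))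
  simp only [Adep_perm] at h
  rwa [Equiv.sum_comp σ (Adep a c)] at h

end near

end Helper13.PLM
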