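import Pool.Agent.Helper13.PLM.Placement2

/-!
# The smallest ball around a body and its four contact points (project MEI)
-/

set_option autoImplicit false

namespace Helper13.PLM

open Set Metric Finset MeasureTheory Helper80.CW Helper82.CW Helper14.CW
open scoped RealInnerProductSpace

/-- moment of inertia about a point -/
theorem inertia (p : Fin 4 → E3) (l : Fin 4 → ℝ) (hl : ∑ i, l i = 1) (x : E3) :
    ∑ i, l i * ‖p i - x‖ ^ 2 = (∑ i, ∑ j, l i * l j * ‖p i - p j‖ ^ 2) / 2 +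
      ‖∑ i, l i • p i - x‖ ^ 2 := by
  have h1 : ∑ i, l i • p i - x = ∑ i, l i • (p i - x) := by
    simp only [smul_sub, Finset.sum_sub_distrib, ← Finset.sum_smul, hl, one_smul]
  have h2 : ‖∑ i, l i • (p i - x)‖ ^ 2 = ∑ i, ∑ j, l i * l j * ⟪p i - x, p j - x⟫ := by
    rw [← real_inner_self_eq_norm_sq, sum_inner]
    refine Finset.sum_congr rfl fun i _ => ?_
    rw [inner_sum]
    refine Finset.sum_congr rfl fun j _ => ?_
    rw [real_inner_smul_left, real_inner_smul_right]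
    ring
  have h3 : ∀ i j, ‖p i - p j‖ ^ 2 = ‖p i - x‖ ^ 2 + ‖p j - x‖ ^ 2 -
      2 * ⟪p i - x, p j - x⟫ := by
    intro i j
    have e : p i - p j = (p i - x) - (p j - x) := by abel
    rw [e, norm_sub_sq_real]
    ring
  rw [h1, h2]
  simp only [h3]
  have h4 : ∀ i, ∑ j, l i * l j * (‖p i - x‖ ^ 2 + ‖p j - x‖ ^ 2 - 2 * ⟪p i - x, p j - x⟫) =
      l i * ‖p i - x‖ ^ 2 + l i * ∑ j, l j * ‖p j - x‖ ^ 2 -
        2 * ∑ j, l i * l j * ⟪p i - x, p j - x⟫ := by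
    intro i
    rw [Finset.mul_sum, Finset.mul_sum]
    have e1 : l i * ‖p i - x‖ ^ 2 = ∑ j, l i * l j * ‖p i - x‖ ^ 2 := by
      have : ∑ j, l i * l j * ‖p i - x‖ ^ 2 = l i * ‖p i - x‖ ^ 2 * ∑ j, l j := by
        rw [Finset.mul_sum]
        exact Finset.sum_congr rfl fun j _ => by ring
      rw [this, hl, mul_one]
    rw [e1, ← Finset.sum_add_distrib, ← Finset.sum_sub_distrib]
    exact Finset.sum_congr rfl fun j _ => by ring
  simp only [h4]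
  rw [Finset.sum_sub_distrib, Finset.sum_add_distrib, ← Finset.sum_mul, hl, ← Finset.mul_sum]
  ring

/-- **the smallest ball**, its four contact points and the weights -/
theorem circ_four {K : Set E3} (hK : IsCompact K) (hd : ∀ x ∈ K, ∀ y ∈ K, dist x y ≤ 1) {ρ : ℝ}
    (hρ0 : 0 ≤ ρ) (hρ3 : 1 / 3 ≤ ρ ^ 2) (hno : ¬ ∃ x0, K ⊆ Metric.closedBall x0 ρ) :
    ∃ (c : Fin 4 → E3) (l : Fin 4 → ℝ) (o : E3) (R : ℝ), (∀ i, c i ∈ K) ∧ (∀ i, 0 < l i) ∧
      ∑ i, l i = 1 ∧ ∑ i, l i • c i = o ∧ (∀ x ∈ K, ‖x - o‖ ≤ R) ∧ (∀ i, ‖c i - o‖ = R) ∧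
      ρ < R ∧ R ^ 2 = (∑ i, ∑ j, l i * l j * ‖c i - c j‖ ^ 2) / 2 := by
  classical
  obtain ⟨p0, hp0, l0, hl00, hl01, hF0⟩ := Pool.Agent.Helper73.PL.jung_four K hd hρ0 hρ3 hno
  set F : (Fin 4 → E3) × (Fin 4 → ℝ) → ℝ := fun x =>
    (∑ i, ∑ j, x.2 i * x.2 j * ‖x.1 i - x.1 j‖ ^ 2) / 2 with hF
  have hFc : Continuous F := by
    rw [hF]
    fun_prop
  have hS : IsCompact ((Set.univ.pi fun _ : Fin 4 => K) ×ˢ stdSimplex ℝ (Fin 4)) :=
    (isCompact_univ_pi fun _ => hK).prod (isCompact_stdSimplex (𝕜 := ℝ) (Fin 4))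
  have hm0 : (p0, l0) ∈ (Set.univ.pi fun _ : Fin 4 => K) ×ˢ stdSimplex ℝ (Fin 4) :=
    ⟨fun i _ => hp0 i, hl00, hl01⟩
  obtain ⟨⟨c, l⟩, ⟨hc, hl0, hl1⟩, hmax⟩ := hS.exists_isMaxOn ⟨_, hm0⟩ hFc.continuousOn
  replace hl0 : ∀ i, 0 ≤ l i := hl0
  replace hl1 : ∑ i, l i = 1 := hl1
  have hcK : ∀ i, c i ∈ K := fun i => hc i (Set.mem_univ i)
  have hM0 : F (p0, l0) ≤ F (c, l) := hmax hm0
  set M := F (c, l) with hM
  have hMρ : ρ ^ 2 < M := lt_of_lt_of_le hF0 hM0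
  have hMpos : 0 ≤ M := by nlinarith
  have hsq : √M ^ 2 = M := Real.sq_sqrt hMpos
  have hball : ∃ x0, K ⊆ Metric.closedBall x0 (√M) := by
    by_contra hcon
    obtain ⟨p1, hp1, l1, hl10, hl11, hF1⟩ := Pool.Agent.Helper73.PL.jung_four K hd
      (Real.sqrt_nonneg M) (by rw [hsq]; linarith) hcon
    have h1 : F (p1, l1) ≤ M := hmax (show (p1, l1) ∈
      (Set.univ.pi fun _ : Fin 4 => K) ×ˢ stdSimplex ℝ (Fin 4) from
      ⟨fun i _ => hp1 i, hl10, hl11⟩)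
    rw [hsq] at hF1
    exact absurd hF1 (not_lt.2 h1)
  obtain ⟨o, ho⟩ := hball
  have hb : ∀ x ∈ K, ‖x - o‖ ≤ √M := by
    intro x hx
    have := ho hx
    rwa [Metric.mem_closedBall, dist_eq_norm] at this
  have hb2 : ∀ i, ‖c i - o‖ ^ 2 ≤ M := by
    intro i
    have h1 := hb _ (hcK i)
    have h2 := norm_nonneg (c i - o)
    calc ‖c i - o‖ ^ 2 ≤ √M ^ 2 := pow_le_pow_left₀ h2 h1 2
      _ = M := hsq
  have hI := inertia c l hl1 o
  have hI2 : ∑ i, l i * (M - ‖c i - o‖ ^ 2) = - ‖∑ i, l i • c i - o‖ ^ 2 := by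
    have e1 : ∑ i, l i * (M - ‖c i - o‖ ^ 2) = M - ∑ i, l i * ‖c i - o‖ ^ 2 := by
      simp only [mul_sub, Finset.sum_sub_distrib, ← Finset.sum_mul, hl1, one_mul]
    rw [e1, hI]
    have : (∑ i, ∑ j, l i * l j * ‖c i - c j‖ ^ 2) / 2 = M := rfl
    linarith
  have hnn : ∀ i ∈ (Finset.univ : Finset (Fin 4)), 0 ≤ l i * (M - ‖c i - o‖ ^ 2) := fun i _ =>
    mul_nonneg (hl0 i) (sub_nonneg.2 (hb2 i))
  have hz : ‖∑ i, l i • c i - o‖ ^ 2 = 0 := by
    have h1 := Finset.sum_nonneg hnn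
    have h2 := sq_nonneg ‖∑ i, l i • c i - o‖
    linarith
  have hoc : ∑ i, l i • c i = o := by
    rw [pow_eq_zero_iff (two_ne_zero), norm_eq_zero, sub_eq_zero] at hz
    exact hz
  have hz2 : ∀ i, l i * (M - ‖c i - o‖ ^ 2) = 0 := by
    rw [hz, neg_zero, Finset.sum_eq_zero_iff_of_nonneg hnn] at hI2
    exact fun i => hI2 i (Finset.mem_univ i)
  have hdd : ∀ i j, ‖c i - c j‖ ^ 2 ≤ 1 := by
    intro i j
    have h1 := hd _ (hcK i) _ (hcK j)
    rw [dist_eq_norm] at h1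
    have h2 := norm_nonneg (c i - c j)
    nlinarith
  have hFle : M ≤ (1 - ∑ i, l i ^ 2) / 2 := by
    have g1 : ∑ i, ∑ j, l i * l j * ‖c i - c j‖ ^ 2 ≤ 1 - ∑ i, l i ^ 2 := by
      have g2 : ∑ i, ∑ j, l i * l j = 1 := by
        simp only [← Finset.mul_sum, hl1, mul_one]
      have g3 : ∑ i, l i ^ 2 = ∑ i, ∑ j, if i = j then l i * l j else 0 := by
        refine Finset.sum_congr rfl (fun i _ => ?_)
        rw [Finset.sum_ite_eq]
        simp [pow_two]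
      rw [← g2, g3, ← Finset.sum_sub_distrib]
      refine Finset.sum_le_sum (fun i _ => ?_)
      rw [← Finset.sum_sub_distrib]
      refine Finset.sum_le_sum (fun j _ => ?_)
      have hll : 0 ≤ l i * l j := mul_nonneg (hl0 i) (hl0 j)
      by_cases hij : i = j
      · rw [if_pos hij, hij, sub_self, norm_zero]; simp
      · rw [if_neg hij, sub_zero]
        have g4 := mul_le_mul_of_nonneg_left (hdd i j) hll
        linarith
    have : M = (∑ i, ∑ j, l i * l j * ‖c i - c j‖ ^ 2) / 2 := rfl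
    linarith
  have hpos : ∀ i, 0 < l i := by
    intro k
    rcases (hl0 k).lt_or_eq with h | h
    · exact h
    exfalso
    have g6 := sq_sum_le_card_mul_sum_sq (s := (Finset.univ : Finset (Fin 4)).erase k) (f := l)
    have g7 : ∑ i ∈ (Finset.univ : Finset (Fin 4)).erase k, l i = 1 := by
      have := Finset.add_sum_erase Finset.univ l (Finset.mem_univ k)
      rw [← h] at this
      linarith
    have g8 : ∑ i ∈ (Finset.univ : Finset (Fin 4)).erase k, l i ^ 2 ≤ ∑ i, l i ^ 2 :=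
      Finset.sum_le_sum_of_subset_of_nonneg (Finset.erase_subset _ _)
        fun i _ _ => sq_nonneg (l i)
    have g9 : ((Finset.univ : Finset (Fin 4)).erase k).card = 3 := by
      rw [Finset.card_erase_of_mem (Finset.mem_univ k)]
      rfl
    rw [g7, g9] at g6
    push_cast at g6
    have : (1 : ℝ) ≤ 3 * ∑ i, l i ^ 2 := by linarith
    linarith
  have hsph : ∀ i, ‖c i - o‖ = √M := by
    intro i
    have h1 : M - ‖c i - o‖ ^ 2 = 0 := by
      rcases mul_eq_zero.1 (hz2 i) with h | h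
      · exact absurd h (hpos i).ne'
      · exact h
    have h2 : ‖c i - o‖ ^ 2 = M := by linarith
    rw [← h2, Real.sqrt_sq (norm_nonneg _)]
  refine ⟨c, l, o, √M, hcK, hpos, hl1, hoc, hb, hsph, ?_, ?_⟩
  · exact Real.lt_sqrt_of_sq_lt hMρ
  · rw [hsq]

/-- placement from four given points -/
theorem place_of {K : Set E3} (hK : IsCompact K) (hw : Width1 K) {c : Fin 4 → E3}
    (hcK : ∀ i, c i ∈ K) (hsum : ∑ i, ∑ j, (if i = j then 0 else 1 - ‖c i - c j‖ ^ 2) ≤ 0.42) :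
    ∃ b : Fin 4 → E3, (∀ i j, i ≠ j → dist (b i) (b j) = 1) ∧
      (∀ i j, i ≠ j → supp K (b i - b j) = ⟪b i, b i - b j⟫) ∧
      (∀ x ∈ K, ∀ i j, i ≠ j → ⟪x, b i - b j⟫ ≤ ⟪b i, b i - b j⟫) ∧
      (∀ i j, 0 ≤ ⟪b i - c i, b i - b j⟫) ∧
      ∑ i, ∑ j, ⟪b i - c i, b i - b j⟫ ≤ 0.1503 := by
  obtain ⟨a, u, s, ho, hd, hc, hs, hs3⟩ := Helper33.MEI.frame c (fun i j => by
    rw [← dist_eq_norm]
    exact diam_le hK hw _ (hcK i) _ (hcK j)) hsum
  have hG := gram_of_inner ho hd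
  have hs2 : ∀ k, s k ≤ 1.0513 := fun k => (hs k).2
  rw [Fin.sum_univ_three] at hs3
  obtain ⟨b, h1, h2, h3⟩ := place_core2 hK hw hG hcK (frame_H1 hG hc) (by
    intro w
    have hpar : ⟪w, u 0⟫ ^ 2 + ⟪w, u 1⟫ ^ 2 + ⟪w, u 2⟫ ^ 2 = (⟪w, w⟫ : ℝ) := by
      have h1 := u.sum_sq_norm_inner_right w
      rw [Fin.sum_univ_three, real_inner_self_eq_norm_sq] at *
      simp only [Real.norm_eq_abs, sq_abs] at h1
      rw [← h1, real_inner_comm w (u 0), real_inner_comm w (u 1), real_inner_comm w (u 2)]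
    rw [frame_Q hG u hc, Fin.sum_univ_three]
    have q0 := sq_nonneg (⟪w, u 0⟫ : ℝ)
    have q1 := sq_nonneg (⟪w, u 1⟫ : ℝ)
    have q2 := sq_nonneg (⟪w, u 2⟫ : ℝ)
    rw [← hpar]
    nlinarith [mul_nonneg q0 (by linarith [hs2 0] : (0 : ℝ) ≤ s 0 + s 1 + s 2 - s 0 - 1.8857),
      mul_nonneg q1 (by linarith [hs2 1] : (0 : ℝ) ≤ s 0 + s 1 + s 2 - s 1 - 1.8857),
      mul_nonneg q2 (by linarith [hs2 2] : (0 : ℝ) ≤ s 0 + s 1 + s 2 - s 2 - 1.8857)]) (by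
    rw [frame_G hG (fun k => u.norm_eq_one k) hc, Fin.sum_univ_three]
    linarith)
  have h4 : ∀ x ∈ K, ∀ i j, i ≠ j → ⟪x, b i - b j⟫ ≤ ⟪b i, b i - b j⟫ := by
    intro x hx i j hij
    have := supp_ge hK hw.nonempty (b i - b j) hx
    rwa [h2 i j hij] at this
  refine ⟨b, h1, h2, h4, ?_, h3⟩
  intro i j
  by_cases hij : i = j
  · subst hij; simp
  · rw [inner_sub_left]
    have := h4 _ (hcK i) i j hij
    linarith

/-- total defect of the four contact points -/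
theorem eps_of_weights {c : Fin 4 → E3} {l : Fin 4 → ℝ} (hdd : ∀ i j, dist (c i) (c j) ≤ 1)
    (hl0 : ∀ i, 0 ≤ l i) (hl1 : ∑ i, l i = 1) {ρ X : ℝ} (hX0 : 0 ≤ X) (hX1 : X ≤ 1)
    (hρX : 1 / 4 + 1 / (4 * (2 + X)) ≤ ρ ^ 2)
    (hl : ρ ^ 2 < (∑ i, ∑ j, l i * l j * ‖c i - c j‖ ^ 2) / 2) :
    ∑ i, ∑ j, (if i = j then 0 else 1 - ‖c i - c j‖ ^ 2) ≤ 2 * X := by
  by_contra hcon
  push Not at hcon
  have h1 := Pool.Agent.Helper73.PL.simplex_total l hl0 hl1 (fun i j => 1 - ‖c i - c j‖ ^ 2)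
    (fun i j _ => by
    have h1 := hdd i j
    rw [dist_eq_norm] at h1
    have h2 := norm_nonneg (c i - c j)
    show (0 : ℝ) ≤ 1 - ‖c i - c j‖ ^ 2
    nlinarith) (X := X) hX0 hX1 hcon.le
  have h2 : ∑ i, ∑ j, l i * l j * (if i = j then 0 else 1 - (1 - ‖c i - c j‖ ^ 2)) =
      ∑ i, ∑ j, l i * l j * ‖c i - c j‖ ^ 2 := by
    refine Finset.sum_congr rfl (fun i _ => Finset.sum_congr rfl (fun j _ => ?_))
    by_cases h : i = j
    · simp [h]
    · rw [if_neg h]; ring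
  rw [h2] at h1
  linarith

end Helper13.PLM
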