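import Pool.Agent.Helper13.PLM.Ap4
import Pool.Agent.Helper13.PLM.Circ
import Pool.Agent.Helper52.MEI.LoadW

/-!
# The center of the smallest ball as a node (project MEI)
-/

set_option autoImplicit false

namespace Helper13.PLM

open Set Metric Finset MeasureTheory Helper80.CW Helper82.CW Helper14.CW Helper93.MEI Helper66.MEI
open Pool.Agent.Helper52.MEI (Load b3)
open scoped RealInnerProductSpace

/-- the smallest ball `B(o, R)`, its contact points `c i` and the weights `l i` -/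
structure Cen (K : Set E3) (c : Fin 4 → E3) (o : E3) (R : ℝ) (l : Fin 4 → ℝ) : Prop where
  ball : ∀ x ∈ K, ‖x - o‖ ≤ R
  sph : ∀ i, ‖c i - o‖ = R
  pos : ∀ i, 0 < l i
  sum : ∑ i, l i = 1
  bary : ∑ i, l i • c i = o
  lo : 0.6026 < R
  wl : R ^ 2 = (∑ i, ∑ j, l i * l j * ‖c i - c j‖ ^ 2) / 2

/-- **placement with the smallest ball** -/
theorem exists_near_cen {K : Set E3} (hK : IsCompact K) (hw : Width1 K) {ρ X : ℝ}
    (hρ : 0.6026 ≤ ρ) (hX0 : 0 ≤ X) (hX1 : X ≤ 1) (hρX : 1 / 4 + 1 / (4 * (2 + X)) ≤ ρ ^ 2)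
    (hno : ¬ ∃ x0, K ⊆ Metric.closedBall x0 ρ) :
    ∃ (a c : Fin 4 → E3) (o : E3) (R : ℝ) (l : Fin 4 → ℝ), Near K a c ∧ Cen K c o R l ∧
      ρ < R ∧ Eps c ≤ X := by
  have hd := diam_le hK hw
  have h3 : (1 : ℝ) / 3 ≤ ρ ^ 2 := by nlinarith
  obtain ⟨c, l, o, R, hcK, hpos, hl1, hoc, hb, hsph, hρR, hwl⟩ :=
    circ_four hK hd (by linarith) h3 hno
  have hl' : ρ ^ 2 < (∑ i, ∑ j, l i * l j * ‖c i - c j‖ ^ 2) / 2 := by
    rw [← hwl]
    have : 0 ≤ ρ := by linarith
    nlinarith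
  have hdd : ∀ i j, dist (c i) (c j) ≤ 1 := fun i j => hd _ (hcK i) _ (hcK j)
  have e1 := eps_of_weights hdd (fun i => (hpos i).le) hl1 hX0 hX1 hρX hl'
  have e2 := eps_of_weights hdd (fun i => (hpos i).le) hl1 (X := 0.21) (ρ := 0.6026) (by norm_num)
    (by norm_num) (by norm_num) (lt_of_le_of_lt (by
      exact pow_le_pow_left₀ (by norm_num) hρ 2) hl')
  obtain ⟨a, g1, g2, g3, g4, g5⟩ := place_of hK hw hcK (e2.trans (by norm_num))
  refine ⟨a, c, o, R, l, ⟨g1, hcK, g2, g3, g4, g5, e2.trans (by norm_num)⟩,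
    ⟨hb, hsph, hpos, hl1, hoc, by linarith, hwl⟩, hρR, ?_⟩
  unfold Eps
  linarith

/-- `ρ_i = |a_i - o|² - R²` -/
noncomputable def rh (a : Fin 4 → E3) (o : E3) (R : ℝ) (i : Fin 4) : ℝ := ‖a i - o‖ ^ 2 - R ^ 2

/-- mean value of the `ρ_i` -/
noncomputable def rm (a : Fin 4 → E3) (o : E3) (R : ℝ) : ℝ := (∑ i, rh a o R i) / 4

section gram
variable {a : Fin 4 → E3} (h : Gram4 (al a))
include h

/-- barycentric coordinates through the distances to the vertices -/
theorem bar_dist (i : Fin 4) (x : E3) :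
    bar a i x = 1 / 4 + (∑ j, ‖a j - x‖ ^ 2) / 4 - ‖a i - x‖ ^ 2 := by
  have hs := bar_sum h x
  have e : ∀ j, ‖a j - x‖ ^ 2 = 1 / 2 * ((bar a 0 (a j) - bar a 0 x) ^ 2 +
      (bar a 1 (a j) - bar a 1 x) ^ 2 + (bar a 2 (a j) - bar a 2 x) ^ 2 +
      (bar a 3 (a j) - bar a 3 x) ^ 2) := fun j => norm_sub_sq_bar h _ _
  rw [Fin.sum_univ_four, e, e, e, e, e]
  rw [bar_vertex_self h, bar_vertex_self h, bar_vertex_self h, bar_vertex_self h,
    bar_vertex_ne h (by decide : (0 : Fin 4) ≠ 1), bar_vertex_ne h (by decide : (0 : Fin 4) ≠ 2),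
    bar_vertex_ne h (by decide : (0 : Fin 4) ≠ 3), bar_vertex_ne h (by decide : (1 : Fin 4) ≠ 0),
    bar_vertex_ne h (by decide : (1 : Fin 4) ≠ 2), bar_vertex_ne h (by decide : (1 : Fin 4) ≠ 3),
    bar_vertex_ne h (by decide : (2 : Fin 4) ≠ 0), bar_vertex_ne h (by decide : (2 : Fin 4) ≠ 1),
    bar_vertex_ne h (by decide : (2 : Fin 4) ≠ 3), bar_vertex_ne h (by decide : (3 : Fin 4) ≠ 0),
    bar_vertex_ne h (by decide : (3 : Fin 4) ≠ 1), bar_vertex_ne h (by decide : (3 : Fin 4) ≠ 2)]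
  have hs' : bar a 3 x = 1 - bar a 0 x - bar a 1 x - bar a 2 x := by linarith
  fin_cases i <;> simp only [Fin.zero_eta, Fin.mk_one, Fin.reduceFinMk] <;>
    rw [bar_vertex h, bar_vertex h, bar_vertex h, bar_vertex h] <;>
    simp <;> rw [hs'] <;> ring

/-- **coordinates of the center**: `b_i(o) = 1/4 + ρ - ρ_i` -/
theorem bar_center (i : Fin 4) (o : E3) (R : ℝ) : bar a i o = 1 / 4 + rm a o R - rh a o R i := by
  have h1 := bar_dist h i o
  unfold rm rh
  rw [Finset.sum_sub_distrib, Finset.sum_const, Finset.card_univ, Fintype.card_fin, h1]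
  simp
  ring

/-- **the center node as a load** -/
theorem O_load {q o : E3} {R : ℝ} (hq : ‖q - o‖ ≤ R) : Load a q (rh a o R 0) 1 (b3 a o) := by
  have e := face_id h o q
  have e2 : Qv a 0 o = ‖a 0 - o‖ ^ 2 - 1 := by unfold Qv; rw [norm_sub_rev]
  have hR : ‖o - q‖ ^ 2 ≤ R ^ 2 := by
    rw [norm_sub_rev]
    exact pow_le_pow_left₀ (norm_nonneg _) hq 2
  rw [e2] at e
  show (‖a 0 - o‖ ^ 2 - R ^ 2) + 1 * ‖a 0 - q‖ ^ 2 ≤
    2 * (bar a 1 o * yv a 0 1 q + bar a 2 o * yv a 0 2 q + bar a 3 o * yv a 0 3 q)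
  linarith

end gram

/-- the center node with any value `≤ ρ_0` and any columns `≥ b(o)` -/
theorem O_load_le {a : Fin 4 → E3} (h : Gram4 (al a)) {q o : E3} {R L : ℝ} (hq : ‖q - o‖ ≤ R)
    (hp : Pl a q) (hL : L ≤ rh a o R 0) {M : Fin 3 → ℝ} (hM : ∀ k, b3 a o k ≤ M k) :
    Load a q L 1 M := by
  have e := O_load h hq
  have y1 := yv_nonneg hp (i := 0) (j := 1) (by decide)
  have y2 := yv_nonneg hp (i := 0) (j := 2) (by decide)
  have y3 := yv_nonneg hp (i := 0) (j := 3) (by decide)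
  have k1 := mul_le_mul_of_nonneg_right (hM 0) y1
  have k2 := mul_le_mul_of_nonneg_right (hM 1) y2
  have k3 := mul_le_mul_of_nonneg_right (hM 2) y3
  unfold Load at e ⊢
  linarith

/-- barycentric coordinates of a mean -/
theorem bar_mean {a : Fin 4 → E3} (k : Fin 4) (c : Fin 4 → E3) (l : Fin 4 → ℝ)
    (hl : ∑ i, l i = 1) : bar a k (∑ i, l i • c i) = ∑ i, l i * bar a k (c i) := by
  have h1 : ∑ i, l i • c i - cen a = ∑ i, l i • (c i - cen a) := by
    simp only [smul_sub, Finset.sum_sub_distrib, ← Finset.sum_smul, hl, one_smul]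
  unfold bar
  rw [h1, inner_sum]
  simp only [real_inner_smul_right, mul_add, Finset.sum_add_distrib, ← Finset.sum_mul, hl,
    Finset.mul_sum]
  congr 1
  · ring
  · exact Finset.sum_congr rfl fun i _ => by ring

/-- exact value of `ρ_i` -/
theorem rh_eq {a : Fin 4 → E3} (h : Gram4 (al a)) {i : Fin 4} {x o : E3} {R : ℝ}
    (hx : ‖x - o‖ = R) : rh a o R i =
    2 * ∑ k, bar a k o * ⟪a i - x, a i - a k⟫ - ‖a i - x‖ ^ 2 := by
  have h1 : ⟪a i - x, a i - o⟫ = ∑ k, bar a k o * ⟪a i - x, a i - a k⟫ := by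
    rw [inner_bar h, bar_depth h i 0 x, bar_depth h i 1 x, bar_depth h i 2 x, bar_depth h i 3 x]
    have s1 := bar_sum h o
    have s2 := bar_sum h (a i)
    have hz : ⟪a i - x, a i - a i⟫ = (0 : ℝ) := by rw [sub_self, inner_zero_right]
    rw [Fin.sum_univ_four, Fin.sum_univ_four]
    have e : bar a 0 (a i) * ⟪a i - x, a i - a 0⟫ + bar a 1 (a i) * ⟪a i - x, a i - a 1⟫ +
        bar a 2 (a i) * ⟪a i - x, a i - a 2⟫ + bar a 3 (a i) * ⟪a i - x, a i - a 3⟫ =
        (0 : ℝ) := by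
      rw [bar_vertex h, bar_vertex h, bar_vertex h, bar_vertex h]
      fin_cases i <;> simp
    linear_combination (⟪a i - x, a i - a 0⟫ + ⟪a i - x, a i - a 1⟫ + ⟪a i - x, a i - a 2⟫ +
      ⟪a i - x, a i - a 3⟫) / 4 * (s2 - s1) - e
  have h2 : x - o = (a i - o) - (a i - x) := by abel
  have h3 : R ^ 2 = ‖a i - o‖ ^ 2 - 2 * ⟪a i - o, a i - x⟫ + ‖a i - x‖ ^ 2 := by
    rw [← hx, h2, norm_sub_sq_real]
  unfold rh
  rw [real_inner_comm, h1] at h3
  linarith

section cen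
variable {K : Set E3} {a c : Fin 4 → E3} {o : E3} {R : ℝ} {l : Fin 4 → ℝ}
  (N : Near K a c) (C : Cen K c o R l) (hK : IsCompact K) (hw : Width1 K)
include N C hK hw

theorem Cen.l_sq : ∑ i, l i ^ 2 ≤ 0.27375 := by
  have hd := diam_le hK hw
  have hdd : ∀ i j, ‖c i - c j‖ ^ 2 ≤ 1 := by
    intro i j
    have h1 := hd _ (N.mem i) _ (N.mem j)
    rw [dist_eq_norm] at h1
    have h2 := norm_nonneg (c i - c j)
    nlinarith
  have g1 : ∑ i, ∑ j, l i * l j * ‖c i - c j‖ ^ 2 ≤ 1 - ∑ i, l i ^ 2 := by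
    have g2 : ∑ i, ∑ j, l i * l j = 1 := by
      simp only [← Finset.mul_sum, C.sum, mul_one]
    have g3 : ∑ i, l i ^ 2 = ∑ i, ∑ j, if i = j then l i * l j else 0 := by
      refine Finset.sum_congr rfl (fun i _ => ?_)
      rw [Finset.sum_ite_eq]
      simp [pow_two]
    rw [← g2, g3, ← Finset.sum_sub_distrib]
    refine Finset.sum_le_sum (fun i _ => ?_)
    rw [← Finset.sum_sub_distrib]
    refine Finset.sum_le_sum (fun j _ => ?_)
    have hll : 0 ≤ l i * l j := mul_nonneg (C.pos i).le (C.pos j).le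
    by_cases hij : i = j
    · rw [if_pos hij, hij, sub_self, norm_zero]; simp
    · rw [if_neg hij, sub_zero]
      have g4 := mul_le_mul_of_nonneg_left (hdd i j) hll
      linarith
  have h1 := C.wl
  have h2 := C.lo
  nlinarith

theorem Cen.l_bd (k : Fin 4) : 0.116 ≤ l k ∧ l k ≤ 0.384 := by
  have h1 := C.l_sq N hK hw
  have h2 := C.sum
  rw [Fin.sum_univ_four] at h1 h2
  fin_cases k
  · show 0.116 ≤ l 0 ∧ l 0 ≤ 0.384
    constructor
    · nlinarith [sq_nonneg (l 1 - l 2), sq_nonneg (l 1 - l 3), sq_nonneg (l 2 - l 3)]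
    · nlinarith [sq_nonneg (l 1 - l 2), sq_nonneg (l 1 - l 3), sq_nonneg (l 2 - l 3)]
  · show 0.116 ≤ l 1 ∧ l 1 ≤ 0.384
    constructor
    · nlinarith [sq_nonneg (l 0 - l 2), sq_nonneg (l 0 - l 3), sq_nonneg (l 2 - l 3)]
    · nlinarith [sq_nonneg (l 0 - l 2), sq_nonneg (l 0 - l 3), sq_nonneg (l 2 - l 3)]
  · show 0.116 ≤ l 2 ∧ l 2 ≤ 0.384
    constructor
    · nlinarith [sq_nonneg (l 1 - l 0), sq_nonneg (l 1 - l 3), sq_nonneg (l 0 - l 3)]
    · nlinarith [sq_nonneg (l 1 - l 0), sq_nonneg (l 1 - l 3), sq_nonneg (l 0 - l 3)]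
  · show 0.116 ≤ l 3 ∧ l 3 ≤ 0.384
    constructor
    · nlinarith [sq_nonneg (l 1 - l 2), sq_nonneg (l 1 - l 0), sq_nonneg (l 2 - l 0)]
    · nlinarith [sq_nonneg (l 1 - l 2), sq_nonneg (l 1 - l 0), sq_nonneg (l 2 - l 0)]

/-- crude lower bound of the coordinates of the center -/
theorem Cen.bar_ge0 (k : Fin 4) : 0.087 ≤ bar a k o := by
  have h := N.placed.gram
  have h1 : bar a k o = ∑ j, l j * bar a k (c j) := by rw [← C.bary, bar_mean k c l C.sum]
  have h2 : ∀ j, (if k = j then (1 : ℝ) else 0) - Adep a c j / 2 ≤ bar a k (c j) := by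
    intro j
    have e1 := bar_depth h j k (c j)
    rw [bar_vertex h] at e1
    have e2 := N.nonneg j k
    unfold Adep
    linarith
  have h3 : ∑ j, l j * ((if k = j then (1 : ℝ) else 0) - Adep a c j / 2) ≤ bar a k o := by
    rw [h1]
    exact Finset.sum_le_sum fun j _ => mul_le_mul_of_nonneg_left (h2 j) (C.pos j).le
  have h4 : ∑ j, l j * ((if k = j then (1 : ℝ) else 0) - Adep a c j / 2) =
      l k - ∑ j, l j * (Adep a c j / 2) := by
    simp only [mul_sub, Finset.sum_sub_distrib]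
    congr 1
    simp
  have h5 : ∑ j, l j * (Adep a c j / 2) ≤ ∑ j, 0.384 * (Adep a c j / 2) :=
    Finset.sum_le_sum fun j _ => mul_le_mul_of_nonneg_right (C.l_bd N hK hw j).2
      (by have := N.A_nonneg j; linarith)
  have h6 : ∑ j, 0.384 * (Adep a c j / 2) = 0.192 * ∑ j, Adep a c j := by
    rw [Finset.mul_sum]
    exact Finset.sum_congr rfl fun j _ => by ring
  have h7 := N.A_sum
  have h8 := (C.l_bd N hK hw k).1
  linarith

omit hK hw in
theorem Cen.rh_le {B : ℝ} (hB : ∀ k, bar a k o ≤ B) (i : Fin 4) :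
    rh a o R i ≤ 2 * B * Adep a c i := by
  have h1 := rh_eq N.placed.gram (i := i) (C.sph i)
  have h2 : ∑ k, bar a k o * ⟪a i - c i, a i - a k⟫ ≤ ∑ k, B * ⟪a i - c i, a i - a k⟫ :=
    Finset.sum_le_sum fun k _ => mul_le_mul_of_nonneg_right (hB k) (N.nonneg i k)
  rw [← Finset.mul_sum] at h2
  have h3 := sq_nonneg ‖a i - c i‖
  unfold Adep
  linarith

omit hK hw in
theorem Cen.rh_ge {m : ℝ} (hm : ∀ k, m ≤ bar a k o) (i : Fin 4) :
    2 * m * Adep a c i - ‖a i - c i‖ ^ 2 ≤ rh a o R i := by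
  have h1 := rh_eq N.placed.gram (i := i) (C.sph i)
  have h2 : ∑ k, m * ⟪a i - c i, a i - a k⟫ ≤ ∑ k, bar a k o * ⟪a i - c i, a i - a k⟫ :=
    Finset.sum_le_sum fun k _ => mul_le_mul_of_nonneg_right (hm k) (N.nonneg i k)
  rw [← Finset.mul_sum] at h2
  unfold Adep
  linarith

/-- the coordinates of the center, upper bound -/
theorem Cen.bar_le (k : Fin 4) : bar a k o ≤ 0.2704 := by
  have hlow : ∀ i, - (0.052 * Adep a c i) ≤ rh a o R i := by
    intro i
    have h1 := C.rh_ge N (C.bar_ge0 N hK hw) i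
    have h2 := N.delta_le i
    have h3 := N.A_le i
    have h4 := N.A_nonneg i
    nlinarith
  obtain ⟨m, hm⟩ := Finite.exists_max fun k => bar a k o
  have h1 := bar_center N.placed.gram m o R
  have hA := N.A_sum
  have hb0 := C.bar_ge0 N hK hw m
  have hu : ∀ i, rh a o R i ≤ 2 * bar a m o * Adep a c i := fun i => C.rh_le N hm i
  refine (hm k).trans ?_
  by_contra hcon
  push Not at hcon
  have hs : rm a o R = (∑ i, rh a o R i) / 4 := rfl
  have h5 : ∑ i, rh a o R i ≤ rh a o R m + 2 * bar a m o * (∑ i, Adep a c i - Adep a c m) := by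
    have e1 := Finset.add_sum_erase Finset.univ (rh a o R) (Finset.mem_univ m)
    have e2 := Finset.add_sum_erase Finset.univ (Adep a c) (Finset.mem_univ m)
    rw [← e1, ← e2, add_sub_cancel_left, Finset.mul_sum]
    exact add_le_add_right (Finset.sum_le_sum fun i _ => hu i) _
  have h6 := hlow m
  have h7 := N.A_nonneg m
  have h8 : 2 * bar a m o * (∑ i, Adep a c i - Adep a c m) ≤
      2 * bar a m o * (0.1503 - Adep a c m) :=
    mul_le_mul_of_nonneg_left (by linarith) (by linarith)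
  have h9 : bar a m o ≤ 1 / 4 + 2 * bar a m o * (0.1503 - Adep a c m) / 4 +
      3 / 4 * (0.052 * Adep a c m) := by linarith
  nlinarith

/-- the coordinates of the center, lower bound -/
theorem Cen.bar_ge (k : Fin 4) : 0.187 ≤ bar a k o := by
  have hlow : ∀ i, - (0.052 * Adep a c i) ≤ rh a o R i := by
    intro i
    have h1 := C.rh_ge N (C.bar_ge0 N hK hw) i
    have h2 := N.delta_le i
    have h3 := N.A_le i
    have h4 := N.A_nonneg i
    nlinarith
  have h1 := bar_center N.placed.gram k o R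
  have hA := N.A_sum
  have hu := C.rh_le N (C.bar_le N hK hw) k
  have hs : rm a o R = (∑ i, rh a o R i) / 4 := rfl
  have h5 : rh a o R k - 0.052 * (∑ i, Adep a c i - Adep a c k) ≤ ∑ i, rh a o R i := by
    have e1 := Finset.add_sum_erase Finset.univ (rh a o R) (Finset.mem_univ k)
    have e2 := Finset.add_sum_erase Finset.univ (Adep a c) (Finset.mem_univ k)
    rw [← e1, ← e2, add_sub_cancel_left, Finset.mul_sum, sub_eq_add_neg,
      ← Finset.sum_neg_distrib]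
    exact add_le_add_right (Finset.sum_le_sum fun i _ => hlow i) _
  have h7 := N.A_le k
  have h8 := N.A_nonneg k
  linarith

/-- `ρ_i ≥ 0.374 A_i - |a_i - c_i|²` -/
theorem Cen.rh_ge' (i : Fin 4) : 0.374 * Adep a c i - ‖a i - c i‖ ^ 2 ≤ rh a o R i := by
  have := C.rh_ge N (C.bar_ge N hK hw) i
  linarith

/-- `ρ_i ≥ 0.148 A_i` -/
theorem Cen.rh_ge_A (i : Fin 4) : 0.148 * Adep a c i ≤ rh a o R i := by
  have h1 := C.rh_ge' N hK hw i
  have h2 := N.delta_le i
  have h3 := N.A_le i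
  have h4 := N.A_nonneg i
  nlinarith

theorem Cen.rh_nonneg (i : Fin 4) : 0 ≤ rh a o R i := by
  have h1 := C.rh_ge_A N hK hw i
  have h4 := N.A_nonneg i
  linarith

/-- `b_k(o) ≤ 1/4 + ρ` -/
theorem Cen.bar_le_rm (k : Fin 4) : bar a k o ≤ 1 / 4 + rm a o R := by
  have h1 := bar_center N.placed.gram k o R
  have h2 := C.rh_nonneg N hK hw k
  linarith

omit C hK hw in
/-- exact value of the mean -/
theorem rm_eq : rm a o R = 3 / 8 - R ^ 2 + (∑ i, (rh a o R i - rm a o R) ^ 2) / 2 := by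
  have h := N.placed.gram
  have e : ∀ i, rh a o R i - rm a o R = 1 / 4 - bar a i o := by
    intro i
    rw [bar_center h i o R]
    ring
  have hs := bar_sum h o
  have h1 : ‖a 0 - o‖ ^ 2 = 1 / 2 * ((1 - bar a 0 o) ^ 2 + bar a 1 o ^ 2 + bar a 2 o ^ 2 +
      bar a 3 o ^ 2) := by
    rw [norm_sub_sq_bar h, bar_vertex_self h, bar_vertex_ne h (by decide),
      bar_vertex_ne h (by decide), bar_vertex_ne h (by decide)]
    ring
  have h2 := e 0
  unfold rh at h2
  rw [h1] at h2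
  rw [Fin.sum_univ_four, e, e, e, e]
  nlinarith

omit C hK hw in
/-- `3/8 - R² ≤ ρ` -/
theorem Cen.rm_ge : 3 / 8 - R ^ 2 ≤ rm a o R := by
  have h1 := rm_eq (o := o) (R := R) N
  have h2 : 0 ≤ ∑ i, (rh a o R i - rm a o R) ^ 2 := Finset.sum_nonneg fun i _ => sq_nonneg _
  linarith

/-- `ρ - 6 ρ² ≤ 3/8 - R²` -/
theorem Cen.rm_le : rm a o R - 6 * rm a o R ^ 2 ≤ 3 / 8 - R ^ 2 := by
  have h1 := rm_eq (o := o) (R := R) N
  have h0 := C.rh_nonneg N hK hw
  have hs : ∑ i, rh a o R i = 4 * rm a o R := by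
    unfold rm
    ring
  have h2 : ∑ i, (rh a o R i - rm a o R) ^ 2 ≤ 12 * rm a o R ^ 2 := by
    have e1 : ∑ i, (rh a o R i - rm a o R) ^ 2 = ∑ i, rh a o R i ^ 2 - 4 * rm a o R ^ 2 := by
      have : ∀ i, (rh a o R i - rm a o R) ^ 2 = rh a o R i ^ 2 - 2 * rm a o R * rh a o R i +
          rm a o R ^ 2 := fun i => by ring
      simp only [this, Finset.sum_add_distrib, Finset.sum_sub_distrib, ← Finset.mul_sum, hs]
      simp
      ring
    have e2 : ∑ i, rh a o R i ^ 2 ≤ (∑ i, rh a o R i) ^ 2 :=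
      Finset.sum_sq_le_sq_sum_of_nonneg fun i _ => h0 i
    rw [hs] at e2
    rw [e1]
    nlinarith
  linarith

/-- a small mean for `R ≥ 0.6040` -/
theorem Cen.rm_le604 (hR : 0.6040 ≤ R) : rm a o R ≤ 0.011 := by
  have h1 := C.rm_le N hK hw
  have h2 : rm a o R ≤ 0.0204 := by
    obtain ⟨k, hk⟩ := Finite.exists_min fun k => rh a o R k
    have e1 := bar_center N.placed.gram k o R
    have e2 := C.bar_le N hK hw
    have hs : rm a o R = (∑ i, rh a o R i) / 4 := rfl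
    have h5 : ∑ i, rh a o R i ≤ ∑ i, 2 * 0.2704 * Adep a c i :=
      Finset.sum_le_sum fun i _ => C.rh_le N e2 i
    rw [← Finset.mul_sum] at h5
    have hA := N.A_sum
    linarith
  have h3 : 0.6040 ^ 2 ≤ R ^ 2 := pow_le_pow_left₀ (by norm_num) hR 2
  nlinarith

/-- **trivial form of the center node**: `|a_0 - q|² ≤ 0.522 Σ y_k(q)` -/
theorem Cen.O_triv (hR : 0.6040 ≤ R) {q : E3} (hq : q ∈ K) : Load a q 0 1 (fun _ => 0.261) := by
  refine O_load_le N.placed.gram (C.ball q hq) (N.pl q hq) (C.rh_nonneg N hK hw 0) ?_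
  intro k
  have h1 := C.rm_le604 N hK hw hR
  fin_cases k
  · exact (C.bar_le_rm N hK hw 1).trans (by linarith)
  · exact (C.bar_le_rm N hK hw 2).trans (by linarith)
  · exact (C.bar_le_rm N hK hw 3).trans (by linarith)

end cen

/-- reindexing -/
theorem Cen.perm {K : Set E3} {c : Fin 4 → E3} {o : E3} {R : ℝ} {l : Fin 4 → ℝ}
    (C : Cen K c o R l) (σ : Equiv.Perm (Fin 4)) :
    Cen K (fun i => c (σ i)) o R (fun i => l (σ i)) where
  ball := C.ball
  sph i := C.sph _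
  pos i := C.pos _
  sum := by
    rw [← C.sum]
    exact Equiv.sum_comp σ l
  bary := by
    rw [← C.bary]
    exact Equiv.sum_comp σ fun i => l i • c i
  lo := C.lo
  wl := by
    rw [C.wl]
    congr 1
    rw [← Equiv.sum_comp σ]
    refine Finset.sum_congr rfl fun i _ => ?_
    rw [← Equiv.sum_comp σ]

/-- the mean does not depend on the order -/
theorem rm_perm (a : Fin 4 → E3) (o : E3) (R : ℝ) (σ : Equiv.Perm (Fin 4)) :
    rm (fun i => a (σ i)) o R = rm a o R := by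
  unfold rm
  congr 1
  exact Equiv.sum_comp σ fun i => rh a o R i

end Helper13.PLM
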