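import Pool.Agent.Helper13.PLM.SumX

/-!
# Project MEI (M2): a bound for a single violation

The point `z` of `K` with `Q_i(z) = s` lies near a vertex `a_k`; the contact point `a_i + d ∈ K`,
`d ⊥ a_i - a_k`, forces `⟪a_k - z, a_k - a_i⟫ ≥ (s - |d|²)² / (8 |d|²)`, hence `bar_k z ≤ 1 - β`.
-/

set_option autoImplicit false

namespace Helper13.PLM

open Set Metric Finset MeasureTheory Helper80.CW Helper82.CW Helper14.CW Helper93.MEI Helper66.MEI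
open Helper14.MEI2 Helper82.M2 Helper78.MEI
open scoped RealInnerProductSpace

/-! ### arithmetic -/

theorem ob_beta {s x y b s0 x2 b2 : ℝ} (hs : s0 ≤ s) (hx2 : x2 ≤ x) (hx0 : 0 ≤ x) (hy : 0 ≤ y)
    (hb : 2 * b = x + y) (h4 : s + 2 * x ≤ 1.5 * x ^ 2 + 1.5 * y ^ 2 - x * y)
    (n0 : 0 < s0) (n1 : 4 * x2 ^ 2 - 8 * b2 * x2 + 6 * b2 ^ 2 < s0 + 2 * x2)
    (n3 : x2 ≤ 1 / 2) (n4 : b2 ≤ 1 / 2) : b2 ≤ b := by
  by_contra hc
  push Not at hc
  obtain rfl : y = 2 * b - x := by linarith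
  have hxb : x ≤ 2 * b2 := by linarith
  have hx1 : x ≤ 1 := by linarith
  have e : 1.5 * x ^ 2 + 1.5 * (2 * b - x) ^ 2 - x * (2 * b - x) =
      4 * x ^ 2 - 8 * b * x + 6 * b ^ 2 := by ring
  rw [e] at h4
  have q1 : x ^ 2 ≤ (x2 + 2 * b2) * x - 2 * b2 * x2 := by
    have := mul_nonneg (sub_nonneg.2 hx2) (sub_nonneg.2 hxb)
    nlinarith
  have q2 : 4 * x ^ 2 - 8 * b2 * x + 6 * b2 ^ 2 < s0 + 2 * x := by
    have h5 : (2 - 4 * x2) * x2 ≤ (2 - 4 * x2) * x :=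
      mul_le_mul_of_nonneg_left hx2 (by linarith)
    nlinarith
  have q3 : 1.5 * x ^ 2 < s0 + 2 * x := by nlinarith
  have q4 : b ^ 2 ≤ (x / 2 + b2) * b - x / 2 * b2 := by
    have := mul_nonneg (by linarith : (0 : ℝ) ≤ b - x / 2) (sub_nonneg.2 hc.le)
    nlinarith
  rcases le_total (5 * x) (6 * b2) with h6 | h6
  · have h7 : (6 * b2 - 5 * x) * b ≤ (6 * b2 - 5 * x) * b2 :=
      mul_le_mul_of_nonneg_left hc.le (by linarith)
    nlinarith
  · have h7 : (5 * x - 6 * b2) * (x / 2) ≤ (5 * x - 6 * b2) * b :=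
      mul_le_mul_of_nonneg_left (by linarith) (by linarith)
    nlinarith

theorem ob_core {s u b A s0 u1 b2 A2 Am C e g : ℝ} (hs : s0 ≤ s) (hu1 : u1 ≤ u) (hbb : b2 ≤ b)
    (h1 : s + u ≤ C + (e - 2 * b) * A + g * A ^ 2) (h2 : s ≤ 2 * (1 - b) * A)
    (hA0 : 0 ≤ A) (hA : A ≤ Am) (g0 : 0 ≤ g) (n4 : b2 < 1)
    (n5 : 2 * (1 - b2) * A2 ≤ s0)
    (n6 : C + (e - 2 * b2) * A2 + g * A2 ^ 2 < s0 + u1)
    (n7 : C + (e - 2 * b2) * Am + g * Am ^ 2 < s0 + u1) : False := by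
  have h3 : (1 - b) * A ≤ (1 - b2) * A := mul_le_mul_of_nonneg_right (by linarith) hA0
  have h5 : A2 ≤ A := by
    by_contra hc
    push Not at hc
    have : (1 - b2) * A < (1 - b2) * A2 := mul_lt_mul_of_pos_left hc (by linarith)
    nlinarith
  have h6 : (e - 2 * b) * A ≤ (e - 2 * b2) * A := mul_le_mul_of_nonneg_right (by linarith) hA0
  have h7 : A ^ 2 ≤ (A2 + Am) * A - A2 * Am := by
    have := mul_nonneg (sub_nonneg.2 h5) (sub_nonneg.2 hA)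
    nlinarith
  have h8 : g * A ^ 2 ≤ g * ((A2 + Am) * A - A2 * Am) := mul_le_mul_of_nonneg_left h7 g0
  rcases le_total 0 (e - 2 * b2 + g * (A2 + Am)) with h9 | h9
  · have h10 : (e - 2 * b2 + g * (A2 + Am)) * A ≤ (e - 2 * b2 + g * (A2 + Am)) * Am :=
      mul_le_mul_of_nonneg_left hA h9
    nlinarith
  · have h10 : (e - 2 * b2 + g * (A2 + Am)) * A ≤ (e - 2 * b2 + g * (A2 + Am)) * A2 :=
      mul_le_mul_of_nonpos_left h5 h9
    nlinarith

theorem ob_x {s u x s0 u2 x2 : ℝ} (hs : s0 ≤ s) (hu2 : u ≤ u2) (hx0 : 0 ≤ x)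
    (h3 : (s - u) ^ 2 ≤ 8 * u * x) (n0 : 0 < u2) (n1 : u2 ≤ s0)
    (n2 : 8 * u2 * x2 ≤ (s0 - u2) ^ 2) : x2 ≤ x := by
  by_contra hc
  push Not at hc
  have h4 : (s0 - u2) ^ 2 ≤ (s - u) ^ 2 := pow_le_pow_left₀ (by linarith) (by linarith) 2
  have h5 : 8 * u * x ≤ 8 * u2 * x := mul_le_mul_of_nonneg_right (by linarith) hx0
  have h6 : 8 * u2 * x < 8 * u2 * x2 := mul_lt_mul_of_pos_left hc (by linarith)
  linarith

/-- the data of a violated vertex -/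
structure Ob (C e g Am s u x y b A : ℝ) : Prop where
  x0 : 0 ≤ x
  y0 : 0 ≤ y
  u0 : 0 ≤ u
  hb : 2 * b = x + y
  A0 : 0 ≤ A
  A1 : A ≤ Am
  h1 : s + u ≤ C + (e - 2 * b) * A + g * A ^ 2
  h2 : s ≤ 2 * (1 - b) * A
  h3 : (s - u) ^ 2 ≤ 8 * u * x
  h4 : s + 2 * x ≤ 1.5 * x ^ 2 + 1.5 * y ^ 2 - x * y

theorem Ob.piece {C e g Am s u x y b A : ℝ} (O : Ob C e g Am s u x y b A)
    {s0 u1 u2 x2 b2 A2 : ℝ} (hs : s0 ≤ s) (hu1 : u1 ≤ u) (hu2 : u ≤ u2)
    (m1 : 0 < u2) (m2 : u2 ≤ s0) (m3 : 8 * u2 * x2 ≤ (s0 - u2) ^ 2)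
    (n1 : 4 * x2 ^ 2 - 8 * b2 * x2 + 6 * b2 ^ 2 < s0 + 2 * x2) (n3 : x2 ≤ 1 / 2)
    (n4 : b2 ≤ 1 / 2) (g0 : 0 ≤ g) (n5 : 2 * (1 - b2) * A2 ≤ s0)
    (n6 : C + (e - 2 * b2) * A2 + g * A2 ^ 2 < s0 + u1)
    (n7 : C + (e - 2 * b2) * Am + g * Am ^ 2 < s0 + u1) : False :=
  ob_core hs hu1 (ob_beta hs (ob_x hs hu2 O.x0 O.h3 m1 m2 m3) O.x0 O.y0 O.hb O.h4
    (by linarith) n1 n3 n4) O.h1 O.h2 O.A0 O.A1 g0 (by linarith) n5 n6 n7

theorem Ob.last {C e g Am s u x y b A : ℝ} (O : Ob C e g Am s u x y b A)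
    {s0 u1 b2 A2 : ℝ} (hs : s0 ≤ s) (hu1 : u1 ≤ u) (n0 : 0 < s0)
    (n1 : 6 * b2 ^ 2 < s0) (n4 : b2 ≤ 1 / 2) (g0 : 0 ≤ g) (n5 : 2 * (1 - b2) * A2 ≤ s0)
    (n6 : C + (e - 2 * b2) * A2 + g * A2 ^ 2 < s0 + u1)
    (n7 : C + (e - 2 * b2) * Am + g * Am ^ 2 < s0 + u1) : False :=
  ob_core hs hu1 (ob_beta hs (x2 := 0) O.x0 O.x0 O.y0 O.hb O.h4 n0 (by linarith) (by norm_num)
    n4) O.h1 O.h2 O.A0 O.A1 g0 (by linarith) n5 n6 n7

/-! ### geometry -/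

section gram
variable {a : Fin 4 → E3} (h : Gram4 (al a))
include h

/-- a point whose coordinate `i` is the largest has `Q_i ≤ -1/2` -/
theorem Qv_le_neg {z : E3} (hz : Pl a z) {i : Fin 4} (hm : ∀ j, bar a j z ≤ bar a i z) :
    Qv a i z ≤ -1 / 2 := by
  have h1 := norm_sq_depth h i z
  have h0 : ∀ j, 0 ≤ ⟪a i - z, a i - a j⟫ := by
    intro j
    by_cases hij : i = j
    · subst hij; simp
    · have := hz i j hij
      rw [inner_sub_left]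
      linarith
  have h2 : ∀ j, ⟪a i - z, a i - a j⟫ ≤ 1 / 2 := by
    intro j
    by_cases hij : i = j
    · subst hij; simp
    · rw [depth_bar h hij]
      linarith [hm j]
  have h3 : ∑ j, ⟪a i - z, a i - a j⟫ ^ 2 ≤ ∑ j, 1 / 2 * ⟪a i - z, a i - a j⟫ :=
    Finset.sum_le_sum fun j _ => by nlinarith [h0 j, h2 j]
  rw [← Finset.mul_sum] at h3
  have h4 : Qv a i z = ‖a i - z‖ ^ 2 - 1 := by
    unfold Qv
    rw [norm_sub_rev]
  rw [h4, h1]
  nlinarith [sq_nonneg (∑ j, ⟪a i - z, a i - a j⟫ - 1)]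

theorem Qv_depth {z : E3} {i k : Fin 4} (hik : i ≠ k) :
    Qv a i z = ‖a k - z‖ ^ 2 - 2 * ⟪a k - z, a k - a i⟫ := by
  have e1 : ‖a k - a i‖ ^ 2 = 1 := by
    rw [norm_sub_sq_bar h, bar_depth h k 0 (a i), bar_depth h k 1 (a i), bar_depth h k 2 (a i),
      bar_depth h k 3 (a i)]
    have e2 : ∀ j, ⟪a k - a i, a k - a j⟫ = if k = j then (0 : ℝ) else if i = j then 1 else 1 / 2 := by
      intro j
      by_cases hkj : k = j
      · subst hkj; simp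
      · rw [if_neg hkj, depth_bar h hkj, bar_vertex_ne h (Ne.symm hik), bar_vertex h]
        by_cases hij : i = j
        · subst hij; simp
        · rw [if_neg (Ne.symm hij), if_neg hij]; ring
    simp only [e2]
    revert hik
    fin_cases i <;> fin_cases k <;> simp [Fin.sum_univ_four] <;> norm_num
  have e3 : z - a i = (a k - a i) - (a k - z) := by abel
  unfold Qv
  rw [e3, norm_sub_sq_real, e1, real_inner_comm (a k - z)]
  ring

/-- the distance to `a_k` through one depth and the sum of the others -/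
theorem dist_two {z : E3} (hz : Pl a z) {i k : Fin 4} (hik : i ≠ k) {x y : ℝ}
    (hx : x = ⟪a k - z, a k - a i⟫) (hy : x + y = 2 * (1 - bar a k z)) :
    0 ≤ x ∧ 0 ≤ y ∧ Qv a i z + 2 * x ≤ 1.5 * x ^ 2 + 1.5 * y ^ 2 - x * y := by
  have h0 : ∀ j, 0 ≤ ⟪a k - z, a k - a j⟫ := by
    intro j
    by_cases hkj : k = j
    · subst hkj; simp
    · have := hz k j hkj
      rw [inner_sub_left]
      linarith
  have h1 := norm_sq_depth h k z
  have h3 := depth_sum h k z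
  have e1 : ∑ j, ⟪a k - z, a k - a j⟫ =
      ⟪a k - z, a k - a i⟫ + ∑ j ∈ Finset.univ.erase i, ⟪a k - z, a k - a j⟫ :=
    (Finset.add_sum_erase _ (fun j => ⟪a k - z, a k - a j⟫) (Finset.mem_univ i)).symm
  have e2 : ∑ j, ⟪a k - z, a k - a j⟫ ^ 2 =
      ⟪a k - z, a k - a i⟫ ^ 2 + ∑ j ∈ Finset.univ.erase i, ⟪a k - z, a k - a j⟫ ^ 2 :=
    (Finset.add_sum_erase _ (fun j => ⟪a k - z, a k - a j⟫ ^ 2) (Finset.mem_univ i)).symm
  have e3 : ∑ j ∈ Finset.univ.erase i, ⟪a k - z, a k - a j⟫ ^ 2 ≤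
      (∑ j ∈ Finset.univ.erase i, ⟪a k - z, a k - a j⟫) ^ 2 :=
    Finset.sum_sq_le_sq_sum_of_nonneg fun j _ => h0 j
  have e4 : 0 ≤ ∑ j ∈ Finset.univ.erase i, ⟪a k - z, a k - a j⟫ :=
    Finset.sum_nonneg fun j _ => h0 j
  have e5 : ∑ j ∈ Finset.univ.erase i, ⟪a k - z, a k - a j⟫ = y := by linarith
  rw [← hx] at e2
  rw [e5] at e3 e4
  refine ⟨hx ▸ h0 i, e4, ?_⟩
  rw [Qv_depth h hik, ← hx, h1, h3, ← hy]
  nlinarith

end gram

section near
variable {K : Set E3} {a c : Fin 4 → E3} (N : Near K a c)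
include N
variable (hK : IsCompact K) (hw : Width1 K)
include hK hw

theorem Near.ob {X Am p t q : ℝ} (ht : 1 / 3 ≤ t) (ht1 : t ≤ 1) (hp1 : 0.446 ≤ p)
    (hE : Eps c ≤ X) (hAm : ∑ i, Adep a c i ≤ Am) (hAm1 : Am ≤ 0.1115)
    (hp : p ≤ 2 * t - t / 2 * Am)
    (hv : ∀ i, ∀ z ∈ K, max (Qv a i z) 0 + 3 * t * ‖a i - c i‖ ^ 2 ≤
      p * Adep a c i + t / 2 * Adep a c i ^ 2 + q)
    (i : Fin 4) {z : E3} (hz : z ∈ K) (hs : 0 < Qv a i z) :
    ∃ k, k ≠ i ∧ (∀ j, bar a j z ≤ bar a k z) ∧ ∃ d : E3, ⟪d, a k - a i⟫ = 0 ∧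
      a k + d ∈ K ∧ a i + d ∈ K ∧ ∃ y : ℝ,
      Ob (t * X + q) (2 - p) (4 * t - 1.5) Am (Qv a i z) (‖d‖ ^ 2)
        ⟪a k - z, a k - a i⟫ y (1 - bar a k z) (Adep a c i) := by
  have P := N.placed
  have hG := P.gram
  have hpl := N.pl z hz
  obtain ⟨k, hk⟩ := Finite.exists_max (fun j => bar a j z)
  have hki : k ≠ i := by
    rintro rfl
    have := Qv_le_neg hG hpl hk
    linarith
  obtain ⟨d, hd, hkd, hid⟩ := P.contact hK hw hki
  refine ⟨k, hki, hk, d, hd, hkd, hid, 2 * (1 - bar a k z) - ⟪a k - z, a k - a i⟫, ?_⟩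
  obtain ⟨g1, g2, g3⟩ := dist_two hG hpl hki.symm (x := ⟪a k - z, a k - a i⟫)
    (y := 2 * (1 - bar a k z) - ⟪a k - z, a k - a i⟫) rfl (by ring)
  have hA0 := N.A_nonneg i
  have hA1 : Adep a c i ≤ Am :=
    (Finset.single_le_sum (f := Adep a c) (fun i _ => N.A_nonneg i) (Finset.mem_univ i)).trans hAm
  have hdl := N.delta_le i
  have hd0 := sq_nonneg ‖a i - c i‖
  -- the vertex inequality
  have hv1 : Qv a i z ≤ 2 * bar a k z * Adep a c i - ‖a i - c i‖ ^ 2 := by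
    have h1 := P.Qv_le hK hw hz i
    have h2 : ∑ j, bar a j z * ⟪a i - c i, a i - a j⟫ ≤ bar a k z * Adep a c i := by
      unfold Adep
      rw [Finset.mul_sum]
      exact Finset.sum_le_sum fun j _ => mul_le_mul_of_nonneg_right (hk j) (N.nonneg i j)
    linarith
  -- the contact point
  have hc := P.contact_le hK hw hki hd hid hz
  have hc2 := Qv_depth hG (z := z) hki.symm
  have hu := (P.contact_sq hki hd).1
  have hcs := P.contact_sq hki.symm (d := d)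
    (by rw [← neg_sub, inner_neg_right, hd, neg_zero])
  refine ⟨g1, g2, sq_nonneg _, by ring, hA0, hA1, ?_, by nlinarith, ?_, g3⟩
  · -- the budget
    have hk1 := hv k (a i + d) hid
    have hk2 : ‖d‖ ^ 2 ≤ max (Qv a k (a i + d)) 0 := by
      rw [hcs.1]; exact le_max_left _ _
    have hoth : ∀ j, 3 * t * ‖a j - c j‖ ^ 2 ≤ p * Adep a c j + t / 2 * Adep a c j ^ 2 := by
      intro j
      have h1 := N.delta_le j
      have h2 := N.A_nonneg j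
      have h3 : Adep a c j ≤ 0.1115 :=
        ((Finset.single_le_sum (f := Adep a c) (fun i _ => N.A_nonneg i)
          (Finset.mem_univ j)).trans hAm).trans hAm1
      have h4 : 3 * t * ‖a j - c j‖ ^ 2 ≤ 3 * t * (1.5 * Adep a c j ^ 2) :=
        mul_le_mul_of_nonneg_left h1 (by linarith)
      have h5 : t * Adep a c j ^ 2 ≤ 1 * Adep a c j ^ 2 :=
        mul_le_mul_of_nonneg_right ht1 (sq_nonneg _)
      have h6 : Adep a c j * Adep a c j ≤ 0.1115 * Adep a c j :=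
        mul_le_mul_of_nonneg_right h3 h2
      have h7 : 0.446 * Adep a c j ≤ p * Adep a c j := mul_le_mul_of_nonneg_right hp1 h2
      nlinarith
    have hb := N.budget3
    have hS0 := N.A_sum_nonneg
    have hsum : ‖d‖ ^ 2 + 3 * t * ∑ j ∈ Finset.univ.erase i, ‖a j - c j‖ ^ 2 ≤
        p * ∑ j ∈ Finset.univ.erase i, Adep a c j +
          t / 2 * ∑ j ∈ Finset.univ.erase i, Adep a c j ^ 2 + q := by
      have hke : k ∈ Finset.univ.erase i := Finset.mem_erase.2 ⟨hki, Finset.mem_univ _⟩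
      rw [← Finset.add_sum_erase _ (fun j => ‖a j - c j‖ ^ 2) hke,
        ← Finset.add_sum_erase _ (fun j => Adep a c j) hke,
        ← Finset.add_sum_erase _ (fun j => Adep a c j ^ 2) hke]
      have h1 : ∑ j ∈ (Finset.univ.erase i).erase k, 3 * t * ‖a j - c j‖ ^ 2 ≤
          ∑ j ∈ (Finset.univ.erase i).erase k, (p * Adep a c j + t / 2 * Adep a c j ^ 2) :=
        Finset.sum_le_sum fun j _ => hoth j
      rw [Finset.sum_add_distrib, ← Finset.mul_sum, ← Finset.mul_sum, ← Finset.mul_sum] at h1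
      nlinarith
    have s1 : ∑ j, ‖a j - c j‖ ^ 2 = ‖a i - c i‖ ^ 2 + ∑ j ∈ Finset.univ.erase i, ‖a j - c j‖ ^ 2 :=
      (Finset.add_sum_erase _ (fun j => ‖a j - c j‖ ^ 2) (Finset.mem_univ i)).symm
    have s2 : ∑ j, Adep a c j = Adep a c i + ∑ j ∈ Finset.univ.erase i, Adep a c j :=
      (Finset.add_sum_erase _ (fun j => Adep a c j) (Finset.mem_univ i)).symm
    have s3 : ∑ j, Adep a c j ^ 2 = Adep a c i ^ 2 + ∑ j ∈ Finset.univ.erase i, Adep a c j ^ 2 :=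
      (Finset.add_sum_erase _ (fun j => Adep a c j ^ 2) (Finset.mem_univ i)).symm
    have h1 : (3 * t - 1) * ‖a i - c i‖ ^ 2 ≤ (3 * t - 1) * (1.5 * Adep a c i ^ 2) :=
      mul_le_mul_of_nonneg_left hdl (by linarith)
    have h2 := mul_le_mul_of_nonneg_left hb (by linarith : (0 : ℝ) ≤ t)
    have h3 := mul_le_mul_of_nonneg_left hE (by linarith : (0 : ℝ) ≤ t)
    have h5 : (∑ j, Adep a c j) * (p - (2 * t - t / 2 * Am)) ≤ 0 :=
      mul_nonpos_of_nonneg_of_nonpos hS0 (by linarith)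
    have h6 : t / 2 * ((∑ j, Adep a c j) * (∑ j, Adep a c j)) ≤
        t / 2 * ((∑ j, Adep a c j) * Am) :=
      mul_le_mul_of_nonneg_left (mul_le_mul_of_nonneg_left hAm hS0) (by linarith)
    set D := ∑ j, ‖a j - c j‖ ^ 2
    set A := ∑ j, Adep a c j
    set A' := ∑ j, Adep a c j ^ 2
    set D1 := ∑ j ∈ Finset.univ.erase i, ‖a j - c j‖ ^ 2
    set A1 := ∑ j ∈ Finset.univ.erase i, Adep a c j
    set A1' := ∑ j ∈ Finset.univ.erase i, Adep a c j ^ 2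
    have h7 : 3 * t * D = 3 * t * ‖a i - c i‖ ^ 2 + 3 * t * D1 := by rw [s1]; ring
    have h8 : p * A = p * Adep a c i + p * A1 := by rw [s2]; ring
    have h9 : t / 2 * A' = t / 2 * Adep a c i ^ 2 + t / 2 * A1' := by rw [s3]; ring
    linarith
  · -- `(s - u)² ≤ 8 u x`
    have hn := norm_add_sq_real (a k - z) d
    have hin := abs_le.1 (abs_real_inner_le_norm (a k - z) d)
    set w := ‖a k - z‖
    set r := ‖d‖
    set x := ⟪a k - z, a k - a i⟫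
    set s := Qv a i z
    have hw0 : 0 ≤ w := norm_nonneg _
    have hr0 : 0 ≤ r := norm_nonneg _
    have h1 : s + r ^ 2 ≤ 2 * (w * r) := by linarith only [hin.1, hn, hc, hc2]
    have h2 : (s + r ^ 2) ^ 2 ≤ (2 * (w * r)) ^ 2 :=
      pow_le_pow_left₀ (by positivity) h1 2
    have h3 : (2 * (w * r)) ^ 2 = 4 * r ^ 2 * (s + 2 * x) := by
      have : w ^ 2 = s + 2 * x := by linarith
      calc (2 * (w * r)) ^ 2 = 4 * r ^ 2 * w ^ 2 := by ring
        _ = _ := by rw [this]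
    rw [h3] at h2
    linarith only [h2]

end near

end Helper13.PLM
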