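import Pool.Agent.Helper13.PLM.OneBig

/-!
# Project MEI (M2): bounds for a single violation, instances
-/

set_option autoImplicit false

namespace Helper13.PLM

open Set Metric Finset MeasureTheory Helper80.CW Helper82.CW Helper14.CW Helper93.MEI Helper66.MEI
open Helper14.MEI2 Helper82.M2 Helper78.MEI
open scoped RealInnerProductSpace

section near
variable {K : Set E3} {a c : Fin 4 → E3} (N : Near K a c)
include N
variable (hK : IsCompact K) (hw : Width1 K)
include hK hw

/-- `Q_i ≤ 0.00905` for `X = 0.0104` -/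
theorem Near.one_0104 (hE : Eps c ≤ 0.0104) (i : Fin 4) {z : E3} (hz : z ∈ K) :
    Qv a i z ≤ 0.00905 := by
  by_contra hc
  push Not at hc
  have hs := N.A_sum_1115 hK hw (hE.trans (by norm_num))
  have hAm := N.A_sum_le_of (Am := 0.00533) (by norm_num) hE (by norm_num) (by norm_num)
    (by norm_num) hs
  obtain ⟨k, -, -, v, -, -, -, y, O⟩ := N.ob hK hw (t := 0.975) (p := 1.9474) (q := 0.00002)
    (by norm_num) (by norm_num) (by norm_num) hE hAm (by norm_num) (by norm_num)
    (N.hv_of hK hw hAm fun A d r h1 h2 h3 h4 h5 => vt0104 h1 h2 h3 h4 h5) i hz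
    (lt_trans (by norm_num) hc)
  rcases le_or_gt (‖v‖ ^ 2) 0.000269 with h0' | h0'
  · exact O.piece (s0 := 0.00905) (u1 := 0) (u2 := 0.000269) (x2 := 0.03568) (b2 := 0.1383)
      (A2 := 0.005251) hc.le O.u0 h0' (by norm_num) (by norm_num) (by norm_num) (by norm_num)
      (by norm_num) (by norm_num) (by norm_num) (by norm_num) (by norm_num) (by norm_num)
  have h0 := h0'
  clear h0'
  rcases le_or_gt (‖v‖ ^ 2) 0.000377 with h0' | h0'
  · exact O.piece (s0 := 0.00905) (u1 := 0.000269) (u2 := 0.000377) (x2 := 0.02485) (b2 := 0.1148)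
      (A2 := 0.005111) hc.le h0.le h0' (by norm_num) (by norm_num) (by norm_num) (by norm_num)
      (by norm_num) (by norm_num) (by norm_num) (by norm_num) (by norm_num) (by norm_num)
  replace h0 := h0'
  clear h0'
  rcases le_or_gt (‖v‖ ^ 2) 0.000446 with h0' | h0'
  · exact O.piece (s0 := 0.00905) (u1 := 0.000377) (u2 := 0.000446) (x2 := 0.02068) (b2 := 0.1049)
      (A2 := 0.005055) hc.le h0.le h0' (by norm_num) (by norm_num) (by norm_num) (by norm_num)
      (by norm_num) (by norm_num) (by norm_num) (by norm_num) (by norm_num) (by norm_num)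
  replace h0 := h0'
  clear h0'
  rcases le_or_gt (‖v‖ ^ 2) 0.000503 with h0' | h0'
  · exact O.piece (s0 := 0.00905) (u1 := 0.000446) (u2 := 0.000503) (x2 := 0.01811) (b2 := 0.0985)
      (A2 := 0.005019) hc.le h0.le h0' (by norm_num) (by norm_num) (by norm_num) (by norm_num)
      (by norm_num) (by norm_num) (by norm_num) (by norm_num) (by norm_num) (by norm_num)
  replace h0 := h0'
  clear h0'
  rcases le_or_gt (‖v‖ ^ 2) 0.00056 with h0' | h0'
  · exact O.piece (s0 := 0.00905) (u1 := 0.000503) (u2 := 0.00056) (x2 := 0.01607) (b2 := 0.0932)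
      (A2 := 0.00499) hc.le h0.le h0' (by norm_num) (by norm_num) (by norm_num) (by norm_num)
      (by norm_num) (by norm_num) (by norm_num) (by norm_num) (by norm_num) (by norm_num)
  replace h0 := h0'
  clear h0'
  rcases le_or_gt (‖v‖ ^ 2) 0.000629 with h0' | h0'
  · exact O.piece (s0 := 0.00905) (u1 := 0.00056) (u2 := 0.000629) (x2 := 0.01407) (b2 := 0.0878)
      (A2 := 0.00496) hc.le h0.le h0' (by norm_num) (by norm_num) (by norm_num) (by norm_num)
      (by norm_num) (by norm_num) (by norm_num) (by norm_num) (by norm_num) (by norm_num)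
  replace h0 := h0'
  clear h0'
  rcases le_or_gt (‖v‖ ^ 2) 0.000737 with h0' | h0'
  · exact O.piece (s0 := 0.00905) (u1 := 0.000629) (u2 := 0.000737) (x2 := 0.0117) (b2 := 0.0811)
      (A2 := 0.004924) hc.le h0.le h0' (by norm_num) (by norm_num) (by norm_num) (by norm_num)
      (by norm_num) (by norm_num) (by norm_num) (by norm_num) (by norm_num) (by norm_num)
  replace h0 := h0'
  clear h0'
  rcases le_or_gt (‖v‖ ^ 2) 0.000987 with h0' | h0'
  · exact O.piece (s0 := 0.00905) (u1 := 0.000737) (u2 := 0.000987) (x2 := 0.00822) (b2 := 0.0705)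
      (A2 := 0.004868) hc.le h0.le h0' (by norm_num) (by norm_num) (by norm_num) (by norm_num)
      (by norm_num) (by norm_num) (by norm_num) (by norm_num) (by norm_num) (by norm_num)
  replace h0 := h0'
  clear h0'
  rcases le_or_gt (‖v‖ ^ 2) 0.003207 with h0' | h0'
  · exact O.piece (s0 := 0.00905) (u1 := 0.000987) (u2 := 0.003207) (x2 := 0.00133) (b2 := 0.045)
      (A2 := 0.004738) hc.le h0.le h0' (by norm_num) (by norm_num) (by norm_num) (by norm_num)
      (by norm_num) (by norm_num) (by norm_num) (by norm_num) (by norm_num) (by norm_num)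
  replace h0 := h0'
  clear h0'
  exact O.last (s0 := 0.00905) (u1 := 0.003207) (b2 := 0.0001) (A2 := 0.004525) hc.le h0.le
    (by norm_num) (by norm_num) (by norm_num) (by norm_num) (by norm_num) (by norm_num)
    (by norm_num)

/-- `Q_i ≤ 0.0172` for `X = 0.0204` -/
theorem Near.one_0204 (hE : Eps c ≤ 0.0204) (i : Fin 4) {z : E3} (hz : z ∈ K) :
    Qv a i z ≤ 0.0172 := by
  by_contra hc
  push Not at hc
  have hs := N.A_sum_1115 hK hw (hE.trans (by norm_num))
  have hAm := N.A_sum_le_of (Am := 0.0105) (by norm_num) hE (by norm_num) (by norm_num)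
    (by norm_num) hs
  obtain ⟨k, -, -, v, -, -, -, y, O⟩ := N.ob hK hw (t := 0.965) (p := 1.9249) (q := 0.000062)
    (by norm_num) (by norm_num) (by norm_num) hE hAm (by norm_num) (by norm_num)
    (N.hv_of hK hw hAm fun A d r h1 h2 h3 h4 h5 => vt0204 h1 h2 h3 h4 h5) i hz
    (lt_trans (by norm_num) hc)
  rcases le_or_gt (‖v‖ ^ 2) 0.000671 with h0' | h0'
  · exact O.piece (s0 := 0.0172) (u1 := 0) (u2 := 0.000671) (x2 := 0.0508) (b2 := 0.1725)
      (A2 := 0.010392) hc.le O.u0 h0' (by norm_num) (by norm_num) (by norm_num) (by norm_num)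
      (by norm_num) (by norm_num) (by norm_num) (by norm_num) (by norm_num) (by norm_num)
  have h0 := h0'
  clear h0'
  rcases le_or_gt (‖v‖ ^ 2) 0.00094 with h0' | h0'
  · exact O.piece (s0 := 0.0172) (u1 := 0.000671) (u2 := 0.00094) (x2 := 0.03513) (b2 := 0.143)
      (A2 := 0.010035) hc.le h0.le h0' (by norm_num) (by norm_num) (by norm_num) (by norm_num)
      (by norm_num) (by norm_num) (by norm_num) (by norm_num) (by norm_num) (by norm_num)
  replace h0 := h0'
  clear h0'
  rcases le_or_gt (‖v‖ ^ 2) 0.001111 with h0' | h0'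
  · exact O.piece (s0 := 0.0172) (u1 := 0.00094) (u2 := 0.001111) (x2 := 0.02908) (b2 := 0.1306)
      (A2 := 0.009891) hc.le h0.le h0' (by norm_num) (by norm_num) (by norm_num) (by norm_num)
      (by norm_num) (by norm_num) (by norm_num) (by norm_num) (by norm_num) (by norm_num)
  replace h0 := h0'
  clear h0'
  rcases le_or_gt (‖v‖ ^ 2) 0.001255 with h0' | h0'
  · exact O.piece (s0 := 0.0172) (u1 := 0.001111) (u2 := 0.001255) (x2 := 0.02531) (b2 := 0.1225)
      (A2 := 0.0098) hc.le h0.le h0' (by norm_num) (by norm_num) (by norm_num) (by norm_num)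
      (by norm_num) (by norm_num) (by norm_num) (by norm_num) (by norm_num) (by norm_num)
  replace h0 := h0'
  clear h0'
  rcases le_or_gt (‖v‖ ^ 2) 0.001403 with h0' | h0'
  · exact O.piece (s0 := 0.0172) (u1 := 0.001255) (u2 := 0.001403) (x2 := 0.02222) (b2 := 0.1156)
      (A2 := 0.009724) hc.le h0.le h0' (by norm_num) (by norm_num) (by norm_num) (by norm_num)
      (by norm_num) (by norm_num) (by norm_num) (by norm_num) (by norm_num) (by norm_num)
  replace h0 := h0'
  clear h0'
  rcases le_or_gt (‖v‖ ^ 2) 0.001595 with h0' | h0'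
  · exact O.piece (s0 := 0.0172) (u1 := 0.001403) (u2 := 0.001595) (x2 := 0.01907) (b2 := 0.1083)
      (A2 := 0.009644) hc.le h0.le h0' (by norm_num) (by norm_num) (by norm_num) (by norm_num)
      (by norm_num) (by norm_num) (by norm_num) (by norm_num) (by norm_num) (by norm_num)
  replace h0 := h0'
  clear h0'
  rcases le_or_gt (‖v‖ ^ 2) 0.001923 with h0' | h0'
  · exact O.piece (s0 := 0.0172) (u1 := 0.001595) (u2 := 0.001923) (x2 := 0.01516) (b2 := 0.0988)
      (A2 := 0.009542) hc.le h0.le h0' (by norm_num) (by norm_num) (by norm_num) (by norm_num)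
      (by norm_num) (by norm_num) (by norm_num) (by norm_num) (by norm_num) (by norm_num)
  replace h0 := h0'
  clear h0'
  rcases le_or_gt (‖v‖ ^ 2) 0.002893 with h0' | h0'
  · exact O.piece (s0 := 0.0172) (u1 := 0.001923) (u2 := 0.002893) (x2 := 0.00884) (b2 := 0.082)
      (A2 := 0.009368) hc.le h0.le h0' (by norm_num) (by norm_num) (by norm_num) (by norm_num)
      (by norm_num) (by norm_num) (by norm_num) (by norm_num) (by norm_num) (by norm_num)
  replace h0 := h0'
  clear h0'
  exact O.last (s0 := 0.0172) (u1 := 0.002893) (b2 := 0.0336) (A2 := 0.008899) hc.le h0.le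
    (by norm_num) (by norm_num) (by norm_num) (by norm_num) (by norm_num) (by norm_num)
    (by norm_num)

/-- `Q_i ≤ 0.025` for `X = 0.0304` -/
theorem Near.one_0304 (hE : Eps c ≤ 0.0304) (i : Fin 4) {z : E3} (hz : z ∈ K) :
    Qv a i z ≤ 0.025 := by
  by_contra hc
  push Not at hc
  have hs := N.A_sum_1115 hK hw (hE.trans (by norm_num))
  have hAm := N.A_sum_le_of (Am := 0.0158) (by norm_num) hE (by norm_num) (by norm_num)
    (by norm_num) hs
  obtain ⟨k, -, -, v, -, -, -, y, O⟩ := N.ob hK hw (t := 0.96) (p := 1.9124) (q := 0.000103)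
    (by norm_num) (by norm_num) (by norm_num) hE hAm (by norm_num) (by norm_num)
    (N.hv_of hK hw hAm fun A d r h1 h2 h3 h4 h5 => vt0304 h1 h2 h3 h4 h5) i hz
    (lt_trans (by norm_num) hc)
  rcases le_or_gt (‖v‖ ^ 2) 0.001114 with h0' | h0'
  · exact O.piece (s0 := 0.025) (u1 := 0) (u2 := 0.001114) (x2 := 0.06396) (b2 := 0.1994)
      (A2 := 0.015613) hc.le O.u0 h0' (by norm_num) (by norm_num) (by norm_num) (by norm_num)
      (by norm_num) (by norm_num) (by norm_num) (by norm_num) (by norm_num) (by norm_num)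
  have h0 := h0'
  clear h0'
  rcases le_or_gt (‖v‖ ^ 2) 0.001524 with h0' | h0'
  · exact O.piece (s0 := 0.025) (u1 := 0.001114) (u2 := 0.001524) (x2 := 0.04517) (b2 := 0.1671)
      (A2 := 0.015007) hc.le h0.le h0' (by norm_num) (by norm_num) (by norm_num) (by norm_num)
      (by norm_num) (by norm_num) (by norm_num) (by norm_num) (by norm_num) (by norm_num)
  replace h0 := h0'
  clear h0'
  rcases le_or_gt (‖v‖ ^ 2) 0.001757 with h0' | h0'
  · exact O.piece (s0 := 0.025) (u1 := 0.001524) (u2 := 0.001757) (x2 := 0.03841) (b2 := 0.1546)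
      (A2 := 0.014785) hc.le h0.le h0' (by norm_num) (by norm_num) (by norm_num) (by norm_num)
      (by norm_num) (by norm_num) (by norm_num) (by norm_num) (by norm_num) (by norm_num)
  replace h0 := h0'
  clear h0'
  rcases le_or_gt (‖v‖ ^ 2) 0.001922 with h0' | h0'
  · exact O.piece (s0 := 0.025) (u1 := 0.001757) (u2 := 0.001922) (x2 := 0.03461) (b2 := 0.1473)
      (A2 := 0.014659) hc.le h0.le h0' (by norm_num) (by norm_num) (by norm_num) (by norm_num)
      (by norm_num) (by norm_num) (by norm_num) (by norm_num) (by norm_num) (by norm_num)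
  replace h0 := h0'
  clear h0'
  rcases le_or_gt (‖v‖ ^ 2) 0.002057 with h0' | h0'
  · exact O.piece (s0 := 0.025) (u1 := 0.001922) (u2 := 0.002057) (x2 := 0.03197) (b2 := 0.1421)
      (A2 := 0.01457) hc.le h0.le h0' (by norm_num) (by norm_num) (by norm_num) (by norm_num)
      (by norm_num) (by norm_num) (by norm_num) (by norm_num) (by norm_num) (by norm_num)
  replace h0 := h0'
  clear h0'
  rcases le_or_gt (‖v‖ ^ 2) 0.002185 with h0' | h0'
  · exact O.piece (s0 := 0.025) (u1 := 0.002057) (u2 := 0.002185) (x2 := 0.02977) (b2 := 0.1377)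
      (A2 := 0.014496) hc.le h0.le h0' (by norm_num) (by norm_num) (by norm_num) (by norm_num)
      (by norm_num) (by norm_num) (by norm_num) (by norm_num) (by norm_num) (by norm_num)
  replace h0 := h0'
  clear h0'
  rcases le_or_gt (‖v‖ ^ 2) 0.002315 with h0' | h0'
  · exact O.piece (s0 := 0.025) (u1 := 0.002185) (u2 := 0.002315) (x2 := 0.02777) (b2 := 0.1336)
      (A2 := 0.014427) hc.le h0.le h0' (by norm_num) (by norm_num) (by norm_num) (by norm_num)
      (by norm_num) (by norm_num) (by norm_num) (by norm_num) (by norm_num) (by norm_num)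
  replace h0 := h0'
  clear h0'
  rcases le_or_gt (‖v‖ ^ 2) 0.002468 with h0' | h0'
  · exact O.piece (s0 := 0.025) (u1 := 0.002315) (u2 := 0.002468) (x2 := 0.0257) (b2 := 0.1293)
      (A2 := 0.014356) hc.le h0.le h0' (by norm_num) (by norm_num) (by norm_num) (by norm_num)
      (by norm_num) (by norm_num) (by norm_num) (by norm_num) (by norm_num) (by norm_num)
  replace h0 := h0'
  clear h0'
  rcases le_or_gt (‖v‖ ^ 2) 0.002668 with h0' | h0'
  · exact O.piece (s0 := 0.025) (u1 := 0.002468) (u2 := 0.002668) (x2 := 0.02335) (b2 := 0.1243)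
      (A2 := 0.014274) hc.le h0.le h0' (by norm_num) (by norm_num) (by norm_num) (by norm_num)
      (by norm_num) (by norm_num) (by norm_num) (by norm_num) (by norm_num) (by norm_num)
  replace h0 := h0'
  clear h0'
  rcases le_or_gt (‖v‖ ^ 2) 0.002986 with h0' | h0'
  · exact O.piece (s0 := 0.025) (u1 := 0.002668) (u2 := 0.002986) (x2 := 0.02028) (b2 := 0.1176)
      (A2 := 0.014165) hc.le h0.le h0' (by norm_num) (by norm_num) (by norm_num) (by norm_num)
      (by norm_num) (by norm_num) (by norm_num) (by norm_num) (by norm_num) (by norm_num)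
  replace h0 := h0'
  clear h0'
  rcases le_or_gt (‖v‖ ^ 2) 0.003665 with h0' | h0'
  · exact O.piece (s0 := 0.025) (u1 := 0.002986) (u2 := 0.003665) (x2 := 0.01552) (b2 := 0.1067)
      (A2 := 0.013993) hc.le h0.le h0' (by norm_num) (by norm_num) (by norm_num) (by norm_num)
      (by norm_num) (by norm_num) (by norm_num) (by norm_num) (by norm_num) (by norm_num)
  replace h0 := h0'
  clear h0'
  rcases le_or_gt (‖v‖ ^ 2) 0.006824 with h0' | h0'
  · exact O.piece (s0 := 0.025) (u1 := 0.003665) (u2 := 0.006824) (x2 := 0.00605) (b2 := 0.0826)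
      (A2 := 0.013625) hc.le h0.le h0' (by norm_num) (by norm_num) (by norm_num) (by norm_num)
      (by norm_num) (by norm_num) (by norm_num) (by norm_num) (by norm_num) (by norm_num)
  replace h0 := h0'
  clear h0'
  exact O.last (s0 := 0.025) (u1 := 0.006824) (b2 := 0.0001) (A2 := 0.012501) hc.le h0.le
    (by norm_num) (by norm_num) (by norm_num) (by norm_num) (by norm_num) (by norm_num)
    (by norm_num)

/-- `Q_i ≤ 0.0327` for `X = 0.0404` -/
theorem Near.one_0404 (hE : Eps c ≤ 0.0404) (i : Fin 4) {z : E3} (hz : z ∈ K) :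
    Qv a i z ≤ 0.0327 := by
  by_contra hc
  push Not at hc
  have hs := N.A_sum_1115 hK hw (hE.trans (by norm_num))
  have hAm := N.A_sum_le_of (Am := 0.0213) (by norm_num) hE (by norm_num) (by norm_num)
    (by norm_num) hs
  obtain ⟨k, -, -, v, -, -, -, y, O⟩ := N.ob hK hw (t := 0.955) (p := 1.8998) (q := 0.000163)
    (by norm_num) (by norm_num) (by norm_num) hE hAm (by norm_num) (by norm_num)
    (N.hv_of hK hw hAm fun A d r h1 h2 h3 h4 h5 => vt0404 h1 h2 h3 h4 h5) i hz
    (lt_trans (by norm_num) hc)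
  rcases le_or_gt (‖v‖ ^ 2) 0.001636 with h0' | h0'
  · exact O.piece (s0 := 0.0327) (u1 := 0) (u2 := 0.001636) (x2 := 0.07367) (b2 := 0.2188)
      (A2 := 0.020929) hc.le O.u0 h0' (by norm_num) (by norm_num) (by norm_num) (by norm_num)
      (by norm_num) (by norm_num) (by norm_num) (by norm_num) (by norm_num) (by norm_num)
  have h0 := h0'
  clear h0'
  rcases le_or_gt (‖v‖ ^ 2) 0.002232 with h0' | h0'
  · exact O.piece (s0 := 0.0327) (u1 := 0.001636) (u2 := 0.002232) (x2 := 0.05195) (b2 := 0.1835)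
      (A2 := 0.020024) hc.le h0.le h0' (by norm_num) (by norm_num) (by norm_num) (by norm_num)
      (by norm_num) (by norm_num) (by norm_num) (by norm_num) (by norm_num) (by norm_num)
  replace h0 := h0'
  clear h0'
  rcases le_or_gt (‖v‖ ^ 2) 0.002572 with h0' | h0'
  · exact O.piece (s0 := 0.0327) (u1 := 0.002232) (u2 := 0.002572) (x2 := 0.0441) (b2 := 0.1698)
      (A2 := 0.019694) hc.le h0.le h0' (by norm_num) (by norm_num) (by norm_num) (by norm_num)
      (by norm_num) (by norm_num) (by norm_num) (by norm_num) (by norm_num) (by norm_num)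
  replace h0 := h0'
  clear h0'
  rcases le_or_gt (‖v‖ ^ 2) 0.002813 with h0' | h0'
  · exact O.piece (s0 := 0.0327) (u1 := 0.002572) (u2 := 0.002813) (x2 := 0.03967) (b2 := 0.1618)
      (A2 := 0.019506) hc.le h0.le h0' (by norm_num) (by norm_num) (by norm_num) (by norm_num)
      (by norm_num) (by norm_num) (by norm_num) (by norm_num) (by norm_num) (by norm_num)
  replace h0 := h0'
  clear h0'
  rcases le_or_gt (‖v‖ ^ 2) 0.003014 with h0' | h0'
  · exact O.piece (s0 := 0.0327) (u1 := 0.002813) (u2 := 0.003014) (x2 := 0.03654) (b2 := 0.156)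
      (A2 := 0.019372) hc.le h0.le h0' (by norm_num) (by norm_num) (by norm_num) (by norm_num)
      (by norm_num) (by norm_num) (by norm_num) (by norm_num) (by norm_num) (by norm_num)
  replace h0 := h0'
  clear h0'
  rcases le_or_gt (‖v‖ ^ 2) 0.003199 with h0' | h0'
  · exact O.piece (s0 := 0.0327) (u1 := 0.003014) (u2 := 0.003199) (x2 := 0.034) (b2 := 0.1512)
      (A2 := 0.019262) hc.le h0.le h0' (by norm_num) (by norm_num) (by norm_num) (by norm_num)
      (by norm_num) (by norm_num) (by norm_num) (by norm_num) (by norm_num) (by norm_num)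
  replace h0 := h0'
  clear h0'
  rcases le_or_gt (‖v‖ ^ 2) 0.00339 with h0' | h0'
  · exact O.piece (s0 := 0.0327) (u1 := 0.003199) (u2 := 0.00339) (x2 := 0.03166) (b2 := 0.1467)
      (A2 := 0.01916) hc.le h0.le h0' (by norm_num) (by norm_num) (by norm_num) (by norm_num)
      (by norm_num) (by norm_num) (by norm_num) (by norm_num) (by norm_num) (by norm_num)
  replace h0 := h0'
  clear h0'
  rcases le_or_gt (‖v‖ ^ 2) 0.003619 with h0' | h0'
  · exact O.piece (s0 := 0.0327) (u1 := 0.00339) (u2 := 0.003619) (x2 := 0.0292) (b2 := 0.1419)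
      (A2 := 0.019053) hc.le h0.le h0' (by norm_num) (by norm_num) (by norm_num) (by norm_num)
      (by norm_num) (by norm_num) (by norm_num) (by norm_num) (by norm_num) (by norm_num)
  replace h0 := h0'
  clear h0'
  rcases le_or_gt (‖v‖ ^ 2) 0.003926 with h0' | h0'
  · exact O.piece (s0 := 0.0327) (u1 := 0.003619) (u2 := 0.003926) (x2 := 0.02635) (b2 := 0.1362)
      (A2 := 0.018927) hc.le h0.le h0' (by norm_num) (by norm_num) (by norm_num) (by norm_num)
      (by norm_num) (by norm_num) (by norm_num) (by norm_num) (by norm_num) (by norm_num)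
  replace h0 := h0'
  clear h0'
  rcases le_or_gt (‖v‖ ^ 2) 0.004428 with h0' | h0'
  · exact O.piece (s0 := 0.0327) (u1 := 0.003926) (u2 := 0.004428) (x2 := 0.02256) (b2 := 0.1284)
      (A2 := 0.018758) hc.le h0.le h0' (by norm_num) (by norm_num) (by norm_num) (by norm_num)
      (by norm_num) (by norm_num) (by norm_num) (by norm_num) (by norm_num) (by norm_num)
  replace h0 := h0'
  clear h0'
  rcases le_or_gt (‖v‖ ^ 2) 0.005576 with h0' | h0'
  · exact O.piece (s0 := 0.0327) (u1 := 0.004428) (u2 := 0.005576) (x2 := 0.01649) (b2 := 0.1153)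
      (A2 := 0.01848) hc.le h0.le h0' (by norm_num) (by norm_num) (by norm_num) (by norm_num)
      (by norm_num) (by norm_num) (by norm_num) (by norm_num) (by norm_num) (by norm_num)
  replace h0 := h0'
  clear h0'
  rcases le_or_gt (‖v‖ ^ 2) 0.012155 with h0' | h0'
  · exact O.piece (s0 := 0.0327) (u1 := 0.005576) (u2 := 0.012155) (x2 := 0.00434) (b2 := 0.0859)
      (A2 := 0.017886) hc.le h0.le h0' (by norm_num) (by norm_num) (by norm_num) (by norm_num)
      (by norm_num) (by norm_num) (by norm_num) (by norm_num) (by norm_num) (by norm_num)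
  replace h0 := h0'
  clear h0'
  exact O.last (s0 := 0.0327) (u1 := 0.012155) (b2 := 0.0001) (A2 := 0.016351) hc.le h0.le
    (by norm_num) (by norm_num) (by norm_num) (by norm_num) (by norm_num) (by norm_num)
    (by norm_num)

/-- `Q_i ≤ 0.0403` for `X = 0.0504` -/
theorem Near.one_0504 (hE : Eps c ≤ 0.0504) (i : Fin 4) {z : E3} (hz : z ∈ K) :
    Qv a i z ≤ 0.0403 := by
  by_contra hc
  push Not at hc
  have hs := N.A_sum_1115 hK hw (hE.trans (by norm_num))
  have hAm := N.A_sum_le_of (Am := 0.0269) (by norm_num) hE (by norm_num) (by norm_num)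
    (by norm_num) hs
  obtain ⟨k, -, -, v, -, -, -, y, O⟩ := N.ob hK hw (t := 0.955) (p := 1.8971) (q := 0.00018)
    (by norm_num) (by norm_num) (by norm_num) hE hAm (by norm_num) (by norm_num)
    (N.hv_of hK hw hAm fun A d r h1 h2 h3 h4 h5 => vt0504 h1 h2 h3 h4 h5) i hz
    (lt_trans (by norm_num) hc)
  rcases le_or_gt (‖v‖ ^ 2) 0.002223 with h0' | h0'
  · exact O.piece (s0 := 0.0403) (u1 := 0) (u2 := 0.002223) (x2 := 0.08147) (b2 := 0.2343)
      (A2 := 0.026315) hc.le O.u0 h0' (by norm_num) (by norm_num) (by norm_num) (by norm_num)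
      (by norm_num) (by norm_num) (by norm_num) (by norm_num) (by norm_num) (by norm_num)
  have h0 := h0'
  clear h0'
  rcases le_or_gt (‖v‖ ^ 2) 0.003042 with h0' | h0'
  · exact O.piece (s0 := 0.0403) (u1 := 0.002223) (u2 := 0.003042) (x2 := 0.05701) (b2 := 0.1961)
      (A2 := 0.025065) hc.le h0.le h0' (by norm_num) (by norm_num) (by norm_num) (by norm_num)
      (by norm_num) (by norm_num) (by norm_num) (by norm_num) (by norm_num) (by norm_num)
  replace h0 := h0'
  clear h0'
  rcases le_or_gt (‖v‖ ^ 2) 0.003521 with h0' | h0'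
  · exact O.piece (s0 := 0.0403) (u1 := 0.003042) (u2 := 0.003521) (x2 := 0.048) (b2 := 0.181)
      (A2 := 0.024603) hc.le h0.le h0' (by norm_num) (by norm_num) (by norm_num) (by norm_num)
      (by norm_num) (by norm_num) (by norm_num) (by norm_num) (by norm_num) (by norm_num)
  replace h0 := h0'
  clear h0'
  rcases le_or_gt (‖v‖ ^ 2) 0.003872 with h0' | h0'
  · exact O.piece (s0 := 0.0403) (u1 := 0.003521) (u2 := 0.003872) (x2 := 0.04282) (b2 := 0.172)
      (A2 := 0.024335) hc.le h0.le h0' (by norm_num) (by norm_num) (by norm_num) (by norm_num)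
      (by norm_num) (by norm_num) (by norm_num) (by norm_num) (by norm_num) (by norm_num)
  replace h0 := h0'
  clear h0'
  rcases le_or_gt (‖v‖ ^ 2) 0.004175 with h0' | h0'
  · exact O.piece (s0 := 0.0403) (u1 := 0.003872) (u2 := 0.004175) (x2 := 0.03906) (b2 := 0.1653)
      (A2 := 0.02414) hc.le h0.le h0' (by norm_num) (by norm_num) (by norm_num) (by norm_num)
      (by norm_num) (by norm_num) (by norm_num) (by norm_num) (by norm_num) (by norm_num)
  replace h0 := h0'
  clear h0'
  rcases le_or_gt (‖v‖ ^ 2) 0.004483 with h0' | h0'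
  · exact O.piece (s0 := 0.0403) (u1 := 0.004175) (u2 := 0.004483) (x2 := 0.03576) (b2 := 0.1593)
      (A2 := 0.023968) hc.le h0.le h0' (by norm_num) (by norm_num) (by norm_num) (by norm_num)
      (by norm_num) (by norm_num) (by norm_num) (by norm_num) (by norm_num) (by norm_num)
  replace h0 := h0'
  clear h0'
  rcases le_or_gt (‖v‖ ^ 2) 0.004833 with h0' | h0'
  · exact O.piece (s0 := 0.0403) (u1 := 0.004483) (u2 := 0.004833) (x2 := 0.03253) (b2 := 0.1533)
      (A2 := 0.023798) hc.le h0.le h0' (by norm_num) (by norm_num) (by norm_num) (by norm_num)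
      (by norm_num) (by norm_num) (by norm_num) (by norm_num) (by norm_num) (by norm_num)
  replace h0 := h0'
  clear h0'
  rcases le_or_gt (‖v‖ ^ 2) 0.005312 with h0' | h0'
  · exact O.piece (s0 := 0.0403) (u1 := 0.004833) (u2 := 0.005312) (x2 := 0.0288) (b2 := 0.1462)
      (A2 := 0.0236) hc.le h0.le h0' (by norm_num) (by norm_num) (by norm_num) (by norm_num)
      (by norm_num) (by norm_num) (by norm_num) (by norm_num) (by norm_num) (by norm_num)
  replace h0 := h0'
  clear h0'
  rcases le_or_gt (‖v‖ ^ 2) 0.006127 with h0' | h0'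
  · exact O.piece (s0 := 0.0403) (u1 := 0.005312) (u2 := 0.006127) (x2 := 0.02382) (b2 := 0.1364)
      (A2 := 0.023332) hc.le h0.le h0' (by norm_num) (by norm_num) (by norm_num) (by norm_num)
      (by norm_num) (by norm_num) (by norm_num) (by norm_num) (by norm_num) (by norm_num)
  replace h0 := h0'
  clear h0'
  rcases le_or_gt (‖v‖ ^ 2) 0.00825 with h0' | h0'
  · exact O.piece (s0 := 0.0403) (u1 := 0.006127) (u2 := 0.00825) (x2 := 0.01556) (b2 := 0.1192)
      (A2 := 0.022876) hc.le h0.le h0' (by norm_num) (by norm_num) (by norm_num) (by norm_num)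
      (by norm_num) (by norm_num) (by norm_num) (by norm_num) (by norm_num) (by norm_num)
  replace h0 := h0'
  clear h0'
  exact O.last (s0 := 0.0403) (u1 := 0.00825) (b2 := 0.0783) (A2 := 0.021861) hc.le h0.le
    (by norm_num) (by norm_num) (by norm_num) (by norm_num) (by norm_num) (by norm_num)
    (by norm_num)

/-- `Q_i ≤ 0.0477` for `X = 0.0604` -/
theorem Near.one_0604 (hE : Eps c ≤ 0.0604) (i : Fin 4) {z : E3} (hz : z ∈ K) :
    Qv a i z ≤ 0.0477 := by
  by_contra hc
  push Not at hc
  have hs := N.A_sum_1115 hK hw (hE.trans (by norm_num))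
  have hAm := N.A_sum_le_of (Am := 0.0327) (by norm_num) hE (by norm_num) (by norm_num)
    (by norm_num) hs
  obtain ⟨k, -, -, v, -, -, -, y, O⟩ := N.ob hK hw (t := 0.955) (p := 1.8943) (q := 0.000198)
    (by norm_num) (by norm_num) (by norm_num) hE hAm (by norm_num) (by norm_num)
    (N.hv_of hK hw hAm fun A d r h1 h2 h3 h4 h5 => vt0604 h1 h2 h3 h4 h5) i hz
    (lt_trans (by norm_num) hc)
  rcases le_or_gt (‖v‖ ^ 2) 0.002803 with h0' | h0'
  · exact O.piece (s0 := 0.0477) (u1 := 0) (u2 := 0.002803) (x2 := 0.08985) (b2 := 0.2499)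
      (A2 := 0.031795) hc.le O.u0 h0' (by norm_num) (by norm_num) (by norm_num) (by norm_num)
      (by norm_num) (by norm_num) (by norm_num) (by norm_num) (by norm_num) (by norm_num)
  have h0 := h0'
  clear h0'
  rcases le_or_gt (‖v‖ ^ 2) 0.0038 with h0' | h0'
  · exact O.piece (s0 := 0.0477) (u1 := 0.002803) (u2 := 0.0038) (x2 := 0.06337) (b2 := 0.2101)
      (A2 := 0.030193) hc.le h0.le h0' (by norm_num) (by norm_num) (by norm_num) (by norm_num)
      (by norm_num) (by norm_num) (by norm_num) (by norm_num) (by norm_num) (by norm_num)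
  replace h0 := h0'
  clear h0'
  rcases le_or_gt (‖v‖ ^ 2) 0.004355 with h0' | h0'
  · exact O.piece (s0 := 0.0477) (u1 := 0.0038) (u2 := 0.004355) (x2 := 0.05391) (b2 := 0.1949)
      (A2 := 0.029623) hc.le h0.le h0' (by norm_num) (by norm_num) (by norm_num) (by norm_num)
      (by norm_num) (by norm_num) (by norm_num) (by norm_num) (by norm_num) (by norm_num)
  replace h0 := h0'
  clear h0'
  rcases le_or_gt (‖v‖ ^ 2) 0.004734 with h0' | h0'
  · exact O.piece (s0 := 0.0477) (u1 := 0.004355) (u2 := 0.004734) (x2 := 0.04873) (b2 := 0.1863)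
      (A2 := 0.02931) hc.le h0.le h0' (by norm_num) (by norm_num) (by norm_num) (by norm_num)
      (by norm_num) (by norm_num) (by norm_num) (by norm_num) (by norm_num) (by norm_num)
  replace h0 := h0'
  clear h0'
  rcases le_or_gt (‖v‖ ^ 2) 0.00504 with h0' | h0'
  · exact O.piece (s0 := 0.0477) (u1 := 0.004734) (u2 := 0.00504) (x2 := 0.04513) (b2 := 0.1802)
      (A2 := 0.029092) hc.le h0.le h0' (by norm_num) (by norm_num) (by norm_num) (by norm_num)
      (by norm_num) (by norm_num) (by norm_num) (by norm_num) (by norm_num) (by norm_num)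
  replace h0 := h0'
  clear h0'
  rcases le_or_gt (‖v‖ ^ 2) 0.005311 with h0' | h0'
  · exact O.piece (s0 := 0.0477) (u1 := 0.00504) (u2 := 0.005311) (x2 := 0.04228) (b2 := 0.1753)
      (A2 := 0.028919) hc.le h0.le h0' (by norm_num) (by norm_num) (by norm_num) (by norm_num)
      (by norm_num) (by norm_num) (by norm_num) (by norm_num) (by norm_num) (by norm_num)
  replace h0 := h0'
  clear h0'
  rcases le_or_gt (‖v‖ ^ 2) 0.005577 with h0' | h0'
  · exact O.piece (s0 := 0.0477) (u1 := 0.005311) (u2 := 0.005577) (x2 := 0.03976) (b2 := 0.1709)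
      (A2 := 0.028766) hc.le h0.le h0' (by norm_num) (by norm_num) (by norm_num) (by norm_num)
      (by norm_num) (by norm_num) (by norm_num) (by norm_num) (by norm_num) (by norm_num)
  replace h0 := h0'
  clear h0'
  rcases le_or_gt (‖v‖ ^ 2) 0.005867 with h0' | h0'
  · exact O.piece (s0 := 0.0477) (u1 := 0.005577) (u2 := 0.005867) (x2 := 0.03728) (b2 := 0.1665)
      (A2 := 0.028614) hc.le h0.le h0' (by norm_num) (by norm_num) (by norm_num) (by norm_num)
      (by norm_num) (by norm_num) (by norm_num) (by norm_num) (by norm_num) (by norm_num)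
  replace h0 := h0'
  clear h0'
  rcases le_or_gt (‖v‖ ^ 2) 0.006215 with h0' | h0'
  · exact O.piece (s0 := 0.0477) (u1 := 0.005867) (u2 := 0.006215) (x2 := 0.03461) (b2 := 0.1617)
      (A2 := 0.02845) hc.le h0.le h0' (by norm_num) (by norm_num) (by norm_num) (by norm_num)
      (by norm_num) (by norm_num) (by norm_num) (by norm_num) (by norm_num) (by norm_num)
  replace h0 := h0'
  clear h0'
  rcases le_or_gt (‖v‖ ^ 2) 0.006694 with h0' | h0'
  · exact O.piece (s0 := 0.0477) (u1 := 0.006215) (u2 := 0.006694) (x2 := 0.03139) (b2 := 0.1558)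
      (A2 := 0.028251) hc.le h0.le h0' (by norm_num) (by norm_num) (by norm_num) (by norm_num)
      (by norm_num) (by norm_num) (by norm_num) (by norm_num) (by norm_num) (by norm_num)
  replace h0 := h0'
  clear h0'
  rcases le_or_gt (‖v‖ ^ 2) 0.00747 with h0' | h0'
  · exact O.piece (s0 := 0.0477) (u1 := 0.006694) (u2 := 0.00747) (x2 := 0.02708) (b2 := 0.1477)
      (A2 := 0.027983) hc.le h0.le h0' (by norm_num) (by norm_num) (by norm_num) (by norm_num)
      (by norm_num) (by norm_num) (by norm_num) (by norm_num) (by norm_num) (by norm_num)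
  replace h0 := h0'
  clear h0'
  rcases le_or_gt (‖v‖ ^ 2) 0.009217 with h0' | h0'
  · exact O.piece (s0 := 0.0477) (u1 := 0.00747) (u2 := 0.009217) (x2 := 0.02008) (b2 := 0.134)
      (A2 := 0.02754) hc.le h0.le h0' (by norm_num) (by norm_num) (by norm_num) (by norm_num)
      (by norm_num) (by norm_num) (by norm_num) (by norm_num) (by norm_num) (by norm_num)
  replace h0 := h0'
  clear h0'
  rcases le_or_gt (‖v‖ ^ 2) 0.017116 with h0' | h0'
  · exact O.piece (s0 := 0.0477) (u1 := 0.009217) (u2 := 0.017116) (x2 := 0.00683) (b2 := 0.1056)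
      (A2 := 0.026665) hc.le h0.le h0' (by norm_num) (by norm_num) (by norm_num) (by norm_num)
      (by norm_num) (by norm_num) (by norm_num) (by norm_num) (by norm_num) (by norm_num)
  replace h0 := h0'
  clear h0'
  exact O.last (s0 := 0.0477) (u1 := 0.017116) (b2 := 0.0001) (A2 := 0.023852) hc.le h0.le
    (by norm_num) (by norm_num) (by norm_num) (by norm_num) (by norm_num) (by norm_num)
    (by norm_num)

/-- `Q_i ≤ 0.0589` for `X = 0.0754` -/
theorem Near.one_0754 (hE : Eps c ≤ 0.0754) (i : Fin 4) {z : E3} (hz : z ∈ K) :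
    Qv a i z ≤ 0.0589 := by
  by_contra hc
  push Not at hc
  have hs := N.A_sum_1115 hK hw (hE.trans (by norm_num))
  have hAm := N.A_sum_le_of (Am := 0.0416) (by norm_num) hE (by norm_num) (by norm_num)
    (by norm_num) hs
  obtain ⟨k, -, -, v, -, -, -, y, O⟩ := N.ob hK hw (t := 0.95) (p := 1.8802) (q := 0.000314)
    (by norm_num) (by norm_num) (by norm_num) hE hAm (by norm_num) (by norm_num)
    (N.hv_of hK hw hAm fun A d r h1 h2 h3 h4 h5 => vt0754 h1 h2 h3 h4 h5) i hz
    (lt_trans (by norm_num) hc)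
  rcases le_or_gt (‖v‖ ^ 2) 0.003811 with h0' | h0'
  · exact O.piece (s0 := 0.0589) (u1 := 0) (u2 := 0.003811) (x2 := 0.09952) (b2 := 0.2683)
      (A2 := 0.040248) hc.le O.u0 h0' (by norm_num) (by norm_num) (by norm_num) (by norm_num)
      (by norm_num) (by norm_num) (by norm_num) (by norm_num) (by norm_num) (by norm_num)
  have h0 := h0'
  clear h0'
  rcases le_or_gt (‖v‖ ^ 2) 0.005181 with h0' | h0'
  · exact O.piece (s0 := 0.0589) (u1 := 0.003811) (u2 := 0.005181) (x2 := 0.0696) (b2 := 0.2251)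
      (A2 := 0.038004) hc.le h0.le h0' (by norm_num) (by norm_num) (by norm_num) (by norm_num)
      (by norm_num) (by norm_num) (by norm_num) (by norm_num) (by norm_num) (by norm_num)
  replace h0 := h0'
  clear h0'
  rcases le_or_gt (‖v‖ ^ 2) 0.00596 with h0' | h0'
  · exact O.piece (s0 := 0.0589) (u1 := 0.005181) (u2 := 0.00596) (x2 := 0.05877) (b2 := 0.2084)
      (A2 := 0.037203) hc.le h0.le h0' (by norm_num) (by norm_num) (by norm_num) (by norm_num)
      (by norm_num) (by norm_num) (by norm_num) (by norm_num) (by norm_num) (by norm_num)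
  replace h0 := h0'
  clear h0'
  rcases le_or_gt (‖v‖ ^ 2) 0.006516 with h0' | h0'
  · exact O.piece (s0 := 0.0589) (u1 := 0.00596) (u2 := 0.006516) (x2 := 0.05263) (b2 := 0.1986)
      (A2 := 0.036748) hc.le h0.le h0' (by norm_num) (by norm_num) (by norm_num) (by norm_num)
      (by norm_num) (by norm_num) (by norm_num) (by norm_num) (by norm_num) (by norm_num)
  replace h0 := h0'
  clear h0'
  rcases le_or_gt (‖v‖ ^ 2) 0.00698 with h0' | h0'
  · exact O.piece (s0 := 0.0589) (u1 := 0.006516) (u2 := 0.00698) (x2 := 0.04827) (b2 := 0.1915)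
      (A2 := 0.036425) hc.le h0.le h0' (by norm_num) (by norm_num) (by norm_num) (by norm_num)
      (by norm_num) (by norm_num) (by norm_num) (by norm_num) (by norm_num) (by norm_num)
  replace h0 := h0'
  clear h0'
  rcases le_or_gt (‖v‖ ^ 2) 0.007426 with h0' | h0'
  · exact O.piece (s0 := 0.0589) (u1 := 0.00698) (u2 := 0.007426) (x2 := 0.04459) (b2 := 0.1854)
      (A2 := 0.036152) hc.le h0.le h0' (by norm_num) (by norm_num) (by norm_num) (by norm_num)
      (by norm_num) (by norm_num) (by norm_num) (by norm_num) (by norm_num) (by norm_num)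
  replace h0 := h0'
  clear h0'
  rcases le_or_gt (‖v‖ ^ 2) 0.007907 with h0' | h0'
  · exact O.piece (s0 := 0.0589) (u1 := 0.007426) (u2 := 0.007907) (x2 := 0.0411) (b2 := 0.1795)
      (A2 := 0.035892) hc.le h0.le h0' (by norm_num) (by norm_num) (by norm_num) (by norm_num)
      (by norm_num) (by norm_num) (by norm_num) (by norm_num) (by norm_num) (by norm_num)
  replace h0 := h0'
  clear h0'
  rcases le_or_gt (‖v‖ ^ 2) 0.008505 with h0' | h0'
  · exact O.piece (s0 := 0.0589) (u1 := 0.007907) (u2 := 0.008505) (x2 := 0.03732) (b2 := 0.173)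
      (A2 := 0.03561) hc.le h0.le h0' (by norm_num) (by norm_num) (by norm_num) (by norm_num)
      (by norm_num) (by norm_num) (by norm_num) (by norm_num) (by norm_num) (by norm_num)
  replace h0 := h0'
  clear h0'
  rcases le_or_gt (‖v‖ ^ 2) 0.009373 with h0' | h0'
  · exact O.piece (s0 := 0.0589) (u1 := 0.008505) (u2 := 0.009373) (x2 := 0.03271) (b2 := 0.1649)
      (A2 := 0.035265) hc.le h0.le h0' (by norm_num) (by norm_num) (by norm_num) (by norm_num)
      (by norm_num) (by norm_num) (by norm_num) (by norm_num) (by norm_num) (by norm_num)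
  replace h0 := h0'
  clear h0'
  rcases le_or_gt (‖v‖ ^ 2) 0.011023 with h0' | h0'
  · exact O.piece (s0 := 0.0589) (u1 := 0.009373) (u2 := 0.011023) (x2 := 0.02599) (b2 := 0.1527)
      (A2 := 0.034757) hc.le h0.le h0' (by norm_num) (by norm_num) (by norm_num) (by norm_num)
      (by norm_num) (by norm_num) (by norm_num) (by norm_num) (by norm_num) (by norm_num)
  replace h0 := h0'
  clear h0'
  rcases le_or_gt (‖v‖ ^ 2) 0.015434 with h0' | h0'
  · exact O.piece (s0 := 0.0589) (u1 := 0.011023) (u2 := 0.015434) (x2 := 0.0153) (b2 := 0.1321)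
      (A2 := 0.033932) hc.le h0.le h0' (by norm_num) (by norm_num) (by norm_num) (by norm_num)
      (by norm_num) (by norm_num) (by norm_num) (by norm_num) (by norm_num) (by norm_num)
  replace h0 := h0'
  clear h0'
  exact O.last (s0 := 0.0589) (u1 := 0.015434) (b2 := 0.0791) (A2 := 0.031979) hc.le h0.le
    (by norm_num) (by norm_num) (by norm_num) (by norm_num) (by norm_num) (by norm_num)
    (by norm_num)

/-- `Q_i ≤ 0.0699` for `X = 0.0904` -/
theorem Near.one_0904 (hE : Eps c ≤ 0.0904) (i : Fin 4) {z : E3} (hz : z ∈ K) :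
    Qv a i z ≤ 0.0699 := by
  by_contra hc
  push Not at hc
  have hs := N.A_sum_1115 hK hw (hE.trans (by norm_num))
  have hAm := N.A_sum_le_of (Am := 0.0512) (by norm_num) hE (by norm_num) (by norm_num)
    (by norm_num) hs
  obtain ⟨k, -, -, v, -, -, -, y, O⟩ := N.ob hK hw (t := 0.95) (p := 1.8756) (q := 0.000364)
    (by norm_num) (by norm_num) (by norm_num) hE hAm (by norm_num) (by norm_num)
    (N.hv_of hK hw hAm fun A d r h1 h2 h3 h4 h5 => vt0904 h1 h2 h3 h4 h5) i hz
    (lt_trans (by norm_num) hc)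
  rcases le_or_gt (‖v‖ ^ 2) 0.004851 with h0' | h0'
  · exact O.piece (s0 := 0.0699) (u1 := 0) (u2 := 0.004851) (x2 := 0.10901) (b2 := 0.2856)
      (A2 := 0.048922) hc.le O.u0 h0' (by norm_num) (by norm_num) (by norm_num) (by norm_num)
      (by norm_num) (by norm_num) (by norm_num) (by norm_num) (by norm_num) (by norm_num)
  have h0 := h0'
  clear h0'
  rcases le_or_gt (‖v‖ ^ 2) 0.006566 with h0' | h0'
  · exact O.piece (s0 := 0.0699) (u1 := 0.004851) (u2 := 0.006566) (x2 := 0.07635) (b2 := 0.2401)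
      (A2 := 0.045992) hc.le h0.le h0' (by norm_num) (by norm_num) (by norm_num) (by norm_num)
      (by norm_num) (by norm_num) (by norm_num) (by norm_num) (by norm_num) (by norm_num)
  replace h0 := h0'
  clear h0'
  rcases le_or_gt (‖v‖ ^ 2) 0.007524 with h0' | h0'
  · exact O.piece (s0 := 0.0699) (u1 := 0.006566) (u2 := 0.007524) (x2 := 0.06463) (b2 := 0.2227)
      (A2 := 0.044963) hc.le h0.le h0' (by norm_num) (by norm_num) (by norm_num) (by norm_num)
      (by norm_num) (by norm_num) (by norm_num) (by norm_num) (by norm_num) (by norm_num)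
  replace h0 := h0'
  clear h0'
  rcases le_or_gt (‖v‖ ^ 2) 0.008198 with h0' | h0'
  · exact O.piece (s0 := 0.0699) (u1 := 0.007524) (u2 := 0.008198) (x2 := 0.05804) (b2 := 0.2126)
      (A2 := 0.044386) hc.le h0.le h0' (by norm_num) (by norm_num) (by norm_num) (by norm_num)
      (by norm_num) (by norm_num) (by norm_num) (by norm_num) (by norm_num) (by norm_num)
  replace h0 := h0'
  clear h0'
  rcases le_or_gt (‖v‖ ^ 2) 0.008746 with h0' | h0'
  · exact O.piece (s0 := 0.0699) (u1 := 0.008198) (u2 := 0.008746) (x2 := 0.05344) (b2 := 0.2054)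
      (A2 := 0.043984) hc.le h0.le h0' (by norm_num) (by norm_num) (by norm_num) (by norm_num)
      (by norm_num) (by norm_num) (by norm_num) (by norm_num) (by norm_num) (by norm_num)
  replace h0 := h0'
  clear h0'
  rcases le_or_gt (‖v‖ ^ 2) 0.009246 with h0' | h0'
  · exact O.piece (s0 := 0.0699) (u1 := 0.008746) (u2 := 0.009246) (x2 := 0.04973) (b2 := 0.1995)
      (A2 := 0.04366) hc.le h0.le h0' (by norm_num) (by norm_num) (by norm_num) (by norm_num)
      (by norm_num) (by norm_num) (by norm_num) (by norm_num) (by norm_num) (by norm_num)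
  replace h0 := h0'
  clear h0'
  rcases le_or_gt (‖v‖ ^ 2) 0.009759 with h0' | h0'
  · exact O.piece (s0 := 0.0699) (u1 := 0.009246) (u2 := 0.009759) (x2 := 0.04632) (b2 := 0.194)
      (A2 := 0.043362) hc.le h0.le h0' (by norm_num) (by norm_num) (by norm_num) (by norm_num)
      (by norm_num) (by norm_num) (by norm_num) (by norm_num) (by norm_num) (by norm_num)
  replace h0 := h0'
  clear h0'
  rcases le_or_gt (‖v‖ ^ 2) 0.010358 with h0' | h0'
  · exact O.piece (s0 := 0.0699) (u1 := 0.009759) (u2 := 0.010358) (x2 := 0.04278) (b2 := 0.1882)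
      (A2 := 0.043052) hc.le h0.le h0' (by norm_num) (by norm_num) (by norm_num) (by norm_num)
      (by norm_num) (by norm_num) (by norm_num) (by norm_num) (by norm_num) (by norm_num)
  replace h0 := h0'
  clear h0'
  rcases le_or_gt (‖v‖ ^ 2) 0.011135 with h0' | h0'
  · exact O.piece (s0 := 0.0699) (u1 := 0.010358) (u2 := 0.011135) (x2 := 0.03876) (b2 := 0.1815)
      (A2 := 0.0427) hc.le h0.le h0' (by norm_num) (by norm_num) (by norm_num) (by norm_num)
      (by norm_num) (by norm_num) (by norm_num) (by norm_num) (by norm_num) (by norm_num)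
  replace h0 := h0'
  clear h0'
  rcases le_or_gt (‖v‖ ^ 2) 0.01236 with h0' | h0'
  · exact O.piece (s0 := 0.0699) (u1 := 0.011135) (u2 := 0.01236) (x2 := 0.03348) (b2 := 0.1725)
      (A2 := 0.042235) hc.le h0.le h0' (by norm_num) (by norm_num) (by norm_num) (by norm_num)
      (by norm_num) (by norm_num) (by norm_num) (by norm_num) (by norm_num) (by norm_num)
  replace h0 := h0'
  clear h0'
  rcases le_or_gt (‖v‖ ^ 2) 0.014527 with h0' | h0'
  · exact O.piece (s0 := 0.0699) (u1 := 0.01236) (u2 := 0.014527) (x2 := 0.02638) (b2 := 0.16)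
      (A2 := 0.041607) hc.le h0.le h0' (by norm_num) (by norm_num) (by norm_num) (by norm_num)
      (by norm_num) (by norm_num) (by norm_num) (by norm_num) (by norm_num) (by norm_num)
  replace h0 := h0'
  clear h0'
  rcases le_or_gt (‖v‖ ^ 2) 0.020379 with h0' | h0'
  · exact O.piece (s0 := 0.0699) (u1 := 0.014527) (u2 := 0.020379) (x2 := 0.01504) (b2 := 0.1389)
      (A2 := 0.040587) hc.le h0.le h0' (by norm_num) (by norm_num) (by norm_num) (by norm_num)
      (by norm_num) (by norm_num) (by norm_num) (by norm_num) (by norm_num) (by norm_num)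
  replace h0 := h0'
  clear h0'
  exact O.last (s0 := 0.0699) (u1 := 0.020379) (b2 := 0.0817) (A2 := 0.038059) hc.le h0.le
    (by norm_num) (by norm_num) (by norm_num) (by norm_num) (by norm_num) (by norm_num)
    (by norm_num)

/-- `Q_i ≤ 0.0809` for `X = 0.1054` -/
theorem Near.one_1054 (hE : Eps c ≤ 0.1054) (i : Fin 4) {z : E3} (hz : z ∈ K) :
    Qv a i z ≤ 0.0809 := by
  by_contra hc
  push Not at hc
  have hs := N.A_sum_1115 hK hw (hE.trans (by norm_num))
  have hAm := N.A_sum_le_of (Am := 0.0612) (by norm_num) hE (by norm_num) (by norm_num)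
    (by norm_num) hs
  obtain ⟨k, -, -, v, -, -, -, y, O⟩ := N.ob hK hw (t := 0.955) (p := 1.8807) (q := 0.000311)
    (by norm_num) (by norm_num) (by norm_num) hE hAm (by norm_num) (by norm_num)
    (N.hv_of hK hw hAm fun A d r h1 h2 h3 h4 h5 => vt1054 h1 h2 h3 h4 h5) i hz
    (lt_trans (by norm_num) hc)
  rcases le_or_gt (‖v‖ ^ 2) 0.005995 with h0' | h0'
  · exact O.piece (s0 := 0.0809) (u1 := 0) (u2 := 0.005995) (x2 := 0.11697) (b2 := 0.3003)
      (A2 := 0.05781) hc.le O.u0 h0' (by norm_num) (by norm_num) (by norm_num) (by norm_num)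
      (by norm_num) (by norm_num) (by norm_num) (by norm_num) (by norm_num) (by norm_num)
  have h0 := h0'
  clear h0'
  rcases le_or_gt (‖v‖ ^ 2) 0.008108 with h0' | h0'
  · exact O.piece (s0 := 0.0809) (u1 := 0.005995) (u2 := 0.008108) (x2 := 0.08168) (b2 := 0.2525)
      (A2 := 0.054113) hc.le h0.le h0' (by norm_num) (by norm_num) (by norm_num) (by norm_num)
      (by norm_num) (by norm_num) (by norm_num) (by norm_num) (by norm_num) (by norm_num)
  replace h0 := h0'
  clear h0'
  rcases le_or_gt (‖v‖ ^ 2) 0.009289 with h0' | h0'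
  · exact O.piece (s0 := 0.0809) (u1 := 0.008108) (u2 := 0.009289) (x2 := 0.069) (b2 := 0.2342)
      (A2 := 0.05282) hc.le h0.le h0' (by norm_num) (by norm_num) (by norm_num) (by norm_num)
      (by norm_num) (by norm_num) (by norm_num) (by norm_num) (by norm_num) (by norm_num)
  replace h0 := h0'
  clear h0'
  rcases le_or_gt (‖v‖ ^ 2) 0.01012 with h0' | h0'
  · exact O.piece (s0 := 0.0809) (u1 := 0.009289) (u2 := 0.01012) (x2 := 0.06187) (b2 := 0.2236)
      (A2 := 0.052099) hc.le h0.le h0' (by norm_num) (by norm_num) (by norm_num) (by norm_num)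
      (by norm_num) (by norm_num) (by norm_num) (by norm_num) (by norm_num) (by norm_num)
  replace h0 := h0'
  clear h0'
  rcases le_or_gt (‖v‖ ^ 2) 0.0108 with h0' | h0'
  · exact O.piece (s0 := 0.0809) (u1 := 0.01012) (u2 := 0.0108) (x2 := 0.05687) (b2 := 0.216)
      (A2 := 0.051594) hc.le h0.le h0' (by norm_num) (by norm_num) (by norm_num) (by norm_num)
      (by norm_num) (by norm_num) (by norm_num) (by norm_num) (by norm_num) (by norm_num)
  replace h0 := h0'
  clear h0'
  rcases le_or_gt (‖v‖ ^ 2) 0.011439 with h0' | h0'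
  · exact O.piece (s0 := 0.0809) (u1 := 0.0108) (u2 := 0.011439) (x2 := 0.05272) (b2 := 0.2096)
      (A2 := 0.051176) hc.le h0.le h0' (by norm_num) (by norm_num) (by norm_num) (by norm_num)
      (by norm_num) (by norm_num) (by norm_num) (by norm_num) (by norm_num) (by norm_num)
  replace h0 := h0'
  clear h0'
  rcases le_or_gt (‖v‖ ^ 2) 0.012101 with h0' | h0'
  · exact O.piece (s0 := 0.0809) (u1 := 0.011439) (u2 := 0.012101) (x2 := 0.04889) (b2 := 0.2036)
      (A2 := 0.050791) hc.le h0.le h0' (by norm_num) (by norm_num) (by norm_num) (by norm_num)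
      (by norm_num) (by norm_num) (by norm_num) (by norm_num) (by norm_num) (by norm_num)
  replace h0 := h0'
  clear h0'
  rcases le_or_gt (‖v‖ ^ 2) 0.012886 with h0' | h0'
  · exact O.piece (s0 := 0.0809) (u1 := 0.012101) (u2 := 0.012886) (x2 := 0.04487) (b2 := 0.1972)
      (A2 := 0.050386) hc.le h0.le h0' (by norm_num) (by norm_num) (by norm_num) (by norm_num)
      (by norm_num) (by norm_num) (by norm_num) (by norm_num) (by norm_num) (by norm_num)
  replace h0 := h0'
  clear h0'
  rcases le_or_gt (‖v‖ ^ 2) 0.013962 with h0' | h0'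
  · exact O.piece (s0 := 0.0809) (u1 := 0.012886) (u2 := 0.013962) (x2 := 0.04011) (b2 := 0.1895)
      (A2 := 0.049907) hc.le h0.le h0' (by norm_num) (by norm_num) (by norm_num) (by norm_num)
      (by norm_num) (by norm_num) (by norm_num) (by norm_num) (by norm_num) (by norm_num)
  replace h0 := h0'
  clear h0'
  rcases le_or_gt (‖v‖ ^ 2) 0.015424 with h0' | h0'
  · exact O.piece (s0 := 0.0809) (u1 := 0.013962) (u2 := 0.015424) (x2 := 0.03474) (b2 := 0.1806)
      (A2 := 0.049365) hc.le h0.le h0' (by norm_num) (by norm_num) (by norm_num) (by norm_num)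
      (by norm_num) (by norm_num) (by norm_num) (by norm_num) (by norm_num) (by norm_num)
  replace h0 := h0'
  clear h0'
  rcases le_or_gt (‖v‖ ^ 2) 0.017906 with h0' | h0'
  · exact O.piece (s0 := 0.0809) (u1 := 0.015424) (u2 := 0.017906) (x2 := 0.0277) (b2 := 0.1686)
      (A2 := 0.048652) hc.le h0.le h0' (by norm_num) (by norm_num) (by norm_num) (by norm_num)
      (by norm_num) (by norm_num) (by norm_num) (by norm_num) (by norm_num) (by norm_num)
  replace h0 := h0'
  clear h0'
  rcases le_or_gt (‖v‖ ^ 2) 0.024346 with h0' | h0'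
  · exact O.piece (s0 := 0.0809) (u1 := 0.017906) (u2 := 0.024346) (x2 := 0.01642) (b2 := 0.1484)
      (A2 := 0.047498) hc.le h0.le h0' (by norm_num) (by norm_num) (by norm_num) (by norm_num)
      (by norm_num) (by norm_num) (by norm_num) (by norm_num) (by norm_num) (by norm_num)
  replace h0 := h0'
  clear h0'
  exact O.last (s0 := 0.0809) (u1 := 0.024346) (b2 := 0.0957) (A2 := 0.04473) hc.le h0.le
    (by norm_num) (by norm_num) (by norm_num) (by norm_num) (by norm_num) (by norm_num)
    (by norm_num)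

/-- `Q_i ≤ 0.0919` for `X = 0.1204` -/
theorem Near.one_1204 (hE : Eps c ≤ 0.1204) (i : Fin 4) {z : E3} (hz : z ∈ K) :
    Qv a i z ≤ 0.0919 := by
  by_contra hc
  push Not at hc
  have hs := N.A_sum_1115 hK hw (hE.trans (by norm_num))
  have hAm := N.A_sum_le_of (Am := 0.0719) (by norm_num) hE (by norm_num) (by norm_num)
    (by norm_num) hs
  obtain ⟨k, -, -, v, -, -, -, y, O⟩ := N.ob hK hw (t := 0.965) (p := 1.8953) (q := 0.000193)
    (by norm_num) (by norm_num) (by norm_num) hE hAm (by norm_num) (by norm_num)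
    (N.hv_of hK hw hAm fun A d r h1 h2 h3 h4 h5 => vt1204 h1 h2 h3 h4 h5) i hz
    (lt_trans (by norm_num) hc)
  rcases le_or_gt (‖v‖ ^ 2) 0.007194 with h0' | h0'
  · exact O.piece (s0 := 0.0919) (u1 := 0) (u2 := 0.007194) (x2 := 0.12465) (b2 := 0.3142)
      (A2 := 0.067002) hc.le O.u0 h0' (by norm_num) (by norm_num) (by norm_num) (by norm_num)
      (by norm_num) (by norm_num) (by norm_num) (by norm_num) (by norm_num) (by norm_num)
  have h0 := h0'
  clear h0'
  rcases le_or_gt (‖v‖ ^ 2) 0.009704 with h0' | h0'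
  · exact O.piece (s0 := 0.0919) (u1 := 0.007194) (u2 := 0.009704) (x2 := 0.08702) (b2 := 0.2645)
      (A2 := 0.062474) hc.le h0.le h0' (by norm_num) (by norm_num) (by norm_num) (by norm_num)
      (by norm_num) (by norm_num) (by norm_num) (by norm_num) (by norm_num) (by norm_num)
  replace h0 := h0'
  clear h0'
  rcases le_or_gt (‖v‖ ^ 2) 0.011093 with h0' | h0'
  · exact O.piece (s0 := 0.0919) (u1 := 0.009704) (u2 := 0.011093) (x2 := 0.07357) (b2 := 0.2456)
      (A2 := 0.060909) hc.le h0.le h0' (by norm_num) (by norm_num) (by norm_num) (by norm_num)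
      (by norm_num) (by norm_num) (by norm_num) (by norm_num) (by norm_num) (by norm_num)
  replace h0 := h0'
  clear h0'
  rcases le_or_gt (‖v‖ ^ 2) 0.012063 with h0' | h0'
  · exact O.piece (s0 := 0.0919) (u1 := 0.011093) (u2 := 0.012063) (x2 := 0.06604) (b2 := 0.2347)
      (A2 := 0.060041) hc.le h0.le h0' (by norm_num) (by norm_num) (by norm_num) (by norm_num)
      (by norm_num) (by norm_num) (by norm_num) (by norm_num) (by norm_num) (by norm_num)
  replace h0 := h0'
  clear h0'
  rcases le_or_gt (‖v‖ ^ 2) 0.012844 with h0' | h0'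
  · exact O.piece (s0 := 0.0919) (u1 := 0.012063) (u2 := 0.012844) (x2 := 0.06082) (b2 := 0.227)
      (A2 := 0.059443) hc.le h0.le h0' (by norm_num) (by norm_num) (by norm_num) (by norm_num)
      (by norm_num) (by norm_num) (by norm_num) (by norm_num) (by norm_num) (by norm_num)
  replace h0 := h0'
  clear h0'
  rcases le_or_gt (‖v‖ ^ 2) 0.013563 with h0' | h0'
  · exact O.piece (s0 := 0.0919) (u1 := 0.012844) (u2 := 0.013563) (x2 := 0.05655) (b2 := 0.2206)
      (A2 := 0.058955) hc.le h0.le h0' (by norm_num) (by norm_num) (by norm_num) (by norm_num)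
      (by norm_num) (by norm_num) (by norm_num) (by norm_num) (by norm_num) (by norm_num)
  replace h0 := h0'
  clear h0'
  rcases le_or_gt (‖v‖ ^ 2) 0.014293 with h0' | h0'
  · exact O.piece (s0 := 0.0919) (u1 := 0.013563) (u2 := 0.014293) (x2 := 0.05267) (b2 := 0.2147)
      (A2 := 0.058512) hc.le h0.le h0' (by norm_num) (by norm_num) (by norm_num) (by norm_num)
      (by norm_num) (by norm_num) (by norm_num) (by norm_num) (by norm_num) (by norm_num)
  replace h0 := h0'
  clear h0'
  rcases le_or_gt (‖v‖ ^ 2) 0.015125 with h0' | h0'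
  · exact O.piece (s0 := 0.0919) (u1 := 0.014293) (u2 := 0.015125) (x2 := 0.04871) (b2 := 0.2086)
      (A2 := 0.058061) hc.le h0.le h0' (by norm_num) (by norm_num) (by norm_num) (by norm_num)
      (by norm_num) (by norm_num) (by norm_num) (by norm_num) (by norm_num) (by norm_num)
  replace h0 := h0'
  clear h0'
  rcases le_or_gt (‖v‖ ^ 2) 0.016081 with h0' | h0'
  · exact O.piece (s0 := 0.0919) (u1 := 0.015125) (u2 := 0.016081) (x2 := 0.04468) (b2 := 0.2023)
      (A2 := 0.057603) hc.le h0.le h0' (by norm_num) (by norm_num) (by norm_num) (by norm_num)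
      (by norm_num) (by norm_num) (by norm_num) (by norm_num) (by norm_num) (by norm_num)
  replace h0 := h0'
  clear h0'
  rcases le_or_gt (‖v‖ ^ 2) 0.017226 with h0' | h0'
  · exact O.piece (s0 := 0.0919) (u1 := 0.016081) (u2 := 0.017226) (x2 := 0.04046) (b2 := 0.1956)
      (A2 := 0.057123) hc.le h0.le h0' (by norm_num) (by norm_num) (by norm_num) (by norm_num)
      (by norm_num) (by norm_num) (by norm_num) (by norm_num) (by norm_num) (by norm_num)
  replace h0 := h0'
  clear h0'
  rcases le_or_gt (‖v‖ ^ 2) 0.018781 with h0' | h0'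
  · exact O.piece (s0 := 0.0919) (u1 := 0.017226) (u2 := 0.018781) (x2 := 0.03558) (b2 := 0.1877)
      (A2 := 0.056567) hc.le h0.le h0' (by norm_num) (by norm_num) (by norm_num) (by norm_num)
      (by norm_num) (by norm_num) (by norm_num) (by norm_num) (by norm_num) (by norm_num)
  replace h0 := h0'
  clear h0'
  rcases le_or_gt (‖v‖ ^ 2) 0.021382 with h0' | h0'
  · exact O.piece (s0 := 0.0919) (u1 := 0.018781) (u2 := 0.021382) (x2 := 0.02907) (b2 := 0.1769)
      (A2 := 0.055825) hc.le h0.le h0' (by norm_num) (by norm_num) (by norm_num) (by norm_num)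
      (by norm_num) (by norm_num) (by norm_num) (by norm_num) (by norm_num) (by norm_num)
  replace h0 := h0'
  clear h0'
  rcases le_or_gt (‖v‖ ^ 2) 0.027699 with h0' | h0'
  · exact O.piece (s0 := 0.0919) (u1 := 0.021382) (u2 := 0.027699) (x2 := 0.0186) (b2 := 0.1588)
      (A2 := 0.054624) hc.le h0.le h0' (by norm_num) (by norm_num) (by norm_num) (by norm_num)
      (by norm_num) (by norm_num) (by norm_num) (by norm_num) (by norm_num) (by norm_num)
  replace h0 := h0'
  clear h0'
  exact O.last (s0 := 0.0919) (u1 := 0.027699) (b2 := 0.1148) (A2 := 0.051909) hc.le h0.le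
    (by norm_num) (by norm_num) (by norm_num) (by norm_num) (by norm_num) (by norm_num)
    (by norm_num)

end near

/-! ### the violations -/

variable {K : Set E3} {σ : Measure (E3 × E3)} {a c : Fin 4 → E3} {S : Fin 4 → ℝ} {X B β : ℝ}

theorem S_le_of (hV : Viol K a S) (hβ : 0 ≤ β) (H : ∀ i, ∀ z ∈ K, Qv a i z ≤ β) (i : Fin 4) :
    S i ≤ β := by
  rcases hV.att i with h | ⟨z, hz, h⟩
  · rw [h]; exact hβ
  · rw [← h]; exact H i z hz

/-- `β` bounds every violation of all bodies with `Eps ≤ X` -/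
def OneB (X β : ℝ) : Prop :=
  ∀ (K : Set E3) (σ : Measure (E3 × E3)) (a c : Fin 4 → E3) (S : Fin 4 → ℝ),
    CN K σ a c → EpsLe c X → Viol K a S → ∀ i, S i ≤ β

theorem OneB.mono {X' β' : ℝ} (h : OneB X β) (hX : X' ≤ X) (hB : β ≤ β') : OneB X' β' := by
  intro K σ a c S hC hE hV i
  refine (h K σ a c S hC ?_ hV i).trans hB
  unfold EpsLe at hE ⊢
  linarith

/-- the bound may be added to any set of states -/
theorem coreP_oneB {P : (Fin 4 → ℝ) → Prop} {κ : ℝ} (hB : OneB X β)
    (h : CoreP (fun S => P S ∧ ∀ i, S i ≤ β) X κ) : CoreP P X κ := by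
  intro K σ hσ a c hC hE S hV hS i
  exact h K σ hσ a c hC hE S hV ⟨hS, hB K σ a c S hC hE hV⟩ i

/-- what is known about the states: `StX`, the sum and the single violations -/
structure StY (X B β : ℝ) (S : Fin 4 → ℝ) : Prop extends StX X S where
  sumB : ∑ i, S i ≤ B
  one : ∀ i, S i ≤ β

/-- the core statement from the states that occur -/
theorem coreX_stY {κ : ℝ} (hX : X ≤ 0.1774) (hB : SumB X B) (hO : OneB X β)
    (h : CoreP (StY X B β) X κ) : CoreX X κ :=
  coreX_of_one (fun K σ _ a c hC hE _ hV =>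
    ⟨stX hC hX hE hV, hB K σ a c _ hC hE hV, hO K σ a c _ hC hE hV⟩) h

theorem coreP_stY {P : (Fin 4 → ℝ) → Prop} {κ : ℝ} (hX : X ≤ 0.1774) (hB : SumB X B)
    (hO : OneB X β) (h : CoreP (fun S => P S ∧ StY X B β S) X κ) : CoreP P X κ := by
  intro K σ hσ a c hC hE S hV hS i
  exact h K σ hσ a c hC hE S hV
    ⟨hS, stX hC hX hE hV, hB K σ a c _ hC hE hV, hO K σ a c _ hC hE hV⟩ i

theorem oneB_0104 : OneB 0.0104 0.00905 := fun _ _ _ _ _ hC hE hV =>
  S_le_of hV (by norm_num) fun i _ hz => hC.near.one_0104 hC.cpt hC.w1 (eps_of_epsLe hE) i hz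

theorem oneB_0204 : OneB 0.0204 0.0172 := fun _ _ _ _ _ hC hE hV =>
  S_le_of hV (by norm_num) fun i _ hz => hC.near.one_0204 hC.cpt hC.w1 (eps_of_epsLe hE) i hz

theorem oneB_0304 : OneB 0.0304 0.025 := fun _ _ _ _ _ hC hE hV =>
  S_le_of hV (by norm_num) fun i _ hz => hC.near.one_0304 hC.cpt hC.w1 (eps_of_epsLe hE) i hz

theorem oneB_0404 : OneB 0.0404 0.0327 := fun _ _ _ _ _ hC hE hV =>
  S_le_of hV (by norm_num) fun i _ hz => hC.near.one_0404 hC.cpt hC.w1 (eps_of_epsLe hE) i hz

theorem oneB_0504 : OneB 0.0504 0.0403 := fun _ _ _ _ _ hC hE hV =>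
  S_le_of hV (by norm_num) fun i _ hz => hC.near.one_0504 hC.cpt hC.w1 (eps_of_epsLe hE) i hz

theorem oneB_0604 : OneB 0.0604 0.0477 := fun _ _ _ _ _ hC hE hV =>
  S_le_of hV (by norm_num) fun i _ hz => hC.near.one_0604 hC.cpt hC.w1 (eps_of_epsLe hE) i hz

theorem oneB_0754 : OneB 0.0754 0.0589 := fun _ _ _ _ _ hC hE hV =>
  S_le_of hV (by norm_num) fun i _ hz => hC.near.one_0754 hC.cpt hC.w1 (eps_of_epsLe hE) i hz

theorem oneB_0904 : OneB 0.0904 0.0699 := fun _ _ _ _ _ hC hE hV =>
  S_le_of hV (by norm_num) fun i _ hz => hC.near.one_0904 hC.cpt hC.w1 (eps_of_epsLe hE) i hz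

theorem oneB_1054 : OneB 0.1054 0.0809 := fun _ _ _ _ _ hC hE hV =>
  S_le_of hV (by norm_num) fun i _ hz => hC.near.one_1054 hC.cpt hC.w1 (eps_of_epsLe hE) i hz

theorem oneB_1204 : OneB 0.1204 0.0919 := fun _ _ _ _ _ hC hE hV =>
  S_le_of hV (by norm_num) fun i _ hz => hC.near.one_1204 hC.cpt hC.w1 (eps_of_epsLe hE) i hz

end Helper13.PLM
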