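import Pool.Agent.Helper13.PLM.Alg

/-!
# Placement of a regular tetrahedron: existence by Brouwer
-/

set_option autoImplicit false

namespace Helper13.PLM

open Set Metric Finset Helper80.CW Helper82.CW Helper14.CW
open scoped RealInnerProductSpace

variable {K : Set E3} {a c : Fin 4 → E3}

/-- Kronecker delta -/
noncomputable def dl (i j : Fin 4) : ℝ := if i = j then 1 else 0

theorem gram_dl (h : Gram4 a) (i j : Fin 4) : ⟪a i, a j⟫ = 1 / 2 * dl i j - 1 / 8 := by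
  unfold dl
  by_cases hij : i = j
  · subst hij; rw [h.diag, if_pos rfl]; norm_num
  · rw [h.off i j hij, if_neg hij]; norm_num

theorem sum_zero (h : Gram4 a) : ∑ i, a i = 0 := by
  rw [Fin.sum_univ_four]; exact h.sum

theorem tight' (h : Gram4 a) (x : E3) : ∑ j, ⟪a j, x⟫ • a j = (1 / 2 : ℝ) • x := by
  have h1 := h.tight x
  rw [Fin.sum_univ_four]
  conv_rhs => rw [h1]
  module

/-- the sixteen normals -/
noncomputable def nu (a : Fin 4 → E3) (i j : Fin 4) : E3 := cr (a j) (a i)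

theorem nu_inner (a : Fin 4 → E3) (i j : Fin 4) (w : E3) :
    ⟪nu a i j, w⟫ = ⟪a i, cr w (a j)⟫ := by
  unfold nu
  rw [inn, inn]; simp only [cr0, cr1, cr2]; ring

theorem key_id (h : Gram4 a) (i j k l : Fin 4) :
    ⟪a i - a j, a k - a l⟫ + 8 * ⟪nu a i j, nu a k l⟫ =
      2 * (dl i k * dl j l - dl i l * dl j k) := by
  unfold nu
  rw [cr_lag]
  simp only [inner_sub_left, inner_sub_right, gram_dl h]
  ring

theorem nu_sq (h : Gram4 a) (i j : Fin 4) : ⟪nu a i j, nu a i j⟫ ≤ 1 / 8 := by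
  unfold nu
  rw [cr_lag, gram_dl h, gram_dl h, gram_dl h, gram_dl h]
  unfold dl
  by_cases hij : i = j
  · subst hij; simp
  · rw [if_neg hij, if_neg (Ne.symm hij), if_pos rfl, if_pos rfl]; norm_num

theorem nu_self (a : Fin 4 → E3) (i : Fin 4) : nu a i i = 0 := by
  unfold nu
  apply ext3 <;> simp only [cr0, cr1, cr2, PiLp.zero_apply] <;> ring

theorem nu_anti (a : Fin 4 → E3) (i j : Fin 4) : nu a j i = -nu a i j := cr_anti _ _

theorem P_bound (h : Gram4 a) (i j : Fin 4) (w : E3) : |⟪nu a i j, w⟫| ≤ 0.35356 * ‖w‖ := by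
  have h1 := abs_real_inner_le_norm (nu a i j) w
  have h2 : ‖nu a i j‖ ≤ 0.35356 := by
    have h3 := nu_sq h i j
    rw [real_inner_self_eq_norm_sq] at h3
    nlinarith [norm_nonneg (nu a i j)]
  exact h1.trans (mul_le_mul_of_nonneg_right h2 (norm_nonneg _))

/-- the excess of the support function over one half -/
noncomputable def et (K : Set E3) (u : E3) : ℝ := supp K u - 1 / 2

theorem supp_continuous (hK : IsCompact K) (hne : K.Nonempty) : Continuous (supp K) := by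
  obtain ⟨M, hM⟩ := hK.isBounded.exists_norm_le
  have hM0 : 0 ≤ M := by
    obtain ⟨x, hx⟩ := hne
    exact (norm_nonneg x).trans (hM x hx)
  have key : ∀ x y, supp K x - supp K y ≤ M * ‖x - y‖ := by
    intro x y
    obtain ⟨p, hp, hpx⟩ := supp_attained hK hne x
    have h1 := supp_ge hK hne y hp
    have h2 : ⟪p, x - y⟫ ≤ ‖p‖ * ‖x - y‖ := real_inner_le_norm _ _
    rw [inner_sub_right] at h2
    have h3 := mul_le_mul_of_nonneg_right (hM p hp) (norm_nonneg (x - y))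
    linarith
  refine (LipschitzWith.of_dist_le_mul (K := ⟨M, hM0⟩) fun x y => ?_).continuous
  rw [Real.dist_eq, dist_eq_norm]
  show |supp K x - supp K y| ≤ M * ‖x - y‖
  rw [abs_le]
  constructor
  · have := key y x
    rw [norm_sub_rev] at this
    linarith
  · exact key x y

/-- pinching -/
theorem et_pinch (hK : IsCompact K) (hw : Width1 K) (hc : ∀ i, c i ∈ K) (i j : Fin 4) {u : E3}
    (hu : ‖u‖ = 1) : ⟪c i, u⟫ - 1 / 2 ≤ et K u ∧ et K u ≤ 1 / 2 + ⟪c j, u⟫ := by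
  have h1 := supp_ge hK hw.nonempty u (hc i)
  have h2 := supp_ge hK hw.nonempty (-u) (hc j)
  have h3 := supp_width hK hw u
  rw [inner_neg_right] at h2
  unfold et
  constructor <;> linarith

theorem et_odd (hK : IsCompact K) (hw : Width1 K) {u : E3} (hu : ‖u‖ = 1) :
    et K (-u) = - et K u := by
  have h3 := supp_width hK hw u
  unfold et
  linarith

theorem e_norm (h : Gram4 a) {i j : Fin 4} (hij : i ≠ j) : ‖a i - a j‖ = 1 := by
  have h1 : ⟪a i - a j, a i - a j⟫ = (1 : ℝ) := by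
    simp only [inner_sub_left, inner_sub_right, gram_dl h]
    unfold dl
    rw [if_pos rfl, if_pos rfl, if_neg hij, if_neg (Ne.symm hij)]
    norm_num
  rw [real_inner_self_eq_norm_sq] at h1
  nlinarith [norm_nonneg (a i - a j)]

theorem rt_norm (w x : E3) : ‖rt w x‖ = ‖x‖ := by
  have h := rt_inner w x x
  rw [real_inner_self_eq_norm_sq, real_inner_self_eq_norm_sq] at h
  nlinarith [norm_nonneg x, norm_nonneg (rt w x)]

theorem rt_cont (x : E3) : Continuous fun w : E3 => rt w x := by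
  have h : (fun w : E3 => rt w x) = fun w : E3 =>
      x + (2 / (1 + ⟪w, w⟫)) • (cr w x + (⟪w, x⟫ • w - ⟪w, w⟫ • x)) := by
    funext w
    rw [rt_apply, cr_cr]
  rw [h]
  have h1 := cr_cont x
  have h0 : Continuous fun w : E3 => (⟪w, w⟫ : ℝ) := continuous_id.inner continuous_id
  have h0' : Continuous fun w : E3 => (⟪w, x⟫ : ℝ) := continuous_id.inner continuous_const
  have h2 : Continuous fun w : E3 => 2 / (1 + (⟪w, w⟫ : ℝ)) :=
    continuous_const.div (continuous_const.add h0) (fun w => (one_add_pos w).ne')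
  refine continuous_const.add (h2.smul (h1.add ?_))
  exact (h0'.smul continuous_id).sub (h0.smul continuous_const)

/-- the vector field -/
noncomputable def Psi (K : Set E3) (a : Fin 4 → E3) (w : E3) : E3 :=
  ∑ i, ∑ j, et K (rt w (a i - a j)) • rt w (nu a i j)

theorem Psi_cont (hK : IsCompact K) (hw : Width1 K) : Continuous (Psi K a) := by
  have hs := supp_continuous hK hw.nonempty
  unfold Psi
  refine continuous_finsetSum _ fun i _ => continuous_finsetSum _ fun j _ => ?_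
  have h1 : Continuous fun w : E3 => et K (rt w (a i - a j)) := by
    unfold et
    exact (hs.comp (rt_cont _)).sub continuous_const
  exact h1.smul (rt_cont _)

/-- the quadratic form of the frame -/
noncomputable def Qf (a c : Fin 4 → E3) (w : E3) : ℝ := -∑ i, ⟪c i, cr w (cr w (a i))⟫

/-- trace of the frame -/
noncomputable def Gf (a c : Fin 4 → E3) : ℝ := ∑ i, ⟪c i, a i⟫

theorem rt_cr (w x : E3) : rt w (cr w x) =
    (1 - 2 / (1 + ⟪w, w⟫) * ⟪w, w⟫) • cr w x + (2 / (1 + ⟪w, w⟫)) • cr w (cr w x) := by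
  have h3 : cr w (cr w (cr w x)) = -(⟪w, w⟫ • cr w x) := by
    rw [cr_cr w (cr w x)]
    have : ⟪w, cr w x⟫ = 0 := by
      rw [inn]; simp only [cr0, cr1, cr2]; ring
    rw [this]; simp
  rw [rt_apply, h3]
  module

theorem sum_rt (H1 : ∀ w, ∑ i, ⟪c i, cr w (a i)⟫ = 0) (w : E3) :
    ∑ i, ⟪c i, rt w (a i)⟫ = Gf a c - 2 / (1 + ⟪w, w⟫) * Qf a c w := by
  have h1 : ∀ i, ⟪c i, rt w (a i)⟫ = ⟪c i, a i⟫ + 2 / (1 + ⟪w, w⟫) * ⟪c i, cr w (a i)⟫ +
      2 / (1 + ⟪w, w⟫) * ⟪c i, cr w (cr w (a i))⟫ := by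
    intro i
    rw [rt_apply, inner_add_right, inner_smul_right, inner_add_right]
    ring
  rw [Finset.sum_congr rfl fun i _ => h1 i, Finset.sum_add_distrib, Finset.sum_add_distrib,
    ← Finset.mul_sum, ← Finset.mul_sum, H1 w]
  unfold Gf Qf
  ring

theorem sum_rt_cr (H1 : ∀ w, ∑ i, ⟪c i, cr w (a i)⟫ = 0) (w : E3) :
    ∑ i, ⟪c i, rt w (cr w (a i))⟫ = -(2 / (1 + ⟪w, w⟫) * Qf a c w) := by
  have h1 : ∀ i, ⟪c i, rt w (cr w (a i))⟫ =
      (1 - 2 / (1 + ⟪w, w⟫) * ⟪w, w⟫) * ⟪c i, cr w (a i)⟫ +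
      2 / (1 + ⟪w, w⟫) * ⟪c i, cr w (cr w (a i))⟫ := by
    intro i
    rw [rt_cr, inner_add_right, inner_smul_right, inner_smul_right]
  rw [Finset.sum_congr rfl fun i _ => h1 i, Finset.sum_add_distrib,
    ← Finset.mul_sum, ← Finset.mul_sum, H1 w]
  unfold Qf
  ring

/-- main identity -/
theorem main_id (h : Gram4 a) (H1 : ∀ w, ∑ i, ⟪c i, cr w (a i)⟫ = 0) (w : E3) :
    ∑ i, ∑ j, ⟪(1 / 2 : ℝ) • (c i + c j), rt w (a i - a j)⟫ * ⟪nu a i j, w⟫ =
      -(1 / 2 * (2 / (1 + ⟪w, w⟫) * Qf a c w)) := by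
  -- symmetry
  have hsym : ∑ i, ∑ j, ⟪c j, rt w (a i - a j)⟫ * ⟪nu a i j, w⟫ =
      ∑ i, ∑ j, ⟪c i, rt w (a i - a j)⟫ * ⟪nu a i j, w⟫ := by
    rw [Finset.sum_comm]
    refine Finset.sum_congr rfl fun i _ => Finset.sum_congr rfl fun j _ => ?_
    rw [nu_anti a i j, inner_neg_left, ← neg_sub (a i) (a j), map_neg, inner_neg_right]
    ring
  have h0 : ∑ i, ∑ j, ⟪(1 / 2 : ℝ) • (c i + c j), rt w (a i - a j)⟫ * ⟪nu a i j, w⟫ =
      ∑ i, ∑ j, ⟪c i, rt w (a i - a j)⟫ * ⟪nu a i j, w⟫ := by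
    have h1 : ∀ i j, ⟪(1 / 2 : ℝ) • (c i + c j), rt w (a i - a j)⟫ * ⟪nu a i j, w⟫ =
        1 / 2 * (⟪c i, rt w (a i - a j)⟫ * ⟪nu a i j, w⟫) +
        1 / 2 * (⟪c j, rt w (a i - a j)⟫ * ⟪nu a i j, w⟫) := by
      intro i j
      rw [real_inner_smul_left, inner_add_left]; ring
    simp only [h1, Finset.sum_add_distrib, ← Finset.mul_sum]
    rw [hsym]; ring
  rw [h0]
  have h2 : ∀ i, ∑ j, ⟪c i, rt w (a i - a j)⟫ * ⟪nu a i j, w⟫ =
      1 / 2 * ⟪c i, rt w (cr w (a i))⟫ := by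
    intro i
    have h3 : ∑ j, ⟪nu a i j, w⟫ • (a i - a j) = (1 / 2 : ℝ) • cr w (a i) := by
      have h4 : ∑ j, ⟪nu a i j, w⟫ = (0 : ℝ) := by
        simp only [nu_inner]
        rw [← inner_sum]
        have : ∑ j, cr w (a j) = 0 := by
          have h5 : ∑ j, cr w (a j) = cr w (∑ j, a j) := by
            rw [Fin.sum_univ_four, Fin.sum_univ_four, cr_add, cr_add, cr_add]
          rw [h5, sum_zero h, cr_zero]
        rw [this, inner_zero_right]
      have h5 : ∑ j, ⟪nu a i j, w⟫ • a j = -((1 / 2 : ℝ) • cr w (a i)) := by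
        rw [← tight' h (cr w (a i)), ← Finset.sum_neg_distrib]
        refine Finset.sum_congr rfl fun j _ => ?_
        rw [nu_inner, cr_skew, real_inner_comm, neg_smul]
      simp only [smul_sub, Finset.sum_sub_distrib, ← Finset.sum_smul]
      rw [h4, h5]; simp
    have h6 : ∑ j, ⟪c i, rt w (a i - a j)⟫ * ⟪nu a i j, w⟫ =
        ⟪c i, rt w (∑ j, ⟪nu a i j, w⟫ • (a i - a j))⟫ := by
      rw [map_sum, inner_sum]
      refine Finset.sum_congr rfl fun j _ => ?_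
      rw [map_smul, inner_smul_right]; ring
    rw [h6, h3, map_smul, inner_smul_right]
  rw [Finset.sum_congr rfl fun i _ => h2 i, ← Finset.mul_sum, sum_rt_cr H1]
  ring

/-- total deficiency -/
theorem kap_sum (h : Gram4 a) (H1 : ∀ w, ∑ i, ⟪c i, cr w (a i)⟫ = 0) (w : E3) :
    ∑ i, ∑ j, ((1 - dl i j) - ⟪c i - c j, rt w (a i - a j)⟫) =
      12 - 8 * (Gf a c - 2 / (1 + ⟪w, w⟫) * Qf a c w) := by
  have h1 : ∑ i, ∑ j, (1 - dl i j) = 12 := by
    unfold dl
    simp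
    norm_num
  have h2 : ∑ i, ∑ j, ⟪c i - c j, rt w (a i - a j)⟫ = 8 * ∑ i, ⟪c i, rt w (a i)⟫ := by
    have h3 : rt w (∑ j, a j) = 0 := by rw [sum_zero h, map_zero]
    have h4 : ∀ x : E3, ∑ j, ⟪x, rt w (a j)⟫ = 0 := by
      intro x
      rw [← inner_sum, ← map_sum, h3, inner_zero_right]
    have h5 : ∀ i j, ⟪c i - c j, rt w (a i - a j)⟫ = ⟪c i, rt w (a i)⟫ - ⟪c i, rt w (a j)⟫ -
        ⟪c j, rt w (a i)⟫ + ⟪c j, rt w (a j)⟫ := by
      intro i j
      rw [map_sub, inner_sub_left, inner_sub_right, inner_sub_right]; ring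
    simp only [h5, Finset.sum_add_distrib, Finset.sum_sub_distrib]
    have h6 : ∑ i, ∑ j, ⟪c j, rt w (a i)⟫ = 0 := by
      rw [Finset.sum_comm]
      exact Finset.sum_eq_zero fun i _ => h4 _
    rw [h6, Finset.sum_eq_zero fun i _ => h4 (c i)]
    simp only [Finset.sum_const, Finset.card_univ, Fintype.card_fin, nsmul_eq_mul]
    rw [← Finset.mul_sum]
    push_cast
    ring
  simp only [Finset.sum_sub_distrib] at h1 ⊢
  rw [h1, h2, sum_rt H1]

/-- boundary estimate -/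
theorem Psi_inner (hK : IsCompact K) (hw : Width1 K) (h : Gram4 a) (hc : ∀ i, c i ∈ K)
    (H1 : ∀ w, ∑ i, ⟪c i, cr w (a i)⟫ = 0) (w : E3) :
    ⟪Psi K a w, w⟫ ≤ -(1 / 2 * (2 / (1 + ⟪w, w⟫) * Qf a c w)) +
      1 / 2 * (0.35356 * ‖w‖) * (12 - 8 * (Gf a c - 2 / (1 + ⟪w, w⟫) * Qf a c w)) := by
  rw [← main_id h H1 w, ← kap_sum h H1 w]
  have h1 : ⟪Psi K a w, w⟫ = ∑ i, ∑ j, et K (rt w (a i - a j)) * ⟪nu a i j, w⟫ := by
    unfold Psi
    rw [sum_inner]
    refine Finset.sum_congr rfl fun i _ => ?_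
    rw [sum_inner]
    refine Finset.sum_congr rfl fun j _ => ?_
    rw [real_inner_smul_left, rt_self]
  rw [h1, Finset.mul_sum, ← Finset.sum_add_distrib]
  refine Finset.sum_le_sum fun i _ => ?_
  rw [Finset.mul_sum, ← Finset.sum_add_distrib]
  refine Finset.sum_le_sum fun j _ => ?_
  by_cases hij : i = j
  · subst hij
    rw [nu_self]
    unfold dl
    simp
  · have hu : ‖rt w (a i - a j)‖ = 1 := by rw [rt_norm, e_norm h hij]
    obtain ⟨p1, p2⟩ := et_pinch hK hw hc i j hu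
    have hP := P_bound h i j w
    set u := rt w (a i - a j) with hu'
    set P : ℝ := ⟪nu a i j, w⟫ with hP'
    have e1 : ⟪(1 / 2 : ℝ) • (c i + c j), u⟫ = 1 / 2 * (⟪c i, u⟫ + ⟪c j, u⟫) := by
      rw [real_inner_smul_left, inner_add_left]
    have e2 : (1 - dl i j) - ⟪c i - c j, u⟫ = 1 - ⟪c i, u⟫ + ⟪c j, u⟫ := by
      unfold dl
      rw [if_neg hij, inner_sub_left]; ring
    rw [e1, e2]
    have hk : 0 ≤ 1 - ⟪c i, u⟫ + ⟪c j, u⟫ := by linarith
    have h3 : |et K u - 1 / 2 * (⟪c i, u⟫ + ⟪c j, u⟫)| ≤ 1 / 2 * (1 - ⟪c i, u⟫ + ⟪c j, u⟫) := by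
      rw [abs_le]; constructor <;> linarith
    have h4 : (et K u - 1 / 2 * (⟪c i, u⟫ + ⟪c j, u⟫)) * P ≤
        1 / 2 * (1 - ⟪c i, u⟫ + ⟪c j, u⟫) * (0.35356 * ‖w‖) := by
      refine (le_abs_self _).trans ?_
      rw [abs_mul]
      exact mul_le_mul h3 hP (abs_nonneg _) (by linarith)
    linarith

end Helper13.PLM
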