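import Pool.Agent.Helper13.PLM.PlA

/-!
# Placement of a regular tetrahedron: the placement from a frame
-/

set_option autoImplicit false

namespace Helper13.PLM

open Set Metric Finset Helper80.CW Helper82.CW Helper14.CW
open scoped RealInnerProductSpace

variable {K : Set E3} {a c : Fin 4 → E3}

theorem dl_sum (F : Fin 4 → Fin 4 → ℝ) (k l : Fin 4) :
    ∑ i, ∑ j, F i j * (dl i k * dl j l) = F k l := by
  unfold dl
  rw [Finset.sum_eq_single k, Finset.sum_eq_single l]
  · simp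
  · intro j _ hj; simp [hj]
  · intro h; exact absurd (Finset.mem_univ _) h
  · intro i _ hi
    exact Finset.sum_eq_zero fun j _ => by simp [hi]
  · intro h; exact absurd (Finset.mem_univ _) h

/-- solution of the six equations -/
theorem solve (hK : IsCompact K) (hw : Width1 K) (h : Gram4 a) {w : E3} (h0 : Psi K a w = 0)
    {k l : Fin 4} (hkl : k ≠ l) :
    ⟪(1 / 4 : ℝ) • ∑ i, ∑ j, et K (rt w (a i - a j)) • rt w (a i - a j), rt w (a k - a l)⟫ =
      et K (rt w (a k - a l)) := by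
  have h1 : ⟪Psi K a w, rt w (nu a k l)⟫ = (0 : ℝ) := by rw [h0, inner_zero_left]
  have h2 : ⟪Psi K a w, rt w (nu a k l)⟫ =
      ∑ i, ∑ j, et K (rt w (a i - a j)) * ⟪nu a i j, nu a k l⟫ := by
    unfold Psi
    rw [sum_inner]
    refine Finset.sum_congr rfl fun i _ => ?_
    rw [sum_inner]
    refine Finset.sum_congr rfl fun j _ => ?_
    rw [real_inner_smul_left, rt_inner]
  rw [h2] at h1
  have h3 : ⟪∑ i, ∑ j, et K (rt w (a i - a j)) • rt w (a i - a j), rt w (a k - a l)⟫ =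
      ∑ i, ∑ j, et K (rt w (a i - a j)) * ⟪a i - a j, a k - a l⟫ := by
    rw [sum_inner]
    refine Finset.sum_congr rfl fun i _ => ?_
    rw [sum_inner]
    refine Finset.sum_congr rfl fun j _ => ?_
    rw [real_inner_smul_left, rt_inner]
  rw [real_inner_smul_left, h3]
  have h4 : ∑ i, ∑ j, et K (rt w (a i - a j)) * ⟪a i - a j, a k - a l⟫ =
      2 * ∑ i, ∑ j, et K (rt w (a i - a j)) * (dl i k * dl j l) -
      2 * ∑ i, ∑ j, et K (rt w (a i - a j)) * (dl i l * dl j k) -
      8 * ∑ i, ∑ j, et K (rt w (a i - a j)) * ⟪nu a i j, nu a k l⟫ := by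
    simp only [Finset.mul_sum, ← Finset.sum_sub_distrib]
    refine Finset.sum_congr rfl fun i _ => Finset.sum_congr rfl fun j _ => ?_
    have := key_id h i j k l
    linear_combination (et K (rt w (a i - a j))) * this
  rw [h4, h1, dl_sum (fun i j => et K (rt w (a i - a j))),
    dl_sum (fun i j => et K (rt w (a i - a j)))]
  have h5 : et K (rt w (a l - a k)) = - et K (rt w (a k - a l)) := by
    rw [← neg_sub (a k) (a l), map_neg]
    exact et_odd hK hw (by rw [rt_norm, e_norm h hkl])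
  rw [h5]; ring

/-- placement from a frame -/
theorem place_core (hK : IsCompact K) (hw : Width1 K) (h : Gram4 a) (hc : ∀ i, c i ∈ K)
    (H1 : ∀ w, ∑ i, ⟪c i, cr w (a i)⟫ = 0)
    (hQ1 : ∀ w, 0.94285 * ⟪w, w⟫ ≤ Qf a c w) (hQ2 : ∀ w, Qf a c w ≤ 1.0513 * ⟪w, w⟫)
    (hG : 3 - 2 * Gf a c ≤ 0.063) :
    ∃ b : Fin 4 → E3, (∀ i j, i ≠ j → dist (b i) (b j) = 1) ∧
      (∀ i j, i ≠ j → supp K (b i - b j) = ⟪b i, b i - b j⟫) ∧
      ∑ i, ∑ j, ⟪b i - c i, b i - b j⟫ ≤ 0.1535 := by
  -- the zero of the field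
  obtain ⟨w, hwb, hz⟩ := Pool.Agent.Helper47.Brouwer.exists_zero_of_inner_nonneg
    (fun w => -Psi K a w) 0.057 (by norm_num) (Psi_cont hK hw).neg.continuousOn (by
      intro w hwn
      have h1 := Psi_inner hK hw h hc H1 w
      have h2 : ⟪w, w⟫ = (0.057 : ℝ) ^ 2 := by rw [real_inner_self_eq_norm_sq, hwn]
      have h3 := hQ1 w
      have h4 : 0.0061067 ≤ 2 / (1 + ⟪w, w⟫) * Qf a c w := by
        rw [h2] at h3 ⊢
        have h5 : (1.99352 : ℝ) ≤ 2 / (1 + 0.057 ^ 2) := by norm_num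
        have h6 : (0 : ℝ) ≤ 0.94285 * 0.057 ^ 2 := by norm_num
        calc (0.0061067 : ℝ) ≤ 1.99352 * (0.94285 * 0.057 ^ 2) := by norm_num
          _ ≤ 2 / (1 + 0.057 ^ 2) * Qf a c w := mul_le_mul h5 h3 h6 (by norm_num)
      rw [hwn] at h1
      rw [inner_neg_left]
      set y : ℝ := 2 / (1 + ⟪w, w⟫) * Qf a c w
      linarith)
  have hz' : Psi K a w = 0 := by simpa using hz
  rw [mem_closedBall_zero_iff] at hwb
  set τ : E3 := (1 / 4 : ℝ) • ∑ i, ∑ j, et K (rt w (a i - a j)) • rt w (a i - a j) with hτ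
  have hdiff : ∀ i j, (τ + rt w (a i)) - (τ + rt w (a j)) = rt w (a i - a j) := by
    intro i j; rw [map_sub]; abel
  have hin : ∀ i j, i ≠ j → ⟪rt w (a i), rt w (a i - a j)⟫ = (1 / 2 : ℝ) := by
    intro i j hij
    rw [rt_inner, inner_sub_right, h.diag, h.off i j hij]; norm_num
  refine ⟨fun i => τ + rt w (a i), fun i j hij => ?_, fun i j hij => ?_, ?_⟩
  · rw [dist_eq_norm, hdiff, rt_norm, e_norm h hij]
  · have h1 := solve hK hw h hz' hij
    rw [← hτ] at h1
    rw [hdiff, inner_add_left, h1, hin i j hij]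
    unfold et; ring
  · have h1 : ∑ i, ∑ j, ⟪τ + rt w (a i) - c i, (τ + rt w (a i)) - (τ + rt w (a j))⟫ =
        1 / 2 * ∑ i, ∑ j, ((1 - dl i j) - ⟪c i - c j, rt w (a i - a j)⟫) := by
      have e1 : ∑ i, ∑ j, ⟪τ + rt w (a i) - c i, (τ + rt w (a i)) - (τ + rt w (a j))⟫ =
          ∑ i, ∑ j, ⟪τ + rt w (a j) - c j, (τ + rt w (a j)) - (τ + rt w (a i))⟫ :=
        Finset.sum_comm
      have e2 : ∀ i j, ⟪τ + rt w (a i) - c i, (τ + rt w (a i)) - (τ + rt w (a j))⟫ +
          ⟪τ + rt w (a j) - c j, (τ + rt w (a j)) - (τ + rt w (a i))⟫ =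
          (1 - dl i j) - ⟪c i - c j, rt w (a i - a j)⟫ := by
        intro i j
        rw [hdiff, hdiff]
        by_cases hij : i = j
        · subst hij
          unfold dl
          simp
        · have g1 : rt w (a j - a i) = -rt w (a i - a j) := by
            rw [← neg_sub (a i) (a j), map_neg]
          have g2 := hin i j hij
          have g3 := hin j i (Ne.symm hij)
          rw [g1, inner_neg_right] at g3
          rw [g1]
          simp only [inner_sub_left, inner_add_left, inner_neg_right] at g2 g3 ⊢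
          unfold dl
          rw [if_neg hij]
          linarith
      have e3 : ∑ i, ∑ j, ⟪τ + rt w (a i) - c i, (τ + rt w (a i)) - (τ + rt w (a j))⟫ +
          ∑ i, ∑ j, ⟪τ + rt w (a j) - c j, (τ + rt w (a j)) - (τ + rt w (a i))⟫ =
          ∑ i, ∑ j, ((1 - dl i j) - ⟪c i - c j, rt w (a i - a j)⟫) := by
        rw [← Finset.sum_add_distrib]
        refine Finset.sum_congr rfl fun i _ => ?_
        rw [← Finset.sum_add_distrib]
        exact Finset.sum_congr rfl fun j _ => e2 i j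
      linarith
    show ∑ i, ∑ j, ⟪τ + rt w (a i) - c i, (τ + rt w (a i)) - (τ + rt w (a j))⟫ ≤ 0.1535
    rw [h1, kap_sum h H1]
    have h2 := hQ2 w
    have h3 : ⟪w, w⟫ ≤ (0.057 : ℝ) ^ 2 := by
      rw [real_inner_self_eq_norm_sq]
      exact pow_le_pow_left₀ (norm_nonneg _) hwb 2
    have h4 : 2 / (1 + ⟪w, w⟫) ≤ (2 : ℝ) := by
      rw [div_le_iff₀ (one_add_pos w)]
      have := real_inner_self_nonneg (x := w)
      linarith
    have h5 : 0 ≤ 2 / (1 + ⟪w, w⟫) := (div_pos two_pos (one_add_pos w)).le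
    have h6 : 0 ≤ Qf a c w := by
      have := hQ1 w
      have := real_inner_self_nonneg (x := w)
      linarith
    have h7 : 2 / (1 + ⟪w, w⟫) * Qf a c w ≤ 2 * (1.0513 * 0.057 ^ 2) := by
      refine mul_le_mul h4 (h2.trans ?_) h6 (by norm_num)
      exact mul_le_mul_of_nonneg_left h3 (by norm_num)
    linarith

end Helper13.PLM
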