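import Pool.Agent.Helper13.PLM.PlEx

/-!
# Placement of a regular tetrahedron: the frame
-/

set_option autoImplicit false

namespace Helper13.PLM

open Set Metric Finset Helper80.CW Helper82.CW Helper14.CW
open scoped RealInnerProductSpace

variable {K : Set E3} {a c : Fin 4 → E3}

theorem tight_inner (h : Gram4 a) (x y : E3) : ∑ i, ⟪a i, x⟫ * ⟪y, a i⟫ = 1 / 2 * ⟪y, x⟫ := by
  have h1 := tight' h x
  have h2 : ⟪y, ∑ j, ⟪a j, x⟫ • a j⟫ = ⟪y, (1 / 2 : ℝ) • x⟫ := by rw [h1]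
  rw [inner_sum, inner_smul_right] at h2
  rw [← h2]
  exact Finset.sum_congr rfl fun i _ => by rw [inner_smul_right]

/-- sums against a linear map -/
theorem frame_sum (h : Gram4 a) {u : Fin 3 → E3} {s : Fin 3 → ℝ} {g : E3}
    (hc : ∀ i, c i - g = ∑ k, (s k * ⟪a i, u k⟫) • u k) (L : E3 → E3) (L' : E3 → E3)
    (hL : ∀ x y, ⟪x, L y⟫ = ⟪L' x, y⟫) :
    ∑ i, ⟪c i, L (a i)⟫ = 1 / 2 * ∑ k, s k * ⟪L' (u k), u k⟫ := by
  have h1 : ∀ i, ⟪c i, L (a i)⟫ = ⟪L' g, a i⟫ + ∑ k, s k * (⟪a i, u k⟫ * ⟪L' (u k), a i⟫) := by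
    intro i
    have h2 : c i = g + ∑ k, (s k * ⟪a i, u k⟫) • u k := by rw [← hc i]; abel
    conv_lhs => rw [h2]
    rw [inner_add_left, hL, sum_inner]
    congr 1
    refine Finset.sum_congr rfl fun k _ => ?_
    rw [real_inner_smul_left, hL]; ring
  rw [Finset.sum_congr rfl fun i _ => h1 i, Finset.sum_add_distrib, ← inner_sum, sum_zero h,
    inner_zero_right, zero_add, Finset.sum_comm, Finset.mul_sum]
  refine Finset.sum_congr rfl fun k _ => ?_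
  rw [← Finset.mul_sum, tight_inner h]
  ring

theorem frame_H1 (h : Gram4 a) {u : Fin 3 → E3} {s : Fin 3 → ℝ} {g : E3}
    (hc : ∀ i, c i - g = ∑ k, (s k * ⟪a i, u k⟫) • u k) (w : E3) :
    ∑ i, ⟪c i, cr w (a i)⟫ = 0 := by
  rw [frame_sum h hc (fun y => cr w y) (fun x => -cr w x)
    (fun x y => by rw [cr_skew, inner_neg_left])]
  have : ∀ k, s k * ⟪-cr w (u k), u k⟫ = 0 := by
    intro k
    have h1 : ⟪cr w (u k), u k⟫ = (0 : ℝ) := by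
      rw [inn]; simp only [cr0, cr1, cr2]; ring
    rw [inner_neg_left, h1]; simp
  rw [Finset.sum_eq_zero fun k _ => this k, mul_zero]

theorem frame_G (h : Gram4 a) {u : Fin 3 → E3} {s : Fin 3 → ℝ} {g : E3} (hu : ∀ k, ‖u k‖ = 1)
    (hc : ∀ i, c i - g = ∑ k, (s k * ⟪a i, u k⟫) • u k) :
    Gf a c = 1 / 2 * ∑ k, s k := by
  unfold Gf
  rw [frame_sum h hc (fun y => y) (fun x => x) (fun x y => rfl)]
  simp [hu]

theorem frame_Q (h : Gram4 a) (u : OrthonormalBasis (Fin 3) ℝ E3) {s : Fin 3 → ℝ} {g : E3}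
    (hc : ∀ i, c i - g = ∑ k, (s k * ⟪a i, u k⟫) • u k) (w : E3) :
    Qf a c w = 1 / 2 * ∑ k, s k * (⟪w, w⟫ - ⟪w, u k⟫ ^ 2) := by
  unfold Qf
  rw [frame_sum h hc (fun y => cr w (cr w y)) (fun x => cr w (cr w x))
    (fun x y => by rw [cr_skew, cr_skew, neg_neg])]
  rw [← mul_neg, ← Finset.sum_neg_distrib]
  congr 1
  refine Finset.sum_congr rfl fun k _ => ?_
  have h1 : ⟪u k, u k⟫ = (1 : ℝ) := by
    rw [real_inner_self_eq_norm_sq, u.norm_eq_one]; norm_num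
  rw [cr_cr, inner_sub_left, real_inner_smul_left, real_inner_smul_left, h1]
  ring

/-- placement from a frame with numbers -/
theorem place_frame (hK : IsCompact K) (hw : Width1 K) (h : Gram4 a) (hcK : ∀ i, c i ∈ K)
    (u : OrthonormalBasis (Fin 3) ℝ E3) {s : Fin 3 → ℝ} {g : E3}
    (hc : ∀ i, c i - g = ∑ k, (s k * ⟪a i, u k⟫) • u k)
    (hs2 : ∀ k, s k ≤ 1.0513) (hs3 : 3 - 0.063 ≤ ∑ k, s k) :
    ∃ b : Fin 4 → E3, (∀ i j, i ≠ j → dist (b i) (b j) = 1) ∧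
      (∀ i j, i ≠ j → supp K (b i - b j) = ⟪b i, b i - b j⟫) ∧
      ∑ i, ∑ j, ⟪b i - c i, b i - b j⟫ ≤ 0.1535 := by
  have hpar : ∀ w : E3, ⟪w, u 0⟫ ^ 2 + ⟪w, u 1⟫ ^ 2 + ⟪w, u 2⟫ ^ 2 = (⟪w, w⟫ : ℝ) := by
    intro w
    have h1 := u.sum_sq_norm_inner_right w
    rw [Fin.sum_univ_three, real_inner_self_eq_norm_sq] at *
    simp only [Real.norm_eq_abs, sq_abs] at h1
    rw [← h1, real_inner_comm w (u 0), real_inner_comm w (u 1), real_inner_comm w (u 2)]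
  rw [Fin.sum_univ_three] at hs3
  refine place_core hK hw h hcK (frame_H1 h hc) ?_ ?_ ?_
  · intro w
    rw [frame_Q h u hc, Fin.sum_univ_three]
    have h1 := hpar w
    have q0 := sq_nonneg (⟪w, u 0⟫ : ℝ)
    have q1 := sq_nonneg (⟪w, u 1⟫ : ℝ)
    have q2 := sq_nonneg (⟪w, u 2⟫ : ℝ)
    rw [← h1]
    nlinarith [mul_nonneg q0 (by linarith [hs2 0] : (0 : ℝ) ≤ s 0 + s 1 + s 2 - s 0 - 1.8857),
      mul_nonneg q1 (by linarith [hs2 1] : (0 : ℝ) ≤ s 0 + s 1 + s 2 - s 1 - 1.8857),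
      mul_nonneg q2 (by linarith [hs2 2] : (0 : ℝ) ≤ s 0 + s 1 + s 2 - s 2 - 1.8857)]
  · intro w
    rw [frame_Q h u hc, Fin.sum_univ_three]
    have h1 := hpar w
    have q0 := sq_nonneg (⟪w, u 0⟫ : ℝ)
    have q1 := sq_nonneg (⟪w, u 1⟫ : ℝ)
    have q2 := sq_nonneg (⟪w, u 2⟫ : ℝ)
    rw [← h1]
    nlinarith [mul_nonneg q0 (by linarith [hs2 1, hs2 2] : (0 : ℝ) ≤ 2.1026 - (s 1 + s 2)),
      mul_nonneg q1 (by linarith [hs2 0, hs2 2] : (0 : ℝ) ≤ 2.1026 - (s 0 + s 2)),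
      mul_nonneg q2 (by linarith [hs2 0, hs2 1] : (0 : ℝ) ≤ 2.1026 - (s 0 + s 1))]
  · rw [frame_G h (fun k => u.norm_eq_one k) hc, Fin.sum_univ_three]
    linarith

end Helper13.PLM
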