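import Pool.Agent.Helper13.PLM.PlFr
import Pool.Agent.Helper33.MEI.Frame
import Pool.Agent.Helper73.PL.NearSum

/-!
# The placement theorem

Every body of constant width one whose volume is at most that of the Meissner bodies has a regular
tetrahedron of edge one in *placed position*: the supporting planes of the body orthogonal to the
edges pass through the vertices, and the tetrahedron is close to four points of the body.
-/

set_option autoImplicit false

namespace Helper13.PLM

open Set Metric Finset MeasureTheory Helper80.CW Helper82.CW Helper14.CW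
open scoped RealInnerProductSpace

theorem gram_of_inner {a : Fin 4 → E3} (ho : ∀ i j, i ≠ j → inner ℝ (a i) (a j) = -1 / 8)
    (hd : ∀ i, inner ℝ (a i) (a i) = 3 / 8) : Gram4 a := by
  refine ⟨?_, hd, ho⟩
  have h : ⟪a 0 + a 1 + a 2 + a 3, a 0 + a 1 + a 2 + a 3⟫ = (0 : ℝ) := by
    have d := hd
    have o01 := ho 0 1 (by decide)
    have o02 := ho 0 2 (by decide)
    have o03 := ho 0 3 (by decide)
    have o12 := ho 1 2 (by decide)
    have o13 := ho 1 3 (by decide)
    have o23 := ho 2 3 (by decide)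
    have o10 := ho 1 0 (by decide)
    have o20 := ho 2 0 (by decide)
    have o30 := ho 3 0 (by decide)
    have o21 := ho 2 1 (by decide)
    have o31 := ho 3 1 (by decide)
    have o32 := ho 3 2 (by decide)
    simp only [inner_add_left, inner_add_right, d, o01, o02, o03, o12, o13, o23, o10, o20, o30,
      o21, o31, o32]
    norm_num
  exact inner_self_eq_zero.1 h

/-- **Placement theorem.** -/
theorem placement {K : Set E3} (hK : IsCompact K) (hconv : Convex ℝ K) (hw : Width1 K)
    (hvol : volume K ≤ ENNReal.ofReal VM) :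
    ∃ b c : Fin 4 → E3, (∀ i j, i ≠ j → dist (b i) (b j) = 1) ∧ (∀ i, c i ∈ K) ∧
      (∀ i j, i ≠ j → supp K (b i - b j) = ⟪b i, b i - b j⟫) ∧
      (∀ x ∈ K, ∀ i j, i ≠ j → ⟪x, b i - b j⟫ ≤ ⟪b i, b i - b j⟫) ∧
      (∀ i j, 0 ≤ ⟪b i - c i, b i - b j⟫) ∧
      ∑ i, ∑ j, ⟪b i - c i, b i - b j⟫ ≤ 0.1535 := by
  obtain ⟨c, hcK, hsum⟩ := Pool.Agent.Helper73.PL.near_sum hK hconv hw hvol
  obtain ⟨a, u, s, ho, hd, hc, hs, hs3⟩ := Helper33.MEI.frame c (fun i j => by
    rw [← dist_eq_norm]
    exact diam_le hK hw _ (hcK i) _ (hcK j)) hsum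
  have hG := gram_of_inner ho hd
  obtain ⟨b, h1, h2, h3⟩ := place_frame hK hw hG hcK u hc (fun k => (hs k).2) hs3
  have h4 : ∀ x ∈ K, ∀ i j, i ≠ j → ⟪x, b i - b j⟫ ≤ ⟪b i, b i - b j⟫ := by
    intro x hx i j hij
    have := supp_ge hK hw.nonempty (b i - b j) hx
    rwa [h2 i j hij] at this
  refine ⟨b, c, h1, hcK, h2, h4, ?_, h3⟩
  intro i j
  by_cases hij : i = j
  · subst hij; simp
  · rw [inner_sub_left]
    have := h4 _ (hcK i) i j hij
    linarith

end Helper13.PLM
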