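import Pool.Agent.Helper13.PLM.Placement

/-!
# The placement theorem, sharper and from the circumradius alone

The same as `Placement.lean`, with the hypothesis that the body lies in no ball of radius `0.6026`,
the constant `0.1503` instead of `0.1535`, and with the properties of the four points exported.
-/

set_option autoImplicit false

namespace Helper13.PLM

open Set Metric Finset MeasureTheory Helper80.CW Helper82.CW Helper14.CW
open scoped RealInnerProductSpace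

variable {K : Set E3} {a c : Fin 4 → E3}

/-- placement from a frame, sharper -/
theorem place_core2 (hK : IsCompact K) (hw : Width1 K) (h : Gram4 a) (hc : ∀ i, c i ∈ K)
    (H1 : ∀ w, ∑ i, ⟪c i, cr w (a i)⟫ = 0)
    (hQ1 : ∀ w, 0.94285 * ⟪w, w⟫ ≤ Qf a c w)
    (hG : 3 - 2 * Gf a c ≤ 0.063) :
    ∃ b : Fin 4 → E3, (∀ i j, i ≠ j → dist (b i) (b j) = 1) ∧
      (∀ i j, i ≠ j → supp K (b i - b j) = ⟪b i, b i - b j⟫) ∧
      ∑ i, ∑ j, ⟪b i - c i, b i - b j⟫ ≤ 0.1503 := by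
  -- the zero of the field
  obtain ⟨w, hwb, hz⟩ := Pool.Agent.Helper47.Brouwer.exists_zero_of_inner_nonneg
    (fun w => -Psi K a w) 0.057 (by norm_num) (Psi_cont hK hw).neg.continuousOn (by
      intro w hwn
      have h1 := Psi_inner hK hw h hc H1 w
      have h2 : ⟪w, w⟫ = (0.057 : ℝ) ^ 2 := by rw [real_inner_self_eq_norm_sq, hwn]
      have h3 := hQ1 w
      have h4 : 0.0061067 ≤ 2 / (1 + ⟪w, w⟫) * Qf a c w := by
        rw [h2] at h3 ⊢
        have h5 : (1.99352 : ℝ) ≤ 2 / (1 + 0.057 ^ 2) := by norm_num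
        have h6 : (0 : ℝ) ≤ 0.94285 * 0.057 ^ 2 := by norm_num
        calc (0.0061067 : ℝ) ≤ 1.99352 * (0.94285 * 0.057 ^ 2) := by norm_num
          _ ≤ 2 / (1 + 0.057 ^ 2) * Qf a c w := mul_le_mul h5 h3 h6 (by norm_num)
      rw [hwn] at h1
      rw [inner_neg_left]
      set y : ℝ := 2 / (1 + ⟪w, w⟫) * Qf a c w
      linarith)
  have hz' : Psi K a w = 0 := by simpa using hz
  rw [mem_closedBall_zero_iff] at hwb
  set τ : E3 := (1 / 4 : ℝ) • ∑ i, ∑ j, et K (rt w (a i - a j)) • rt w (a i - a j) with hτ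
  have hdiff : ∀ i j, (τ + rt w (a i)) - (τ + rt w (a j)) = rt w (a i - a j) := by
    intro i j; rw [map_sub]; abel
  have hin : ∀ i j, i ≠ j → ⟪rt w (a i), rt w (a i - a j)⟫ = (1 / 2 : ℝ) := by
    intro i j hij
    rw [rt_inner, inner_sub_right, h.diag, h.off i j hij]; norm_num
  refine ⟨fun i => τ + rt w (a i), fun i j hij => ?_, fun i j hij => ?_, ?_⟩
  · rw [dist_eq_norm, hdiff, rt_norm, e_norm h hij]
  · have h1 := solve hK hw h hz' hij
    rw [← hτ] at h1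
    rw [hdiff, inner_add_left, h1, hin i j hij]
    unfold et; ring
  · have h1 : ∑ i, ∑ j, ⟪τ + rt w (a i) - c i, (τ + rt w (a i)) - (τ + rt w (a j))⟫ =
        1 / 2 * ∑ i, ∑ j, ((1 - dl i j) - ⟪c i - c j, rt w (a i - a j)⟫) := by
      have e1 : ∑ i, ∑ j, ⟪τ + rt w (a i) - c i, (τ + rt w (a i)) - (τ + rt w (a j))⟫ =
          ∑ i, ∑ j, ⟪τ + rt w (a j) - c j, (τ + rt w (a j)) - (τ + rt w (a i))⟫ :=
        Finset.sum_comm
      have e2 : ∀ i j, ⟪τ + rt w (a i) - c i, (τ + rt w (a i)) - (τ + rt w (a j))⟫ +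
          ⟪τ + rt w (a j) - c j, (τ + rt w (a j)) - (τ + rt w (a i))⟫ =
          (1 - dl i j) - ⟪c i - c j, rt w (a i - a j)⟫ := by
        intro i j
        rw [hdiff, hdiff]
        by_cases hij : i = j
        · subst hij
          unfold dl
          simp
        · have g1 : rt w (a j - a i) = -rt w (a i - a j) := by
            rw [← neg_sub (a i) (a j), map_neg]
          have g2 := hin i j hij
          have g3 := hin j i (Ne.symm hij)
          rw [g1, inner_neg_right] at g3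
          rw [g1]
          simp only [inner_sub_left, inner_add_left, inner_neg_right] at g2 g3 ⊢
          unfold dl
          rw [if_neg hij]
          linarith
      have e3 : ∑ i, ∑ j, ⟪τ + rt w (a i) - c i, (τ + rt w (a i)) - (τ + rt w (a j))⟫ +
          ∑ i, ∑ j, ⟪τ + rt w (a j) - c j, (τ + rt w (a j)) - (τ + rt w (a i))⟫ =
          ∑ i, ∑ j, ((1 - dl i j) - ⟪c i - c j, rt w (a i - a j)⟫) := by
        rw [← Finset.sum_add_distrib]
        refine Finset.sum_congr rfl fun i _ => ?_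
        rw [← Finset.sum_add_distrib]
        exact Finset.sum_congr rfl fun j _ => e2 i j
      linarith
    show ∑ i, ∑ j, ⟪τ + rt w (a i) - c i, (τ + rt w (a i)) - (τ + rt w (a j))⟫ ≤ 0.1503
    rw [h1, kap_sum h H1]
    -- at the zero the field gives an upper bound of the quadratic form
    have h2 := Psi_inner hK hw h hc H1 w
    rw [hz', inner_zero_left] at h2
    have hQ0 : 0 ≤ Qf a c w := by
      have := hQ1 w
      have := real_inner_self_nonneg (x := w)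
      linarith
    have hy0 : 0 ≤ 2 / (1 + ⟪w, w⟫) * Qf a c w :=
      mul_nonneg (div_pos two_pos (one_add_pos w)).le hQ0
    set y : ℝ := 2 / (1 + ⟪w, w⟫) * Qf a c w with hy
    have h3 : 1 / 2 * (0.35356 * ‖w‖) * (12 - 8 * (Gf a c - y)) ≤
        1 / 2 * (0.35356 * 0.057) * (0.252 + 8 * y) := by
      have h4 : 12 - 8 * (Gf a c - y) ≤ 0.252 + 8 * y := by linarith
      have h5 : (0 : ℝ) ≤ 0.252 + 8 * y := by linarith
      have h6 : 1 / 2 * (0.35356 * ‖w‖) ≤ 1 / 2 * (0.35356 * 0.057) := by linarith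
      have h7 : 0 ≤ 1 / 2 * (0.35356 * ‖w‖) := by positivity
      calc 1 / 2 * (0.35356 * ‖w‖) * (12 - 8 * (Gf a c - y)) ≤
          1 / 2 * (0.35356 * ‖w‖) * (0.252 + 8 * y) := mul_le_mul_of_nonneg_left h4 h7
        _ ≤ _ := mul_le_mul_of_nonneg_right h6 h5
    linarith

/-- four points from the circumradius -/
theorem near_sum_circ (hK : IsCompact K) (hw : Width1 K)
    (hno : ¬ ∃ x0, K ⊆ Metric.closedBall x0 0.6026) :
    ∃ c : Fin 4 → E3, (∀ i, c i ∈ K) ∧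
      ∑ i, ∑ j, (if i = j then 0 else 1 - ‖c i - c j‖ ^ 2) ≤ 0.42 ∧
      ∃ l : Fin 4 → ℝ, (∀ i, 0 ≤ l i) ∧ ∑ i, l i = 1 ∧
        0.6026 ^ 2 < (∑ i, ∑ j, l i * l j * ‖c i - c j‖ ^ 2) / 2 := by
  obtain ⟨p, hp, l, hl0, hl1, hl⟩ := Pool.Agent.Helper73.PL.jung_four K (diam_le hK hw)
    (ρ := 0.6026) (by norm_num) (by norm_num) hno
  refine ⟨p, hp, ?_, l, hl0, hl1, hl⟩
  by_contra hcon
  push Not at hcon
  have h1 := Pool.Agent.Helper73.PL.simplex_total l hl0 hl1 (fun i j => 1 - ‖p i - p j‖ ^ 2)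
    (fun i j _ => by
    have h1 := diam_le hK hw _ (hp i) _ (hp j)
    rw [dist_eq_norm] at h1
    have h2 := norm_nonneg (p i - p j)
    show (0 : ℝ) ≤ 1 - ‖p i - p j‖ ^ 2
    nlinarith) (X := 0.21) (by norm_num) (by norm_num)
    (by
      refine le_trans (by norm_num) hcon.le)
  have h2 : ∑ i, ∑ j, l i * l j * (if i = j then 0 else 1 - (1 - ‖p i - p j‖ ^ 2)) =
      ∑ i, ∑ j, l i * l j * ‖p i - p j‖ ^ 2 := by
    refine Finset.sum_congr rfl (fun i _ => Finset.sum_congr rfl (fun j _ => ?_))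
    by_cases h : i = j
    · simp [h]
    · rw [if_neg h]; ring
  rw [h2] at h1
  have h3 : (1 : ℝ) / 4 + 1 / (4 * (2 + 0.21)) ≤ 0.6026 ^ 2 := by norm_num
  linarith

/-- **Placement theorem**, sharper form. -/
theorem placement2 (hK : IsCompact K) (hw : Width1 K)
    (hno : ¬ ∃ x0, K ⊆ Metric.closedBall x0 0.6026) :
    ∃ b c : Fin 4 → E3, (∀ i j, i ≠ j → dist (b i) (b j) = 1) ∧ (∀ i, c i ∈ K) ∧
      (∀ i j, i ≠ j → supp K (b i - b j) = ⟪b i, b i - b j⟫) ∧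
      (∀ x ∈ K, ∀ i j, i ≠ j → ⟪x, b i - b j⟫ ≤ ⟪b i, b i - b j⟫) ∧
      (∀ i j, 0 ≤ ⟪b i - c i, b i - b j⟫) ∧
      ∑ i, ∑ j, ⟪b i - c i, b i - b j⟫ ≤ 0.1503 ∧
      ∑ i, ∑ j, (if i = j then 0 else 1 - ‖c i - c j‖ ^ 2) ≤ 0.42 ∧
      ∃ l : Fin 4 → ℝ, (∀ i, 0 ≤ l i) ∧ ∑ i, l i = 1 ∧
        0.6026 ^ 2 < (∑ i, ∑ j, l i * l j * ‖c i - c j‖ ^ 2) / 2 := by
  obtain ⟨c, hcK, hsum, hl⟩ := near_sum_circ hK hw hno
  obtain ⟨a, u, s, ho, hd, hc, hs, hs3⟩ := Helper33.MEI.frame c (fun i j => by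
    rw [← dist_eq_norm]
    exact diam_le hK hw _ (hcK i) _ (hcK j)) hsum
  have hG := gram_of_inner ho hd
  have hs2 : ∀ k, s k ≤ 1.0513 := fun k => (hs k).2
  rw [Fin.sum_univ_three] at hs3
  obtain ⟨b, h1, h2, h3⟩ := place_core2 hK hw hG hcK (frame_H1 hG hc) (by
    intro w
    have hpar : ⟪w, u 0⟫ ^ 2 + ⟪w, u 1⟫ ^ 2 + ⟪w, u 2⟫ ^ 2 = (⟪w, w⟫ : ℝ) := by
      have h1 := u.sum_sq_norm_inner_right w
      rw [Fin.sum_univ_three, real_inner_self_eq_norm_sq] at *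
      simp only [Real.norm_eq_abs, sq_abs] at h1
      rw [← h1, real_inner_comm w (u 0), real_inner_comm w (u 1), real_inner_comm w (u 2)]
    rw [frame_Q hG u hc, Fin.sum_univ_three]
    have q0 := sq_nonneg (⟪w, u 0⟫ : ℝ)
    have q1 := sq_nonneg (⟪w, u 1⟫ : ℝ)
    have q2 := sq_nonneg (⟪w, u 2⟫ : ℝ)
    rw [← hpar]
    nlinarith [mul_nonneg q0 (by linarith [hs2 0] : (0 : ℝ) ≤ s 0 + s 1 + s 2 - s 0 - 1.8857),
      mul_nonneg q1 (by linarith [hs2 1] : (0 : ℝ) ≤ s 0 + s 1 + s 2 - s 1 - 1.8857),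
      mul_nonneg q2 (by linarith [hs2 2] : (0 : ℝ) ≤ s 0 + s 1 + s 2 - s 2 - 1.8857)]) (by
    rw [frame_G hG (fun k => u.norm_eq_one k) hc, Fin.sum_univ_three]
    linarith)
  have h4 : ∀ x ∈ K, ∀ i j, i ≠ j → ⟪x, b i - b j⟫ ≤ ⟪b i, b i - b j⟫ := by
    intro x hx i j hij
    have := supp_ge hK hw.nonempty (b i - b j) hx
    rwa [h2 i j hij] at this
  refine ⟨b, c, h1, hcK, h2, h4, ?_, h3, hsum, hl⟩
  intro i j
  by_cases hij : i = j
  · subst hij; simp
  · rw [inner_sub_left]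
    have := h4 _ (hcK i) i j hij
    linarith

/-- a body of volume at most `0.41995` lies in no ball of radius `0.6026` -/
theorem no_ball (hK : IsCompact K) (hconv : Convex ℝ K) (hw : Width1 K)
    (hvol : volume K ≤ ENNReal.ofReal 0.41995) :
    ¬ ∃ x0, K ⊆ Metric.closedBall x0 0.6026 := by
  rintro ⟨x0, hx0⟩
  have h2 := volume_circum hK hconv hw (by norm_num) hx0
  have h3 := (h2.trans hvol)
  rw [ENNReal.ofReal_le_ofReal_iff'] at h3
  have h4 := thr
  rcases h3 with h3 | h3 <;> linarith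

end Helper13.PLM
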