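import Pool.Agent.Helper13.PLM.States

/-!
# Joint row for the sup values and the positions of the sup points (project MEI)
-/

set_option autoImplicit false

namespace Helper13.PLM

open Set Metric Finset MeasureTheory Helper80.CW Helper82.CW Helper14.CW Helper93.MEI Helper66.MEI
open Helper14.MEI2 Helper82.M2 Helper78.MEI
open scoped RealInnerProductSpace

section near
variable {K : Set E3} {a c : Fin 4 → E3} (N : Near K a c) (hK : IsCompact K) (hw : Width1 K)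
include N hK hw

/-- the level of a point with all coordinates at most `β` -/
theorem Near.vertex_beta (i : Fin 4) {z : E3} (hz : z ∈ K) {β : ℝ}
    (hβ : ∀ k, k ≠ i → bar a k z ≤ β) :
    Qv a i z + ‖a i - c i‖ ^ 2 ≤ 2 * β * Adep a c i := by
  have hd := diam_le hK hw
  have h1 : ‖z - c i‖ ≤ 1 := by
    rw [← dist_eq_norm]
    exact hd _ hz _ (N.mem i)
  have h2 := Helper37.MEI.coupling N.placed.gram i h1
  have h3 : ∑ k, bar a k z * ⟪a i - c i, a i - a k⟫ ≤ ∑ k, β * ⟪a i - c i, a i - a k⟫ := by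
    refine Finset.sum_le_sum fun k _ => ?_
    by_cases hk : k = i
    · subst hk
      simp
    · exact mul_le_mul_of_nonneg_right (hβ k hk) (N.nonneg i k)
  rw [← Finset.mul_sum] at h3
  unfold yv at h2
  unfold Adep
  linarith

end near

/-- arithmetic of one vertex -/
theorem rowB_arith {A δ T : ℝ} (hA : 0 ≤ A) (hA1 : A ≤ 0.1115) (hδ0 : 0 ≤ δ)
    (hδ : δ ≤ 1.5 * A ^ 2) (_hT0 : 0 ≤ T) (hT : T ≤ 2 * A - δ) :
    T - 0.75 * T ^ 2 ≤ 2 * A - 3 * δ + 0.5 * A ^ 2 + 0.00175 * A ^ 2 := by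
  have h1 : 0 ≤ (2 * A - δ - T) * (1 - 0.75 * (2 * A - δ + T)) := by
    refine mul_nonneg (by linarith) (by nlinarith)
  have h2 : A * δ ≤ A * (1.5 * A ^ 2) := mul_le_mul_of_nonneg_left hδ hA
  have h3 : A * A ^ 2 ≤ 0.1115 * A ^ 2 := mul_le_mul_of_nonneg_right hA1 (sq_nonneg A)
  nlinarith [sq_nonneg δ]

section rows
variable {K : Set E3} {a c : Fin 4 → E3} (N : Near K a c) (hK : IsCompact K) (hw : Width1 K)
include N hK hw

/-- one vertex: `S/β ≤ 2 A - |a - c|²` -/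
theorem Near.T_le (i : Fin 4) {S β : ℝ} (hβ0 : 0 < β) (hβ1 : β ≤ 1)
    (hS : S = 0 ∨ ∃ z ∈ K, Qv a i z = S ∧ ∀ k, k ≠ i → bar a k z ≤ β) :
    S / β ≤ 2 * Adep a c i - ‖a i - c i‖ ^ 2 := by
  have hδ0 := sq_nonneg ‖a i - c i‖
  rcases hS with h | ⟨z, hz, hzS, hzb⟩
  · have h1 := N.delta_le i
    have h2 := N.A_nonneg i
    have h3 := N.A_le i
    rw [h, zero_div]
    nlinarith
  · have h1 := N.vertex_beta hK hw i hz hzb
    rw [hzS] at h1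
    rw [div_le_iff₀ hβ0]
    have h2 : ‖a i - c i‖ ^ 2 * β ≤ ‖a i - c i‖ ^ 2 := mul_le_of_le_one_right hδ0 hβ1
    nlinarith

/-- **ROW B, general form** -/
theorem Near.rowB_gen (hE : Eps c ≤ 0.1774) {S β : Fin 4 → ℝ} (hS0 : ∀ i, 0 ≤ S i)
    (hβ0 : ∀ i, 0 < β i) (hβ1 : ∀ i, β i ≤ 1)
    (hS : ∀ i, S i = 0 ∨ ∃ z ∈ K, Qv a i z = S i ∧ ∀ k, k ≠ i → bar a k z ≤ β i) :
    ∑ i, (S i / β i - 0.75 * (S i / β i) ^ 2) ≤ Eps c + 0.50175 * (∑ i, Adep a c i) ^ 2 := by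
  have hA1 := N.A_sum_1115 hK hw hE
  have hAi : ∀ i, Adep a c i ≤ 0.1115 := fun i =>
    (Finset.single_le_sum (f := Adep a c) (fun i _ => N.A_nonneg i) (Finset.mem_univ i)).trans hA1
  have h1 : ∑ i, (S i / β i - 0.75 * (S i / β i) ^ 2) ≤
      ∑ i, (2 * Adep a c i - 3 * ‖a i - c i‖ ^ 2 + 0.5 * Adep a c i ^ 2 +
        0.00175 * Adep a c i ^ 2) := by
    refine Finset.sum_le_sum fun i _ => ?_
    exact rowB_arith (N.A_nonneg i) (hAi i) (sq_nonneg _) (N.delta_le i)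
      (div_nonneg (hS0 i) (hβ0 i).le) (N.T_le hK hw i (hβ0 i) (hβ1 i) (hS i))
  have he : ∑ i, (2 * Adep a c i - 3 * ‖a i - c i‖ ^ 2 + 0.5 * Adep a c i ^ 2 +
      0.00175 * Adep a c i ^ 2) = 2 * ∑ i, Adep a c i - 3 * ∑ i, ‖a i - c i‖ ^ 2 +
      0.5 * ∑ i, Adep a c i ^ 2 + 0.00175 * ∑ i, Adep a c i ^ 2 := by
    rw [Finset.sum_add_distrib, Finset.sum_add_distrib, Finset.sum_sub_distrib, ← Finset.mul_sum,
      ← Finset.mul_sum, ← Finset.mul_sum, ← Finset.mul_sum]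
  rw [he] at h1
  have h2 := N.budget3
  have h3 : ∑ i, Adep a c i ^ 2 ≤ (∑ i, Adep a c i) ^ 2 :=
    Finset.sum_sq_le_sq_sum_of_nonneg fun i _ => N.A_nonneg i
  linarith

/-- **ROW B** -/
theorem Near.rowB (hE : Eps c ≤ 0.1774) {S β : Fin 4 → ℝ} (hS0 : ∀ i, 0 ≤ S i)
    (hβ0 : ∀ i, 0 < β i) (hβ1 : ∀ i, β i ≤ 1)
    (hS : ∀ i, S i = 0 ∨ ∃ z ∈ K, Qv a i z = S i ∧ ∀ k, k ≠ i → bar a k z ≤ β i) :
    ∑ i, (S i / β i - 0.75 * (S i / β i) ^ 2) ≤ Eps c + 0.0063 := by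
  have h1 := N.rowB_gen hK hw hE hS0 hβ0 hβ1 hS
  have hA1 := N.A_sum_1115 hK hw hE
  have hA0 := N.A_sum_nonneg
  nlinarith

/-- **ROW B** with the correction quadratic in the defect -/
theorem Near.rowB_quad (hE : Eps c ≤ 0.1774) {S β : Fin 4 → ℝ} (hS0 : ∀ i, 0 ≤ S i)
    (hβ0 : ∀ i, 0 < β i) (hβ1 : ∀ i, β i ≤ 1)
    (hS : ∀ i, S i = 0 ∨ ∃ z ∈ K, Qv a i z = S i ∧ ∀ k, k ≠ i → bar a k z ≤ β i) :
    ∑ i, (S i / β i - 0.75 * (S i / β i) ^ 2) ≤ Eps c + 0.2237 * Eps c ^ 2 := by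
  have h1 := N.rowB_gen hK hw hE hS0 hβ0 hβ1 hS
  have hA1 := N.A_sum_1115 hK hw hE
  have hA0 := N.A_sum_nonneg
  have h2 := N.A_quad
  have h3 : 1.49825 * ∑ i, Adep a c i ≤ Eps c := by nlinarith
  have h4 : (1.49825 * ∑ i, Adep a c i) ^ 2 ≤ Eps c ^ 2 :=
    pow_le_pow_left₀ (by linarith) h3 2
  nlinarith

end rows

/-- largest coordinate of a point, without the vertex `i` -/
noncomputable def bmax (a : Fin 4 → E3) (i : Fin 4) (z : E3) : ℝ :=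
  (Finset.univ.erase i).sup' (by
    refine ⟨i + 1, Finset.mem_erase.2 ⟨?_, Finset.mem_univ _⟩⟩
    fin_cases i <;> decide) fun k => bar a k z

theorem le_bmax (a : Fin 4 → E3) {i k : Fin 4} (hk : k ≠ i) (z : E3) :
    bar a k z ≤ bmax a i z :=
  Finset.le_sup' (fun k => bar a k z) (Finset.mem_erase.2 ⟨hk, Finset.mem_univ k⟩)

/-- **ROW B for the state**: sup points `z i`, coordinates `≤ β i` -/
theorem state_rowB {K : Set E3} {σ : Measure (E3 × E3)} {a c : Fin 4 → E3} {S β : Fin 4 → ℝ}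
    {X : ℝ} (hC : CN K σ a c) (hX : X ≤ 0.1774) (hE : EpsLe c X) (hV : Viol K a S)
    {z : Fin 4 → E3} (hz : ∀ i, S i = 0 ∨ (z i ∈ K ∧ Qv a i (z i) = S i))
    (hβ0 : ∀ i, 0 < β i) (hβ1 : ∀ i, β i ≤ 1) (hβ : ∀ i k, k ≠ i → bar a k (z i) ≤ β i) :
    ∑ i, (S i / β i - 0.75 * (S i / β i) ^ 2) ≤ X + 0.0063 ∧
      ∑ i, (S i / β i - 0.75 * (S i / β i) ^ 2) ≤ X + 0.2237 * X ^ 2 := by
  have hE' := eps_of_epsLe hE
  have hS : ∀ i, S i = 0 ∨ ∃ y ∈ K, Qv a i y = S i ∧ ∀ k, k ≠ i → bar a k y ≤ β i := by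
    intro i
    rcases hz i with h | ⟨h1, h2⟩
    · exact Or.inl h
    · exact Or.inr ⟨z i, h1, h2, hβ i⟩
  have h0 : 0 ≤ Eps c := by
    have h1 := hC.near.A_quad
    have h2 := hC.near.A_sum
    have h3 := hC.near.A_sum_nonneg
    have h4 : 0 ≤ (2 - 4.5 * ∑ i, Adep a c i) * ∑ i, Adep a c i :=
      mul_nonneg (by linarith) h3
    linarith
  refine ⟨(hC.near.rowB hC.cpt hC.w1 (hE'.trans hX) hV.nn hβ0 hβ1 hS).trans (by linarith),
    (hC.near.rowB_quad hC.cpt hC.w1 (hE'.trans hX) hV.nn hβ0 hβ1 hS).trans ?_⟩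
  have h5 : Eps c ^ 2 ≤ X ^ 2 := pow_le_pow_left₀ h0 hE' 2
  linarith

end Helper13.PLM
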