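import Pool.Agent.Helper13.PLM.Ap4
import Pool.Agent.Helper37.MEI.Clq5
import Pool.Agent.Helper78.MEI.End4

/-!
# The states that occur (project MEI)
-/

set_option autoImplicit false

namespace Helper13.PLM

open Set Metric Finset MeasureTheory Helper80.CW Helper82.CW Helper14.CW Helper93.MEI Helper66.MEI
open Helper14.MEI2 Helper82.M2 Helper78.MEI
open scoped RealInnerProductSpace

/-- what is known about the four violations for `Eps c ≤ X ≤ 0.1774` -/
structure StX (X : ℝ) (S : Fin 4 → ℝ) : Prop where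
  nn : ∀ i, 0 ≤ S i
  lt : ∀ i, S i < 0.115
  sum : ∑ i, S i ≤ X + 0.00032
  sum' : (0.16 ≤ ∑ i, S i) → ∑ i, S i ≤ X - 0.0018
  two : ∀ i k, i ≠ k → min (S i) (S k) ≤ max (X / 2 - 0.002) 0.0729

variable {K : Set E3} {σ : Measure (E3 × E3)} {a c : Fin 4 → E3} {S : Fin 4 → ℝ} {X : ℝ}

theorem eps_of_epsLe (h : EpsLe c X) : Eps c ≤ X := by
  unfold EpsLe at h
  unfold Eps
  linarith

theorem stX (hC : CN K σ a c) (hX : X ≤ 0.1774) (hE : EpsLe c X) (hV : Viol K a S) : StX X S := by
  have hE' := eps_of_epsLe hE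
  have hE2 : Eps c ≤ 0.1774 := hE'.trans hX
  have N := hC.near
  have hlt : ∀ i, ∀ z ∈ K, Qv a i z < 0.115 := fun i z hz =>
    Helper37.MEI.Clq.lt115 N hC.cpt hC.w1 hC.cvx hE2 i hz
  have hch : ∀ i, ∃ z ∈ K, S i ≤ max (Qv a i z) 0 := by
    intro i
    rcases hV.att i with h | ⟨z, hz, h⟩
    · exact ⟨c i, N.mem i, by rw [h]; exact le_max_right _ _⟩
    · exact ⟨z, hz, by rw [h]; exact le_max_left _ _⟩
  choose z hz hSz using hch
  have hlt' : ∀ i, S i < 0.115 := fun i =>
    lt_of_le_of_lt (hSz i) (max_lt (hlt i _ (hz i)) (by norm_num))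
  have hsum : ∑ i, S i ≤ ∑ i, max (Qv a i (z i)) 0 := Finset.sum_le_sum fun i _ => hSz i
  have h1 := N.sum_sup_cap hC.cpt hC.w1 hz (fun i => ((hlt i _ (hz i)).le.trans (by norm_num)))
  refine ⟨hV.nn, hlt', by linarith, ?_, ?_⟩
  · intro h16
    have h2 : ∑ i, (max (Qv a i (z i)) 0 + 3 * ‖a i - c i‖ ^ 2) ≤
        ∑ i, (1.9248 * Adep a c i + Adep a c i ^ 2 / 2 + 0.00008) :=
      Finset.sum_le_sum fun i _ => N.vertex_cap hC.cpt hC.w1 i (hz i)
        ((hlt i _ (hz i)).le.trans (by norm_num))
    have h3 := N.budget3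
    have h4 := N.A_sum_1115 hC.cpt hC.w1 hE2
    have h5 := N.A_sum_nonneg
    have h6 : ∑ i, Adep a c i ^ 2 ≤ (∑ i, Adep a c i) ^ 2 :=
      Finset.sum_sq_le_sq_sum_of_nonneg fun i _ => N.A_nonneg i
    rw [Finset.sum_add_distrib, Finset.sum_add_distrib, Finset.sum_add_distrib, ← Finset.mul_sum,
      ← Finset.mul_sum, ← Finset.sum_div] at h2
    simp only [Finset.sum_const, Finset.card_univ, Fintype.card_fin, nsmul_eq_mul] at h2
    push_cast at h2
    have h7 : 0 ≤ ∑ i, ‖a i - c i‖ ^ 2 := Finset.sum_nonneg fun i _ => sq_nonneg _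
    nlinarith
  · intro i k hik
    have hi := hSz i
    have hk := hSz k
    by_contra hc
    push Not at hc
    have c1 := lt_of_le_of_lt (le_max_right _ _) hc
    have c2 := lt_of_le_of_lt (le_max_left _ _) hc
    have m1 : min (S i) (S k) ≤ Qv a i (z i) := by
      rcases le_total (Qv a i (z i)) 0 with h | h
      · rw [max_eq_right h] at hi
        have := min_le_left (S i) (S k)
        linarith
      · rw [max_eq_left h] at hi
        exact (min_le_left _ _).trans hi
    have m2 : min (S i) (S k) ≤ Qv a k (z k) := by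
      rcases le_total (Qv a k (z k)) 0 with h | h
      · rw [max_eq_right h] at hk
        have := min_le_right (S i) (S k)
        linarith
      · rw [max_eq_left h] at hk
        exact (min_le_right _ _).trans hk
    set m := min (S i) (S k) with hm
    have hmi : m < 0.115 := lt_of_le_of_lt (min_le_left _ _) (hlt' i)
    rcases le_or_gt m 0.105625 with h | h
    · have h0 : 0 ≤ m := by linarith
      have hs := Real.sq_sqrt h0
      have u1 : 0.27 ≤ √m := Real.le_sqrt_of_sq_le (by norm_num; linarith)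
      have u2 : √m ≤ 0.325 := by
        have := Real.sqrt_le_sqrt h
        refine this.trans ?_
        rw [Real.sqrt_le_left (by norm_num)]
        norm_num
      have h9 := N.two_sup hC.cpt hC.w1 hik (hz i) (hz k) u1 u2 (by rw [hs]; exact m1)
        (by rw [hs]; exact m2)
      rw [hs] at h9
      linarith
    · have h9 := N.two_sup hC.cpt hC.w1 hik (hz i) (hz k) (u := 0.325) (by norm_num) (by norm_num)
        (by norm_num; linarith) (by norm_num; linarith)
      norm_num at h9
      linarith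

end Helper13.PLM
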