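import Pool.Agent.Helper13.PLM.States
import Pool.Agent.Helper78.MEI.End4

/-!
# Project MEI (M2): sharper bounds for the sum of the violations

`Near.sum_t`: `∑ S ≤ t X + 4 q` with explicit `t < 1` (about `∑ S ≤ .966 X` for `X = .09`).
-/

set_option autoImplicit false

namespace Helper13.PLM

open Set Metric Finset MeasureTheory Helper80.CW Helper82.CW Helper14.CW Helper93.MEI Helper66.MEI
open Helper14.MEI2 Helper82.M2 Helper78.MEI
open scoped RealInnerProductSpace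

/-! ### the inequality for one vertex -/

theorem vt_gen {A d r p t q : ℝ} (hA : 0 ≤ A) (hr : 0 ≤ r) (ht : 1 / 3 ≤ t)
    (hd : d ≤ 1.5 * A ^ 2) (h : r ^ 2 + 0.816 * A * r ≤ 2 * A - d)
    (hG : q < (2 - p) * A + (4 * t - 1.5) * A ^ 2 →
      ((2 - p) * A + (4 * t - 1.5) * A ^ 2 - q) ^ 2 ≤
        0.665856 * A ^ 2 * (p * A + q - 4 * t * A ^ 2)) :
    r ^ 2 + 3 * t * d ≤ p * A + t / 2 * A ^ 2 + q := by
  by_contra hc
  push Not at hc
  have h0 : 0 ≤ 0.816 * A * r := by positivity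
  have h1 : (3 * t - 1) * d ≤ (3 * t - 1) * (1.5 * A ^ 2) :=
    mul_le_mul_of_nonneg_left hd (by linarith)
  have h2 : 0.816 * A * r < (2 - p) * A + (4 * t - 1.5) * A ^ 2 - q := by nlinarith
  have h3 : 3 * t * d ≤ 3 * t * (1.5 * A ^ 2) := mul_le_mul_of_nonneg_left hd (by linarith)
  have h4 : p * A + q - 4 * t * A ^ 2 < r ^ 2 := by nlinarith
  have h5 := hG (by linarith)
  have h6 : (0.816 * A * r) ^ 2 < ((2 - p) * A + (4 * t - 1.5) * A ^ 2 - q) ^ 2 :=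
    pow_lt_pow_left₀ h2 h0 (by norm_num)
  have h7 : 0.665856 * A ^ 2 * (p * A + q - 4 * t * A ^ 2) ≤ 0.665856 * A ^ 2 * r ^ 2 :=
    mul_le_mul_of_nonneg_left h4.le (by positivity)
  nlinarith

theorem G0104 {A : ℝ} (h1 : 0.000323 ≤ A) (h2 : A ≤ 0.00533) :
    (0.0526 * A + 2.4 * A ^ 2 - 0.00002) ^ 2 ≤
      0.665856 * A ^ 2 * (1.9474 * A + 0.00002 - 3.9 * A ^ 2) := by
  nlinarith [mul_nonneg (sub_nonneg.2 h1) (sub_nonneg.2 h2), sq_nonneg (A * (A - 0.00118)),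
    mul_nonneg (mul_nonneg (sub_nonneg.2 h1) (sub_nonneg.2 h2)) (sq_nonneg A),
    mul_nonneg (sub_nonneg.2 h1) (sq_nonneg (A - 0.00118)),
    mul_nonneg (sub_nonneg.2 h2) (sq_nonneg (A - 0.00118)),
    mul_nonneg (mul_nonneg (sub_nonneg.2 h1) (sub_nonneg.2 h2)) (sq_nonneg (A - 0.00118))]

theorem vt0104 {A d r : ℝ} (hA : 0 ≤ A) (hA1 : A ≤ 0.00533) (hr : 0 ≤ r)
    (hd : d ≤ 1.5 * A ^ 2) (h : r ^ 2 + 0.816 * A * r ≤ 2 * A - d) :
    r ^ 2 + 3 * 0.975 * d ≤ 1.9474 * A + 0.975 / 2 * A ^ 2 + 0.00002 := by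
  refine vt_gen hA hr (by norm_num) hd h fun hq => ?_
  have h1 : 0.000323 ≤ A := by
    by_contra hc
    push Not at hc
    nlinarith
  have := G0104 h1 hA1
  norm_num at this ⊢
  exact this

theorem G0204 {A : ℝ} (h1 : 0.000702 ≤ A) (h2 : A ≤ 0.0105) :
    (0.0751 * A + 2.36 * A ^ 2 - 0.000062) ^ 2 ≤
      0.665856 * A ^ 2 * (1.9249 * A + 0.000062 - 3.86 * A ^ 2) := by
  nlinarith [mul_nonneg (sub_nonneg.2 h1) (sub_nonneg.2 h2), sq_nonneg (A * (A - 0.00271)),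
    mul_nonneg (mul_nonneg (sub_nonneg.2 h1) (sub_nonneg.2 h2)) (sq_nonneg A),
    mul_nonneg (sub_nonneg.2 h1) (sq_nonneg (A - 0.00271)),
    mul_nonneg (sub_nonneg.2 h2) (sq_nonneg (A - 0.00271)),
    mul_nonneg (mul_nonneg (sub_nonneg.2 h1) (sub_nonneg.2 h2)) (sq_nonneg (A - 0.00271))]

theorem vt0204 {A d r : ℝ} (hA : 0 ≤ A) (hA1 : A ≤ 0.0105) (hr : 0 ≤ r)
    (hd : d ≤ 1.5 * A ^ 2) (h : r ^ 2 + 0.816 * A * r ≤ 2 * A - d) :
    r ^ 2 + 3 * 0.965 * d ≤ 1.9249 * A + 0.965 / 2 * A ^ 2 + 0.000062 := by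
  refine vt_gen hA hr (by norm_num) hd h fun hq => ?_
  have h1 : 0.000702 ≤ A := by
    by_contra hc
    push Not at hc
    nlinarith
  have := G0204 h1 hA1
  norm_num at this ⊢
  exact this

theorem G0304 {A : ℝ} (h1 : 0.000999 ≤ A) (h2 : A ≤ 0.0158) :
    (0.0876 * A + 2.34 * A ^ 2 - 0.000103) ^ 2 ≤
      0.665856 * A ^ 2 * (1.9124 * A + 0.000103 - 3.84 * A ^ 2) := by
  nlinarith [mul_nonneg (sub_nonneg.2 h1) (sub_nonneg.2 h2), sq_nonneg (A * (A - 0.00399)),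
    mul_nonneg (mul_nonneg (sub_nonneg.2 h1) (sub_nonneg.2 h2)) (sq_nonneg A),
    mul_nonneg (sub_nonneg.2 h1) (sq_nonneg (A - 0.00399)),
    mul_nonneg (sub_nonneg.2 h2) (sq_nonneg (A - 0.00399)),
    mul_nonneg (mul_nonneg (sub_nonneg.2 h1) (sub_nonneg.2 h2)) (sq_nonneg (A - 0.00399))]

theorem vt0304 {A d r : ℝ} (hA : 0 ≤ A) (hA1 : A ≤ 0.0158) (hr : 0 ≤ r)
    (hd : d ≤ 1.5 * A ^ 2) (h : r ^ 2 + 0.816 * A * r ≤ 2 * A - d) :
    r ^ 2 + 3 * 0.96 * d ≤ 1.9124 * A + 0.96 / 2 * A ^ 2 + 0.000103 := by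
  refine vt_gen hA hr (by norm_num) hd h fun hq => ?_
  have h1 : 0.000999 ≤ A := by
    by_contra hc
    push Not at hc
    nlinarith
  have := G0304 h1 hA1
  norm_num at this ⊢
  exact this

theorem G0404 {A : ℝ} (h1 : 0.001383 ≤ A) (h2 : A ≤ 0.0213) :
    (0.1002 * A + 2.32 * A ^ 2 - 0.000163) ^ 2 ≤
      0.665856 * A ^ 2 * (1.8998 * A + 0.000163 - 3.82 * A ^ 2) := by
  nlinarith [mul_nonneg (sub_nonneg.2 h1) (sub_nonneg.2 h2), sq_nonneg (A * (A - 0.00575)),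
    mul_nonneg (mul_nonneg (sub_nonneg.2 h1) (sub_nonneg.2 h2)) (sq_nonneg A),
    mul_nonneg (sub_nonneg.2 h1) (sq_nonneg (A - 0.00575)),
    mul_nonneg (sub_nonneg.2 h2) (sq_nonneg (A - 0.00575)),
    mul_nonneg (mul_nonneg (sub_nonneg.2 h1) (sub_nonneg.2 h2)) (sq_nonneg (A - 0.00575))]

theorem vt0404 {A d r : ℝ} (hA : 0 ≤ A) (hA1 : A ≤ 0.0213) (hr : 0 ≤ r)
    (hd : d ≤ 1.5 * A ^ 2) (h : r ^ 2 + 0.816 * A * r ≤ 2 * A - d) :
    r ^ 2 + 3 * 0.955 * d ≤ 1.8998 * A + 0.955 / 2 * A ^ 2 + 0.000163 := by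
  refine vt_gen hA hr (by norm_num) hd h fun hq => ?_
  have h1 : 0.001383 ≤ A := by
    by_contra hc
    push Not at hc
    nlinarith
  have := G0404 h1 hA1
  norm_num at this ⊢
  exact this

theorem G0504 {A : ℝ} (h1 : 0.001487 ≤ A) (h2 : A ≤ 0.0269) :
    (0.1029 * A + 2.32 * A ^ 2 - 0.00018) ^ 2 ≤
      0.665856 * A ^ 2 * (1.8971 * A + 0.00018 - 3.82 * A ^ 2) := by
  nlinarith [mul_nonneg (sub_nonneg.2 h1) (sub_nonneg.2 h2), sq_nonneg (A * (A - 0.00623)),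
    mul_nonneg (mul_nonneg (sub_nonneg.2 h1) (sub_nonneg.2 h2)) (sq_nonneg A),
    mul_nonneg (sub_nonneg.2 h1) (sq_nonneg (A - 0.00623)),
    mul_nonneg (sub_nonneg.2 h2) (sq_nonneg (A - 0.00623)),
    mul_nonneg (mul_nonneg (sub_nonneg.2 h1) (sub_nonneg.2 h2)) (sq_nonneg (A - 0.00623))]

theorem vt0504 {A d r : ℝ} (hA : 0 ≤ A) (hA1 : A ≤ 0.0269) (hr : 0 ≤ r)
    (hd : d ≤ 1.5 * A ^ 2) (h : r ^ 2 + 0.816 * A * r ≤ 2 * A - d) :
    r ^ 2 + 3 * 0.955 * d ≤ 1.8971 * A + 0.955 / 2 * A ^ 2 + 0.00018 := by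
  refine vt_gen hA hr (by norm_num) hd h fun hq => ?_
  have h1 : 0.001487 ≤ A := by
    by_contra hc
    push Not at hc
    nlinarith
  have := G0504 h1 hA1
  norm_num at this ⊢
  exact this

theorem G0604 {A : ℝ} (h1 : 0.001592 ≤ A) (h2 : A ≤ 0.0327) :
    (0.1057 * A + 2.32 * A ^ 2 - 0.000198) ^ 2 ≤
      0.665856 * A ^ 2 * (1.8943 * A + 0.000198 - 3.82 * A ^ 2) := by
  nlinarith [mul_nonneg (sub_nonneg.2 h1) (sub_nonneg.2 h2), sq_nonneg (A * (A - 0.00675)),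
    mul_nonneg (mul_nonneg (sub_nonneg.2 h1) (sub_nonneg.2 h2)) (sq_nonneg A),
    mul_nonneg (sub_nonneg.2 h1) (sq_nonneg (A - 0.00675)),
    mul_nonneg (sub_nonneg.2 h2) (sq_nonneg (A - 0.00675)),
    mul_nonneg (mul_nonneg (sub_nonneg.2 h1) (sub_nonneg.2 h2)) (sq_nonneg (A - 0.00675))]

theorem vt0604 {A d r : ℝ} (hA : 0 ≤ A) (hA1 : A ≤ 0.0327) (hr : 0 ≤ r)
    (hd : d ≤ 1.5 * A ^ 2) (h : r ^ 2 + 0.816 * A * r ≤ 2 * A - d) :
    r ^ 2 + 3 * 0.955 * d ≤ 1.8943 * A + 0.955 / 2 * A ^ 2 + 0.000198 := by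
  refine vt_gen hA hr (by norm_num) hd h fun hq => ?_
  have h1 : 0.001592 ≤ A := by
    by_contra hc
    push Not at hc
    nlinarith
  have := G0604 h1 hA1
  norm_num at this ⊢
  exact this

theorem G0754 {A : ℝ} (h1 : 0.002228 ≤ A) (h2 : A ≤ 0.0416) :
    (0.1198 * A + 2.3 * A ^ 2 - 0.000314) ^ 2 ≤
      0.665856 * A ^ 2 * (1.8802 * A + 0.000314 - 3.8 * A ^ 2) := by
  nlinarith [mul_nonneg (sub_nonneg.2 h1) (sub_nonneg.2 h2), sq_nonneg (A * (A - 0.01014)),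
    mul_nonneg (mul_nonneg (sub_nonneg.2 h1) (sub_nonneg.2 h2)) (sq_nonneg A),
    mul_nonneg (sub_nonneg.2 h1) (sq_nonneg (A - 0.01014)),
    mul_nonneg (sub_nonneg.2 h2) (sq_nonneg (A - 0.01014)),
    mul_nonneg (mul_nonneg (sub_nonneg.2 h1) (sub_nonneg.2 h2)) (sq_nonneg (A - 0.01014))]

theorem vt0754 {A d r : ℝ} (hA : 0 ≤ A) (hA1 : A ≤ 0.0416) (hr : 0 ≤ r)
    (hd : d ≤ 1.5 * A ^ 2) (h : r ^ 2 + 0.816 * A * r ≤ 2 * A - d) :
    r ^ 2 + 3 * 0.95 * d ≤ 1.8802 * A + 0.95 / 2 * A ^ 2 + 0.000314 := by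
  refine vt_gen hA hr (by norm_num) hd h fun hq => ?_
  have h1 : 0.002228 ≤ A := by
    by_contra hc
    push Not at hc
    nlinarith
  have := G0754 h1 hA1
  norm_num at this ⊢
  exact this

theorem G0904 {A : ℝ} (h1 : 0.002487 ≤ A) (h2 : A ≤ 0.0512) :
    (0.1244 * A + 2.3 * A ^ 2 - 0.000364) ^ 2 ≤
      0.665856 * A ^ 2 * (1.8756 * A + 0.000364 - 3.8 * A ^ 2) := by
  nlinarith [mul_nonneg (sub_nonneg.2 h1) (sub_nonneg.2 h2), sq_nonneg (A * (A - 0.01175)),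
    mul_nonneg (mul_nonneg (sub_nonneg.2 h1) (sub_nonneg.2 h2)) (sq_nonneg A),
    mul_nonneg (sub_nonneg.2 h1) (sq_nonneg (A - 0.01175)),
    mul_nonneg (sub_nonneg.2 h2) (sq_nonneg (A - 0.01175)),
    mul_nonneg (mul_nonneg (sub_nonneg.2 h1) (sub_nonneg.2 h2)) (sq_nonneg (A - 0.01175))]

theorem vt0904 {A d r : ℝ} (hA : 0 ≤ A) (hA1 : A ≤ 0.0512) (hr : 0 ≤ r)
    (hd : d ≤ 1.5 * A ^ 2) (h : r ^ 2 + 0.816 * A * r ≤ 2 * A - d) :
    r ^ 2 + 3 * 0.95 * d ≤ 1.8756 * A + 0.95 / 2 * A ^ 2 + 0.000364 := by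
  refine vt_gen hA hr (by norm_num) hd h fun hq => ?_
  have h1 : 0.002487 ≤ A := by
    by_contra hc
    push Not at hc
    nlinarith
  have := G0904 h1 hA1
  norm_num at this ⊢
  exact this

theorem G1054 {A : ℝ} (h1 : 0.002216 ≤ A) (h2 : A ≤ 0.0612) :
    (0.1193 * A + 2.32 * A ^ 2 - 0.000311) ^ 2 ≤
      0.665856 * A ^ 2 * (1.8807 * A + 0.000311 - 3.82 * A ^ 2) := by
  nlinarith [mul_nonneg (sub_nonneg.2 h1) (sub_nonneg.2 h2), sq_nonneg (A * (A - 0.01011)),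
    mul_nonneg (mul_nonneg (sub_nonneg.2 h1) (sub_nonneg.2 h2)) (sq_nonneg A),
    mul_nonneg (sub_nonneg.2 h1) (sq_nonneg (A - 0.01011)),
    mul_nonneg (sub_nonneg.2 h2) (sq_nonneg (A - 0.01011)),
    mul_nonneg (mul_nonneg (sub_nonneg.2 h1) (sub_nonneg.2 h2)) (sq_nonneg (A - 0.01011))]

theorem vt1054 {A d r : ℝ} (hA : 0 ≤ A) (hA1 : A ≤ 0.0612) (hr : 0 ≤ r)
    (hd : d ≤ 1.5 * A ^ 2) (h : r ^ 2 + 0.816 * A * r ≤ 2 * A - d) :
    r ^ 2 + 3 * 0.955 * d ≤ 1.8807 * A + 0.955 / 2 * A ^ 2 + 0.000311 := by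
  refine vt_gen hA hr (by norm_num) hd h fun hq => ?_
  have h1 : 0.002216 ≤ A := by
    by_contra hc
    push Not at hc
    nlinarith
  have := G1054 h1 hA1
  norm_num at this ⊢
  exact this

theorem G1204 {A : ℝ} (h1 : 0.001567 ≤ A) (h2 : A ≤ 0.0719) :
    (0.1047 * A + 2.36 * A ^ 2 - 0.000193) ^ 2 ≤
      0.665856 * A ^ 2 * (1.8953 * A + 0.000193 - 3.86 * A ^ 2) := by
  nlinarith [mul_nonneg (sub_nonneg.2 h1) (sub_nonneg.2 h2), sq_nonneg (A * (A - 0.00665)),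
    mul_nonneg (mul_nonneg (sub_nonneg.2 h1) (sub_nonneg.2 h2)) (sq_nonneg A),
    mul_nonneg (sub_nonneg.2 h1) (sq_nonneg (A - 0.00665)),
    mul_nonneg (sub_nonneg.2 h2) (sq_nonneg (A - 0.00665)),
    mul_nonneg (mul_nonneg (sub_nonneg.2 h1) (sub_nonneg.2 h2)) (sq_nonneg (A - 0.00665))]

theorem vt1204 {A d r : ℝ} (hA : 0 ≤ A) (hA1 : A ≤ 0.0719) (hr : 0 ≤ r)
    (hd : d ≤ 1.5 * A ^ 2) (h : r ^ 2 + 0.816 * A * r ≤ 2 * A - d) :
    r ^ 2 + 3 * 0.965 * d ≤ 1.8953 * A + 0.965 / 2 * A ^ 2 + 0.000193 := by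
  refine vt_gen hA hr (by norm_num) hd h fun hq => ?_
  have h1 : 0.001567 ≤ A := by
    by_contra hc
    push Not at hc
    nlinarith
  have := G1204 h1 hA1
  norm_num at this ⊢
  exact this

theorem G1728 {A : ℝ} (h1 : 0.002022 ≤ A) (h2 : A ≤ 0.0712) :
    (0.1093 * A + 2.39 * A ^ 2 - 0.00026) ^ 2 ≤
      0.665856 * A ^ 2 * (1.8907 * A + 0.00026 - 3.89 * A ^ 2) := by
  nlinarith [mul_nonneg (sub_nonneg.2 h1) (sub_nonneg.2 h2), sq_nonneg (A * (A - 0.00821)),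
    mul_nonneg (mul_nonneg (sub_nonneg.2 h1) (sub_nonneg.2 h2)) (sq_nonneg A),
    mul_nonneg (sub_nonneg.2 h1) (sq_nonneg (A - 0.00821)),
    mul_nonneg (sub_nonneg.2 h2) (sq_nonneg (A - 0.00821)),
    mul_nonneg (mul_nonneg (sub_nonneg.2 h1) (sub_nonneg.2 h2)) (sq_nonneg (A - 0.00821))]

theorem vt1728 {A d r : ℝ} (hA : 0 ≤ A) (hA1 : A ≤ 0.0712) (hr : 0 ≤ r)
    (hd : d ≤ 1.5 * A ^ 2) (h : r ^ 2 + 0.816 * A * r ≤ 2 * A - d) :
    r ^ 2 + 3 * 0.9725 * d ≤ 1.8907 * A + 0.9725 / 2 * A ^ 2 + 0.00026 := by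
  refine vt_gen hA hr (by norm_num) hd h fun hq => ?_
  have h1 : 0.002022 ≤ A := by
    by_contra hc
    push Not at hc
    nlinarith
  have := G1728 h1 hA1
  norm_num at this ⊢
  exact this

/-! ### the sum over the four vertices -/

section near
variable {K : Set E3} {a c : Fin 4 → E3} (N : Near K a c)
include N

theorem Near.A_sum_le_of {X Am : ℝ} (_ : X ≤ 0.1774) (hE : Eps c ≤ X) (hA : 0 ≤ Am)
    (hA1 : Am ≤ 0.1115) (hAm : X < (2 - 4.5 * Am) * Am) (hs : ∑ i, Adep a c i ≤ 0.1115) :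
    ∑ i, Adep a c i ≤ Am := by
  have h1 := N.A_quad
  have h0 := N.A_sum_nonneg
  by_contra hc
  push Not at hc
  nlinarith

variable (hK : IsCompact K) (hw : Width1 K)
include hK hw

omit hK hw in
theorem Near.sum_t {X Am p t q : ℝ} (ht : 0 ≤ t) (hE : Eps c ≤ X) (hAm : ∑ i, Adep a c i ≤ Am)
    (hp : p ≤ 2 * t - t / 2 * Am)
    (hv : ∀ i, ∀ z ∈ K, max (Qv a i z) 0 + 3 * t * ‖a i - c i‖ ^ 2 ≤
      p * Adep a c i + t / 2 * Adep a c i ^ 2 + q) {z : Fin 4 → E3} (hz : ∀ i, z i ∈ K) :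
    ∑ i, max (Qv a i (z i)) 0 ≤ t * X + 4 * q := by
  have h1 : ∑ i, (max (Qv a i (z i)) 0 + 3 * t * ‖a i - c i‖ ^ 2) ≤
      ∑ i, (p * Adep a c i + t / 2 * Adep a c i ^ 2 + q) :=
    Finset.sum_le_sum fun i _ => hv i (z i) (hz i)
  have h2 := N.budget3
  have h0 := N.A_sum_nonneg
  rw [Finset.sum_add_distrib, Finset.sum_add_distrib, Finset.sum_add_distrib, ← Finset.mul_sum,
    ← Finset.mul_sum, ← Finset.mul_sum] at h1
  simp only [Finset.sum_const, Finset.card_univ, Fintype.card_fin, nsmul_eq_mul] at h1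
  push_cast at h1
  have h3 := mul_le_mul_of_nonneg_left h2 ht
  have h4 := mul_le_mul_of_nonneg_left hE ht
  have h5 : (∑ i, Adep a c i) * (p - (2 * t - t / 2 * Am)) ≤ 0 :=
    mul_nonpos_of_nonneg_of_nonpos h0 (by linarith)
  have h6 : t / 2 * ((∑ i, Adep a c i) * (∑ i, Adep a c i)) ≤
      t / 2 * ((∑ i, Adep a c i) * Am) :=
    mul_le_mul_of_nonneg_left (mul_le_mul_of_nonneg_left hAm h0) (by linarith)
  nlinarith

theorem Near.hv_of {p t q Am : ℝ} (hAm : ∑ i, Adep a c i ≤ Am)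
    (H : ∀ A d r : ℝ, 0 ≤ A → A ≤ Am → 0 ≤ r → d ≤ 1.5 * A ^ 2 →
      r ^ 2 + 0.816 * A * r ≤ 2 * A - d → r ^ 2 + 3 * t * d ≤ p * A + t / 2 * A ^ 2 + q) :
    ∀ i, ∀ z ∈ K, max (Qv a i z) 0 + 3 * t * ‖a i - c i‖ ^ 2 ≤
      p * Adep a c i + t / 2 * Adep a c i ^ 2 + q := by
  intro i z hz
  have h0 : 0 ≤ max (Qv a i z) 0 := le_max_right _ _
  have hs := Real.sq_sqrt h0
  have h1 := H (Adep a c i) (‖a i - c i‖ ^ 2) (√(max (Qv a i z) 0)) (N.A_nonneg i)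
    ((Finset.single_le_sum (f := Adep a c) (fun i _ => N.A_nonneg i) (Finset.mem_univ i)).trans
      hAm) (Real.sqrt_nonneg _) (N.delta_le i) (by rw [hs]; exact N.vertex hK hw i hz rfl)
  rw [hs] at h1
  exact h1

/-- `∑ S ≤ 0.01023` for `X = 0.0104` -/
theorem Near.sum_0104 (hE : Eps c ≤ 0.0104) {z : Fin 4 → E3} (hz : ∀ i, z i ∈ K) :
    ∑ i, max (Qv a i (z i)) 0 ≤ 0.01023 := by
  have hs := N.A_sum_1115 hK hw (hE.trans (by norm_num))
  have hAm := N.A_sum_le_of (Am := 0.00533) (by norm_num) hE (by norm_num) (by norm_num)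
    (by norm_num) hs
  have h := N.sum_t (t := 0.975) (p := 1.9474) (q := 0.00002) (by norm_num) hE hAm
    (by norm_num) (N.hv_of hK hw hAm fun A d r h1 h2 h3 h4 h5 => vt0104 h1 h2 h3 h4 h5) hz
  linarith

/-- `∑ S ≤ 0.01994` for `X = 0.0204` -/
theorem Near.sum_0204 (hE : Eps c ≤ 0.0204) {z : Fin 4 → E3} (hz : ∀ i, z i ∈ K) :
    ∑ i, max (Qv a i (z i)) 0 ≤ 0.01994 := by
  have hs := N.A_sum_1115 hK hw (hE.trans (by norm_num))
  have hAm := N.A_sum_le_of (Am := 0.0105) (by norm_num) hE (by norm_num) (by norm_num)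
    (by norm_num) hs
  have h := N.sum_t (t := 0.965) (p := 1.9249) (q := 0.000062) (by norm_num) hE hAm
    (by norm_num) (N.hv_of hK hw hAm fun A d r h1 h2 h3 h4 h5 => vt0204 h1 h2 h3 h4 h5) hz
  linarith

/-- `∑ S ≤ 0.0296` for `X = 0.0304` -/
theorem Near.sum_0304 (hE : Eps c ≤ 0.0304) {z : Fin 4 → E3} (hz : ∀ i, z i ∈ K) :
    ∑ i, max (Qv a i (z i)) 0 ≤ 0.0296 := by
  have hs := N.A_sum_1115 hK hw (hE.trans (by norm_num))
  have hAm := N.A_sum_le_of (Am := 0.0158) (by norm_num) hE (by norm_num) (by norm_num)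
    (by norm_num) hs
  have h := N.sum_t (t := 0.96) (p := 1.9124) (q := 0.000103) (by norm_num) hE hAm
    (by norm_num) (N.hv_of hK hw hAm fun A d r h1 h2 h3 h4 h5 => vt0304 h1 h2 h3 h4 h5) hz
  linarith

/-- `∑ S ≤ 0.03924` for `X = 0.0404` -/
theorem Near.sum_0404 (hE : Eps c ≤ 0.0404) {z : Fin 4 → E3} (hz : ∀ i, z i ∈ K) :
    ∑ i, max (Qv a i (z i)) 0 ≤ 0.03924 := by
  have hs := N.A_sum_1115 hK hw (hE.trans (by norm_num))
  have hAm := N.A_sum_le_of (Am := 0.0213) (by norm_num) hE (by norm_num) (by norm_num)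
    (by norm_num) hs
  have h := N.sum_t (t := 0.955) (p := 1.8998) (q := 0.000163) (by norm_num) hE hAm
    (by norm_num) (N.hv_of hK hw hAm fun A d r h1 h2 h3 h4 h5 => vt0404 h1 h2 h3 h4 h5) hz
  linarith

/-- `∑ S ≤ 0.04886` for `X = 0.0504` -/
theorem Near.sum_0504 (hE : Eps c ≤ 0.0504) {z : Fin 4 → E3} (hz : ∀ i, z i ∈ K) :
    ∑ i, max (Qv a i (z i)) 0 ≤ 0.04886 := by
  have hs := N.A_sum_1115 hK hw (hE.trans (by norm_num))
  have hAm := N.A_sum_le_of (Am := 0.0269) (by norm_num) hE (by norm_num) (by norm_num)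
    (by norm_num) hs
  have h := N.sum_t (t := 0.955) (p := 1.8971) (q := 0.00018) (by norm_num) hE hAm
    (by norm_num) (N.hv_of hK hw hAm fun A d r h1 h2 h3 h4 h5 => vt0504 h1 h2 h3 h4 h5) hz
  linarith

/-- `∑ S ≤ 0.05848` for `X = 0.0604` -/
theorem Near.sum_0604 (hE : Eps c ≤ 0.0604) {z : Fin 4 → E3} (hz : ∀ i, z i ∈ K) :
    ∑ i, max (Qv a i (z i)) 0 ≤ 0.05848 := by
  have hs := N.A_sum_1115 hK hw (hE.trans (by norm_num))
  have hAm := N.A_sum_le_of (Am := 0.0327) (by norm_num) hE (by norm_num) (by norm_num)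
    (by norm_num) hs
  have h := N.sum_t (t := 0.955) (p := 1.8943) (q := 0.000198) (by norm_num) hE hAm
    (by norm_num) (N.hv_of hK hw hAm fun A d r h1 h2 h3 h4 h5 => vt0604 h1 h2 h3 h4 h5) hz
  linarith

/-- `∑ S ≤ 0.0729` for `X = 0.0754` -/
theorem Near.sum_0754 (hE : Eps c ≤ 0.0754) {z : Fin 4 → E3} (hz : ∀ i, z i ∈ K) :
    ∑ i, max (Qv a i (z i)) 0 ≤ 0.0729 := by
  have hs := N.A_sum_1115 hK hw (hE.trans (by norm_num))
  have hAm := N.A_sum_le_of (Am := 0.0416) (by norm_num) hE (by norm_num) (by norm_num)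
    (by norm_num) hs
  have h := N.sum_t (t := 0.95) (p := 1.8802) (q := 0.000314) (by norm_num) hE hAm
    (by norm_num) (N.hv_of hK hw hAm fun A d r h1 h2 h3 h4 h5 => vt0754 h1 h2 h3 h4 h5) hz
  linarith

/-- `∑ S ≤ 0.08734` for `X = 0.0904` -/
theorem Near.sum_0904 (hE : Eps c ≤ 0.0904) {z : Fin 4 → E3} (hz : ∀ i, z i ∈ K) :
    ∑ i, max (Qv a i (z i)) 0 ≤ 0.08734 := by
  have hs := N.A_sum_1115 hK hw (hE.trans (by norm_num))
  have hAm := N.A_sum_le_of (Am := 0.0512) (by norm_num) hE (by norm_num) (by norm_num)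
    (by norm_num) hs
  have h := N.sum_t (t := 0.95) (p := 1.8756) (q := 0.000364) (by norm_num) hE hAm
    (by norm_num) (N.hv_of hK hw hAm fun A d r h1 h2 h3 h4 h5 => vt0904 h1 h2 h3 h4 h5) hz
  linarith

/-- `∑ S ≤ 0.102` for `X = 0.1054` -/
theorem Near.sum_1054 (hE : Eps c ≤ 0.1054) {z : Fin 4 → E3} (hz : ∀ i, z i ∈ K) :
    ∑ i, max (Qv a i (z i)) 0 ≤ 0.102 := by
  have hs := N.A_sum_1115 hK hw (hE.trans (by norm_num))
  have hAm := N.A_sum_le_of (Am := 0.0612) (by norm_num) hE (by norm_num) (by norm_num)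
    (by norm_num) hs
  have h := N.sum_t (t := 0.955) (p := 1.8807) (q := 0.000311) (by norm_num) hE hAm
    (by norm_num) (N.hv_of hK hw hAm fun A d r h1 h2 h3 h4 h5 => vt1054 h1 h2 h3 h4 h5) hz
  linarith

/-- `∑ S ≤ 0.117` for `X = 0.1204` -/
theorem Near.sum_1204 (hE : Eps c ≤ 0.1204) {z : Fin 4 → E3} (hz : ∀ i, z i ∈ K) :
    ∑ i, max (Qv a i (z i)) 0 ≤ 0.117 := by
  have hs := N.A_sum_1115 hK hw (hE.trans (by norm_num))
  have hAm := N.A_sum_le_of (Am := 0.0719) (by norm_num) hE (by norm_num) (by norm_num)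
    (by norm_num) hs
  have h := N.sum_t (t := 0.965) (p := 1.8953) (q := 0.000193) (by norm_num) hE hAm
    (by norm_num) (N.hv_of hK hw hAm fun A d r h1 h2 h3 h4 h5 => vt1204 h1 h2 h3 h4 h5) hz
  linarith

/-- `∑ S ≤ 0.1691` for `X = 0.1728` (uses the cap `0.115`) -/
theorem Near.sum_1728 (hE : Eps c ≤ 0.1728) {z : Fin 4 → E3} (hz : ∀ i, z i ∈ K)
    (hc : ∀ i, ∀ z ∈ K, Qv a i z ≤ 0.115) :
    ∑ i, max (Qv a i (z i)) 0 ≤ 0.1691 := by
  have hs := N.A_sum_1115 hK hw (hE.trans (by norm_num))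
  have h := N.sum_t (t := 0.9725) (p := 1.8907) (q := 0.00026) (by norm_num) hE hs
    (by norm_num) ?_ hz
  · linarith
  intro i z hz
  have hA1 : Adep a c i ≤ 0.1115 :=
    (Finset.single_le_sum (f := Adep a c) (fun i _ => N.A_nonneg i) (Finset.mem_univ i)).trans hs
  have hA0 := N.A_nonneg i
  have hd := N.delta_le i
  rcases le_total (Adep a c i) 0.0712 with hA | hA
  · have h0 : 0 ≤ max (Qv a i z) 0 := le_max_right _ _
    have hs' := Real.sq_sqrt h0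
    have h1 := vt1728 hA0 hA (Real.sqrt_nonneg _) hd
      (by rw [hs']; exact N.vertex hK hw i hz rfl)
    rw [hs'] at h1
    exact h1
  · have h1 : max (Qv a i z) 0 ≤ 0.115 := max_le (hc i z hz) (by norm_num)
    nlinarith

end near

/-! ### the sum of the violations -/

variable {K : Set E3} {σ : Measure (E3 × E3)} {a c : Fin 4 → E3} {S : Fin 4 → ℝ} {X B : ℝ}

theorem sumS_le (hC : CN K σ a c) (hV : Viol K a S)
    (H : ∀ z : Fin 4 → E3, (∀ i, z i ∈ K) → ∑ i, max (Qv a i (z i)) 0 ≤ B) :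
    ∑ i, S i ≤ B := by
  have N := hC.near
  have hch : ∀ i, ∃ z ∈ K, S i ≤ max (Qv a i z) 0 := by
    intro i
    rcases hV.att i with h | ⟨z, hz, h⟩
    · exact ⟨c i, N.mem i, by rw [h]; exact le_max_right _ _⟩
    · exact ⟨z, hz, by rw [h]; exact le_max_left _ _⟩
  choose z hz hSz using hch
  exact (Finset.sum_le_sum fun i _ => hSz i).trans (H z hz)

/-- `B` bounds the sum of the violations of all bodies with `Eps ≤ X` -/
def SumB (X B : ℝ) : Prop :=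
  ∀ (K : Set E3) (σ : Measure (E3 × E3)) (a c : Fin 4 → E3) (S : Fin 4 → ℝ),
    CN K σ a c → EpsLe c X → Viol K a S → ∑ i, S i ≤ B

theorem SumB.mono {X' B' : ℝ} (h : SumB X B) (hX : X' ≤ X) (hB : B ≤ B') : SumB X' B' := by
  intro K σ a c S hC hE hV
  refine (h K σ a c S hC ?_ hV).trans hB
  unfold EpsLe at hE ⊢
  linarith

/-- the bound may be added to any set of states -/
theorem coreP_sumB {P : (Fin 4 → ℝ) → Prop} {κ : ℝ} (hB : SumB X B)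
    (h : CoreP (fun S => P S ∧ ∑ i, S i ≤ B) X κ) : CoreP P X κ := by
  intro K σ hσ a c hC hE S hV hS i
  exact h K σ hσ a c hC hE S hV ⟨hS, hB K σ a c S hC hE hV⟩ i

/-- all typed bounds at once: the states that occur and the sum bound -/
theorem coreX_sumB {κ : ℝ} (hX : X ≤ 0.1774) (hB : SumB X B)
    (h : CoreP (fun S => StX X S ∧ ∑ i, S i ≤ B) X κ) : CoreX X κ :=
  coreX_of_one (fun K σ _ a c hC hE _ hV => ⟨stX hC hX hE hV, hB K σ a c _ hC hE hV⟩) h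

theorem sumB_0104 : SumB 0.0104 0.01023 := fun _ _ _ _ _ hC hE hV =>
  sumS_le hC hV fun _ hz => hC.near.sum_0104 hC.cpt hC.w1 (eps_of_epsLe hE) hz

theorem sumB_0204 : SumB 0.0204 0.01994 := fun _ _ _ _ _ hC hE hV =>
  sumS_le hC hV fun _ hz => hC.near.sum_0204 hC.cpt hC.w1 (eps_of_epsLe hE) hz

theorem sumB_0304 : SumB 0.0304 0.0296 := fun _ _ _ _ _ hC hE hV =>
  sumS_le hC hV fun _ hz => hC.near.sum_0304 hC.cpt hC.w1 (eps_of_epsLe hE) hz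

theorem sumB_0404 : SumB 0.0404 0.03924 := fun _ _ _ _ _ hC hE hV =>
  sumS_le hC hV fun _ hz => hC.near.sum_0404 hC.cpt hC.w1 (eps_of_epsLe hE) hz

theorem sumB_0504 : SumB 0.0504 0.04886 := fun _ _ _ _ _ hC hE hV =>
  sumS_le hC hV fun _ hz => hC.near.sum_0504 hC.cpt hC.w1 (eps_of_epsLe hE) hz

theorem sumB_0604 : SumB 0.0604 0.05848 := fun _ _ _ _ _ hC hE hV =>
  sumS_le hC hV fun _ hz => hC.near.sum_0604 hC.cpt hC.w1 (eps_of_epsLe hE) hz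

theorem sumB_0754 : SumB 0.0754 0.0729 := fun _ _ _ _ _ hC hE hV =>
  sumS_le hC hV fun _ hz => hC.near.sum_0754 hC.cpt hC.w1 (eps_of_epsLe hE) hz

theorem sumB_0904 : SumB 0.0904 0.08734 := fun _ _ _ _ _ hC hE hV =>
  sumS_le hC hV fun _ hz => hC.near.sum_0904 hC.cpt hC.w1 (eps_of_epsLe hE) hz

theorem sumB_1054 : SumB 0.1054 0.102 := fun _ _ _ _ _ hC hE hV =>
  sumS_le hC hV fun _ hz => hC.near.sum_1054 hC.cpt hC.w1 (eps_of_epsLe hE) hz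

theorem sumB_1204 : SumB 0.1204 0.117 := fun _ _ _ _ _ hC hE hV =>
  sumS_le hC hV fun _ hz => hC.near.sum_1204 hC.cpt hC.w1 (eps_of_epsLe hE) hz

theorem sumB_1728 : SumB 0.1728 0.1691 := fun _ _ _ _ _ hC hE hV =>
  sumS_le hC hV fun _ hz => hC.near.sum_1728 hC.cpt hC.w1 (eps_of_epsLe hE) hz fun i _ hz =>
    (Helper37.MEI.Clq.lt115 hC.near hC.cpt hC.w1 hC.cvx ((eps_of_epsLe hE).trans (by norm_num))
      i hz).le

end Helper13.PLM
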