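import Pool.Agent.Helper13.PLM.SumX

/-!
# Project MEI (M2): sharper bounds for the sum of the violations, small `X`
-/

set_option autoImplicit false

namespace Helper13.PLM

open Set Metric Finset MeasureTheory Helper80.CW Helper82.CW Helper14.CW Helper93.MEI Helper66.MEI
open Helper14.MEI2 Helper82.M2 Helper78.MEI
open scoped RealInnerProductSpace

theorem G00608 {A : ℝ} (h1 : 0.0002071 ≤ A) (h2 : A ≤ 0.003062) :
    (0.0435 * A + 2.416 * A ^ 2 - 0.0000106) ^ 2 ≤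
      0.665856 * A ^ 2 * (1.9565 * A + 0.0000106 - 3.916 * A ^ 2) := by
  nlinarith [mul_nonneg (sub_nonneg.2 h1) (sub_nonneg.2 h2), sq_nonneg (A * (A - 0.0007623)),
    mul_nonneg (mul_nonneg (sub_nonneg.2 h1) (sub_nonneg.2 h2)) (sq_nonneg A),
    mul_nonneg (sub_nonneg.2 h1) (sq_nonneg (A - 0.0007623)),
    mul_nonneg (sub_nonneg.2 h2) (sq_nonneg (A - 0.0007623)),
    mul_nonneg (mul_nonneg (sub_nonneg.2 h1) (sub_nonneg.2 h2)) (sq_nonneg (A - 0.0007623))]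

theorem vt00608 {A d r : ℝ} (hA : 0 ≤ A) (hA1 : A ≤ 0.003062) (hr : 0 ≤ r)
    (hd : d ≤ 1.5 * A ^ 2) (h : r ^ 2 + 0.816 * A * r ≤ 2 * A - d) :
    r ^ 2 + 3 * 0.979 * d ≤ 1.9565 * A + 0.979 / 2 * A ^ 2 + 0.0000106 := by
  refine vt_gen hA hr (by norm_num) hd h fun hq => ?_
  have h1 : 0.0002071 ≤ A := by
    by_contra hc
    push Not at hc
    nlinarith
  have := G00608 h1 hA1
  norm_num at this ⊢
  exact this

theorem G0069 {A : ℝ} (h1 : 0.0002306 ≤ A) (h2 : A ≤ 0.003478) :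
    (0.04571 * A + 2.412 * A ^ 2 - 0.0000124) ^ 2 ≤
      0.665856 * A ^ 2 * (1.95429 * A + 0.0000124 - 3.912 * A ^ 2) := by
  nlinarith [mul_nonneg (sub_nonneg.2 h1) (sub_nonneg.2 h2), sq_nonneg (A * (A - 0.0008509)),
    mul_nonneg (mul_nonneg (sub_nonneg.2 h1) (sub_nonneg.2 h2)) (sq_nonneg A),
    mul_nonneg (sub_nonneg.2 h1) (sq_nonneg (A - 0.0008509)),
    mul_nonneg (sub_nonneg.2 h2) (sq_nonneg (A - 0.0008509)),
    mul_nonneg (mul_nonneg (sub_nonneg.2 h1) (sub_nonneg.2 h2)) (sq_nonneg (A - 0.0008509))]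

theorem vt0069 {A d r : ℝ} (hA : 0 ≤ A) (hA1 : A ≤ 0.003478) (hr : 0 ≤ r)
    (hd : d ≤ 1.5 * A ^ 2) (h : r ^ 2 + 0.816 * A * r ≤ 2 * A - d) :
    r ^ 2 + 3 * 0.978 * d ≤ 1.95429 * A + 0.978 / 2 * A ^ 2 + 0.0000124 := by
  refine vt_gen hA hr (by norm_num) hd h fun hq => ?_
  have h1 : 0.0002306 ≤ A := by
    by_contra hc
    push Not at hc
    nlinarith
  have := G0069 h1 hA1
  norm_num at this ⊢
  exact this

theorem G00833 {A : ℝ} (h1 : 0.0002802 ≤ A) (h2 : A ≤ 0.004206) :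
    (0.05006 * A + 2.404 * A ^ 2 - 0.0000165) ^ 2 ≤
      0.665856 * A ^ 2 * (1.94994 * A + 0.0000165 - 3.904 * A ^ 2) := by
  nlinarith [mul_nonneg (sub_nonneg.2 h1) (sub_nonneg.2 h2), sq_nonneg (A * (A - 0.001042)),
    mul_nonneg (mul_nonneg (sub_nonneg.2 h1) (sub_nonneg.2 h2)) (sq_nonneg A),
    mul_nonneg (sub_nonneg.2 h1) (sq_nonneg (A - 0.001042)),
    mul_nonneg (sub_nonneg.2 h2) (sq_nonneg (A - 0.001042)),
    mul_nonneg (mul_nonneg (sub_nonneg.2 h1) (sub_nonneg.2 h2)) (sq_nonneg (A - 0.001042))]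

theorem vt00833 {A d r : ℝ} (hA : 0 ≤ A) (hA1 : A ≤ 0.004206) (hr : 0 ≤ r)
    (hd : d ≤ 1.5 * A ^ 2) (h : r ^ 2 + 0.816 * A * r ≤ 2 * A - d) :
    r ^ 2 + 3 * 0.976 * d ≤ 1.94994 * A + 0.976 / 2 * A ^ 2 + 0.0000165 := by
  refine vt_gen hA hr (by norm_num) hd h fun hq => ?_
  have h1 : 0.0002802 ≤ A := by
    by_contra hc
    push Not at hc
    nlinarith
  have := G00833 h1 hA1
  norm_num at this ⊢
  exact this

theorem G00884 {A : ℝ} (h1 : 0.000294 ≤ A) (h2 : A ≤ 0.004466) :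
    (0.05118 * A + 2.402 * A ^ 2 - 0.0000177) ^ 2 ≤
      0.665856 * A ^ 2 * (1.94882 * A + 0.0000177 - 3.902 * A ^ 2) := by
  nlinarith [mul_nonneg (sub_nonneg.2 h1) (sub_nonneg.2 h2), sq_nonneg (A * (A - 0.0010952)),
    mul_nonneg (mul_nonneg (sub_nonneg.2 h1) (sub_nonneg.2 h2)) (sq_nonneg A),
    mul_nonneg (sub_nonneg.2 h1) (sq_nonneg (A - 0.0010952)),
    mul_nonneg (sub_nonneg.2 h2) (sq_nonneg (A - 0.0010952)),
    mul_nonneg (mul_nonneg (sub_nonneg.2 h1) (sub_nonneg.2 h2)) (sq_nonneg (A - 0.0010952))]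

theorem vt00884 {A d r : ℝ} (hA : 0 ≤ A) (hA1 : A ≤ 0.004466) (hr : 0 ≤ r)
    (hd : d ≤ 1.5 * A ^ 2) (h : r ^ 2 + 0.816 * A * r ≤ 2 * A - d) :
    r ^ 2 + 3 * 0.9755 * d ≤ 1.94882 * A + 0.9755 / 2 * A ^ 2 + 0.0000177 := by
  refine vt_gen hA hr (by norm_num) hd h fun hq => ?_
  have h1 : 0.000294 ≤ A := by
    by_contra hc
    push Not at hc
    nlinarith
  have := G00884 h1 hA1
  norm_num at this ⊢
  exact this

theorem G01089 {A : ℝ} (h1 : 0.0003673 ≤ A) (h2 : A ≤ 0.005514) :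
    (0.05669 * A + 2.392 * A ^ 2 - 0.0000245) ^ 2 ≤
      0.665856 * A ^ 2 * (1.94331 * A + 0.0000245 - 3.892 * A ^ 2) := by
  nlinarith [mul_nonneg (sub_nonneg.2 h1) (sub_nonneg.2 h2), sq_nonneg (A * (A - 0.0013818)),
    mul_nonneg (mul_nonneg (sub_nonneg.2 h1) (sub_nonneg.2 h2)) (sq_nonneg A),
    mul_nonneg (sub_nonneg.2 h1) (sq_nonneg (A - 0.0013818)),
    mul_nonneg (sub_nonneg.2 h2) (sq_nonneg (A - 0.0013818)),
    mul_nonneg (mul_nonneg (sub_nonneg.2 h1) (sub_nonneg.2 h2)) (sq_nonneg (A - 0.0013818))]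

theorem vt01089 {A d r : ℝ} (hA : 0 ≤ A) (hA1 : A ≤ 0.005514) (hr : 0 ≤ r)
    (hd : d ≤ 1.5 * A ^ 2) (h : r ^ 2 + 0.816 * A * r ≤ 2 * A - d) :
    r ^ 2 + 3 * 0.973 * d ≤ 1.94331 * A + 0.973 / 2 * A ^ 2 + 0.0000245 := by
  refine vt_gen hA hr (by norm_num) hd h fun hq => ?_
  have h1 : 0.0003673 ≤ A := by
    by_contra hc
    push Not at hc
    nlinarith
  have := G01089 h1 hA1
  norm_num at this ⊢
  exact this

theorem G01377 {A : ℝ} (h1 : 0.0004536 ≤ A) (h2 : A ≤ 0.006996) :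
    (0.0624 * A + 2.382 * A ^ 2 - 0.0000333) ^ 2 ≤
      0.665856 * A ^ 2 * (1.9376 * A + 0.0000333 - 3.882 * A ^ 2) := by
  nlinarith [mul_nonneg (sub_nonneg.2 h1) (sub_nonneg.2 h2), sq_nonneg (A * (A - 0.0017251)),
    mul_nonneg (mul_nonneg (sub_nonneg.2 h1) (sub_nonneg.2 h2)) (sq_nonneg A),
    mul_nonneg (sub_nonneg.2 h1) (sq_nonneg (A - 0.0017251)),
    mul_nonneg (sub_nonneg.2 h2) (sq_nonneg (A - 0.0017251)),
    mul_nonneg (mul_nonneg (sub_nonneg.2 h1) (sub_nonneg.2 h2)) (sq_nonneg (A - 0.0017251))]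

theorem vt01377 {A d r : ℝ} (hA : 0 ≤ A) (hA1 : A ≤ 0.006996) (hr : 0 ≤ r)
    (hd : d ≤ 1.5 * A ^ 2) (h : r ^ 2 + 0.816 * A * r ≤ 2 * A - d) :
    r ^ 2 + 3 * 0.9705 * d ≤ 1.9376 * A + 0.9705 / 2 * A ^ 2 + 0.0000333 := by
  refine vt_gen hA hr (by norm_num) hd h fun hq => ?_
  have h1 : 0.0004536 ≤ A := by
    by_contra hc
    push Not at hc
    nlinarith
  have := G01377 h1 hA1
  norm_num at this ⊢
  exact this

section near
variable {K : Set E3} {a c : Fin 4 → E3} (N : Near K a c)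
include N
variable (hK : IsCompact K) (hw : Width1 K)
include hK hw

/-- `∑ S ≤ 0.0060` for `X = 0.00608` -/
theorem Near.sum_00608 (hE : Eps c ≤ 0.00608) {z : Fin 4 → E3} (hz : ∀ i, z i ∈ K) :
    ∑ i, max (Qv a i (z i)) 0 ≤ 0.0060 := by
  have hs := N.A_sum_1115 hK hw (hE.trans (by norm_num))
  have hAm := N.A_sum_le_of (Am := 0.003062) (by norm_num) hE (by norm_num) (by norm_num)
    (by norm_num) hs
  have h := N.sum_t (t := 0.979) (p := 1.9565) (q := 0.0000106) (by norm_num) hE hAm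
    (by norm_num) (N.hv_of hK hw hAm fun A d r h1 h2 h3 h4 h5 => vt00608 h1 h2 h3 h4 h5) hz
  linarith

/-- `∑ S ≤ 0.0068` for `X = 0.0069` -/
theorem Near.sum_0069 (hE : Eps c ≤ 0.0069) {z : Fin 4 → E3} (hz : ∀ i, z i ∈ K) :
    ∑ i, max (Qv a i (z i)) 0 ≤ 0.0068 := by
  have hs := N.A_sum_1115 hK hw (hE.trans (by norm_num))
  have hAm := N.A_sum_le_of (Am := 0.003478) (by norm_num) hE (by norm_num) (by norm_num)
    (by norm_num) hs
  have h := N.sum_t (t := 0.978) (p := 1.95429) (q := 0.0000124) (by norm_num) hE hAm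
    (by norm_num) (N.hv_of hK hw hAm fun A d r h1 h2 h3 h4 h5 => vt0069 h1 h2 h3 h4 h5) hz
  linarith

/-- `∑ S ≤ 0.0082` for `X = 0.00833` -/
theorem Near.sum_00833 (hE : Eps c ≤ 0.00833) {z : Fin 4 → E3} (hz : ∀ i, z i ∈ K) :
    ∑ i, max (Qv a i (z i)) 0 ≤ 0.0082 := by
  have hs := N.A_sum_1115 hK hw (hE.trans (by norm_num))
  have hAm := N.A_sum_le_of (Am := 0.004206) (by norm_num) hE (by norm_num) (by norm_num)
    (by norm_num) hs
  have h := N.sum_t (t := 0.976) (p := 1.94994) (q := 0.0000165) (by norm_num) hE hAm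
    (by norm_num) (N.hv_of hK hw hAm fun A d r h1 h2 h3 h4 h5 => vt00833 h1 h2 h3 h4 h5) hz
  linarith

/-- `∑ S ≤ 0.0087` for `X = 0.00884` -/
theorem Near.sum_00884 (hE : Eps c ≤ 0.00884) {z : Fin 4 → E3} (hz : ∀ i, z i ∈ K) :
    ∑ i, max (Qv a i (z i)) 0 ≤ 0.0087 := by
  have hs := N.A_sum_1115 hK hw (hE.trans (by norm_num))
  have hAm := N.A_sum_le_of (Am := 0.004466) (by norm_num) hE (by norm_num) (by norm_num)
    (by norm_num) hs
  have h := N.sum_t (t := 0.9755) (p := 1.94882) (q := 0.0000177) (by norm_num) hE hAm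
    (by norm_num) (N.hv_of hK hw hAm fun A d r h1 h2 h3 h4 h5 => vt00884 h1 h2 h3 h4 h5) hz
  linarith

/-- `∑ S ≤ 0.0107` for `X = 0.01089` -/
theorem Near.sum_01089 (hE : Eps c ≤ 0.01089) {z : Fin 4 → E3} (hz : ∀ i, z i ∈ K) :
    ∑ i, max (Qv a i (z i)) 0 ≤ 0.0107 := by
  have hs := N.A_sum_1115 hK hw (hE.trans (by norm_num))
  have hAm := N.A_sum_le_of (Am := 0.005514) (by norm_num) hE (by norm_num) (by norm_num)
    (by norm_num) hs
  have h := N.sum_t (t := 0.973) (p := 1.94331) (q := 0.0000245) (by norm_num) hE hAm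
    (by norm_num) (N.hv_of hK hw hAm fun A d r h1 h2 h3 h4 h5 => vt01089 h1 h2 h3 h4 h5) hz
  linarith

/-- `∑ S ≤ 0.0135` for `X = 0.01377` -/
theorem Near.sum_01377 (hE : Eps c ≤ 0.01377) {z : Fin 4 → E3} (hz : ∀ i, z i ∈ K) :
    ∑ i, max (Qv a i (z i)) 0 ≤ 0.0135 := by
  have hs := N.A_sum_1115 hK hw (hE.trans (by norm_num))
  have hAm := N.A_sum_le_of (Am := 0.006996) (by norm_num) hE (by norm_num) (by norm_num)
    (by norm_num) hs
  have h := N.sum_t (t := 0.9705) (p := 1.9376) (q := 0.0000333) (by norm_num) hE hAm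
    (by norm_num) (N.hv_of hK hw hAm fun A d r h1 h2 h3 h4 h5 => vt01377 h1 h2 h3 h4 h5) hz
  linarith

end near

theorem sumB_00608 : SumB 0.00608 0.0060 := fun _ _ _ _ _ hC hE hV =>
  sumS_le hC hV fun _ hz => hC.near.sum_00608 hC.cpt hC.w1 (eps_of_epsLe hE) hz

theorem sumB_0069 : SumB 0.0069 0.0068 := fun _ _ _ _ _ hC hE hV =>
  sumS_le hC hV fun _ hz => hC.near.sum_0069 hC.cpt hC.w1 (eps_of_epsLe hE) hz

theorem sumB_00833 : SumB 0.00833 0.0082 := fun _ _ _ _ _ hC hE hV =>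
  sumS_le hC hV fun _ hz => hC.near.sum_00833 hC.cpt hC.w1 (eps_of_epsLe hE) hz

theorem sumB_00884 : SumB 0.00884 0.0087 := fun _ _ _ _ _ hC hE hV =>
  sumS_le hC hV fun _ hz => hC.near.sum_00884 hC.cpt hC.w1 (eps_of_epsLe hE) hz

theorem sumB_01089 : SumB 0.01089 0.0107 := fun _ _ _ _ _ hC hE hV =>
  sumS_le hC hV fun _ hz => hC.near.sum_01089 hC.cpt hC.w1 (eps_of_epsLe hE) hz

theorem sumB_01377 : SumB 0.01377 0.0135 := fun _ _ _ _ _ hC hE hV =>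
  sumS_le hC hV fun _ hz => hC.near.sum_01377 hC.cpt hC.w1 (eps_of_epsLe hE) hz

end Helper13.PLM
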