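import Pool.Agent.Helper13.PLM.SumX

/-!
# Project MEI (M2): sharper bounds for the sum of the violations, small `X`
-/

set_option autoImplicit false

namespace Helper13.PLM

open Set Metric Finset MeasureTheory Helper80.CW Helper82.CW Helper14.CW Helper93.MEI Helper66.MEI
open Helper14.MEI2 Helper82.M2 Helper78.MEI
open scoped RealInnerProductSpace

theorem G00752 {A : ℝ} (h1 : 0.000254 ≤ A) (h2 : A ≤ 0.003793) :
    (0.04786 * A + 2.408 * A ^ 2 - 0.0000143) ^ 2 ≤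
      0.665856 * A ^ 2 * (1.95214 * A + 0.0000143 - 3.908 * A ^ 2) := by
  nlinarith [mul_nonneg (sub_nonneg.2 h1) (sub_nonneg.2 h2), sq_nonneg (A * (A - 0.0009419)),
    mul_nonneg (mul_nonneg (sub_nonneg.2 h1) (sub_nonneg.2 h2)) (sq_nonneg A),
    mul_nonneg (sub_nonneg.2 h1) (sq_nonneg (A - 0.0009419)),
    mul_nonneg (sub_nonneg.2 h2) (sq_nonneg (A - 0.0009419)),
    mul_nonneg (mul_nonneg (sub_nonneg.2 h1) (sub_nonneg.2 h2)) (sq_nonneg (A - 0.0009419))]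

theorem vt00752 {A d r : ℝ} (hA : 0 ≤ A) (hA1 : A ≤ 0.003793) (hr : 0 ≤ r)
    (hd : d ≤ 1.5 * A ^ 2) (h : r ^ 2 + 0.816 * A * r ≤ 2 * A - d) :
    r ^ 2 + 3 * 0.977 * d ≤ 1.95214 * A + 0.977 / 2 * A ^ 2 + 0.0000143 := by
  refine vt_gen hA hr (by norm_num) hd h fun hq => ?_
  have h1 : 0.000254 ≤ A := by
    by_contra hc
    push Not at hc
    nlinarith
  have := G00752 h1 hA1
  norm_num at this ⊢
  exact this

theorem G0095 {A : ℝ} (h1 : 0.0003218 ≤ A) (h2 : A ≤ 0.004803) :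
    (0.05335 * A + 2.398 * A ^ 2 - 0.0000202) ^ 2 ≤
      0.665856 * A ^ 2 * (1.94665 * A + 0.0000202 - 3.898 * A ^ 2) := by
  nlinarith [mul_nonneg (sub_nonneg.2 h1) (sub_nonneg.2 h2), sq_nonneg (A * (A - 0.0012033)),
    mul_nonneg (mul_nonneg (sub_nonneg.2 h1) (sub_nonneg.2 h2)) (sq_nonneg A),
    mul_nonneg (sub_nonneg.2 h1) (sq_nonneg (A - 0.0012033)),
    mul_nonneg (sub_nonneg.2 h2) (sq_nonneg (A - 0.0012033)),
    mul_nonneg (mul_nonneg (sub_nonneg.2 h1) (sub_nonneg.2 h2)) (sq_nonneg (A - 0.0012033))]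

theorem vt0095 {A d r : ℝ} (hA : 0 ≤ A) (hA1 : A ≤ 0.004803) (hr : 0 ≤ r)
    (hd : d ≤ 1.5 * A ^ 2) (h : r ^ 2 + 0.816 * A * r ≤ 2 * A - d) :
    r ^ 2 + 3 * 0.9745 * d ≤ 1.94665 * A + 0.9745 / 2 * A ^ 2 + 0.0000202 := by
  refine vt_gen hA hr (by norm_num) hd h fun hq => ?_
  have h1 : 0.0003218 ≤ A := by
    by_contra hc
    push Not at hc
    nlinarith
  have := G0095 h1 hA1
  norm_num at this ⊢
  exact this

theorem G0120 {A : ℝ} (h1 : 0.0003993 ≤ A) (h2 : A ≤ 0.006084) :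
    (0.05896 * A + 2.388 * A ^ 2 - 0.0000277) ^ 2 ≤
      0.665856 * A ^ 2 * (1.94104 * A + 0.0000277 - 3.888 * A ^ 2) := by
  nlinarith [mul_nonneg (sub_nonneg.2 h1) (sub_nonneg.2 h2), sq_nonneg (A * (A - 0.0015111)),
    mul_nonneg (mul_nonneg (sub_nonneg.2 h1) (sub_nonneg.2 h2)) (sq_nonneg A),
    mul_nonneg (sub_nonneg.2 h1) (sq_nonneg (A - 0.0015111)),
    mul_nonneg (sub_nonneg.2 h2) (sq_nonneg (A - 0.0015111)),
    mul_nonneg (mul_nonneg (sub_nonneg.2 h1) (sub_nonneg.2 h2)) (sq_nonneg (A - 0.0015111))]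

theorem vt0120 {A d r : ℝ} (hA : 0 ≤ A) (hA1 : A ≤ 0.006084) (hr : 0 ≤ r)
    (hd : d ≤ 1.5 * A ^ 2) (h : r ^ 2 + 0.816 * A * r ≤ 2 * A - d) :
    r ^ 2 + 3 * 0.972 * d ≤ 1.94104 * A + 0.972 / 2 * A ^ 2 + 0.0000277 := by
  refine vt_gen hA hr (by norm_num) hd h fun hq => ?_
  have h1 : 0.0003993 ≤ A := by
    by_contra hc
    push Not at hc
    nlinarith
  have := G0120 h1 hA1
  norm_num at this ⊢
  exact this

theorem G0150 {A : ℝ} (h1 : 0.0005084 ≤ A) (h2 : A ≤ 0.007632) :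
    (0.0657 * A + 2.376 * A ^ 2 - 0.0000393) ^ 2 ≤
      0.665856 * A ^ 2 * (1.9343 * A + 0.0000393 - 3.876 * A ^ 2) := by
  nlinarith [mul_nonneg (sub_nonneg.2 h1) (sub_nonneg.2 h2), sq_nonneg (A * (A - 0.001947)),
    mul_nonneg (mul_nonneg (sub_nonneg.2 h1) (sub_nonneg.2 h2)) (sq_nonneg A),
    mul_nonneg (sub_nonneg.2 h1) (sq_nonneg (A - 0.001947)),
    mul_nonneg (sub_nonneg.2 h2) (sq_nonneg (A - 0.001947)),
    mul_nonneg (mul_nonneg (sub_nonneg.2 h1) (sub_nonneg.2 h2)) (sq_nonneg (A - 0.001947))]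

theorem vt0150 {A d r : ℝ} (hA : 0 ≤ A) (hA1 : A ≤ 0.007632) (hr : 0 ≤ r)
    (hd : d ≤ 1.5 * A ^ 2) (h : r ^ 2 + 0.816 * A * r ≤ 2 * A - d) :
    r ^ 2 + 3 * 0.969 * d ≤ 1.9343 * A + 0.969 / 2 * A ^ 2 + 0.0000393 := by
  refine vt_gen hA hr (by norm_num) hd h fun hq => ?_
  have h1 : 0.0005084 ≤ A := by
    by_contra hc
    push Not at hc
    nlinarith
  have := G0150 h1 hA1
  norm_num at this ⊢
  exact this

theorem G0254 {A : ℝ} (h1 : 0.0009525 ≤ A) (h2 : A ≤ 0.013086) :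
    (0.08629 * A + 2.34 * A ^ 2 - 0.0000967) ^ 2 ≤
      0.665856 * A ^ 2 * (1.91371 * A + 0.0000967 - 3.84 * A ^ 2) := by
  nlinarith [mul_nonneg (sub_nonneg.2 h1) (sub_nonneg.2 h2), sq_nonneg (A * (A - 0.0038172)),
    mul_nonneg (mul_nonneg (sub_nonneg.2 h1) (sub_nonneg.2 h2)) (sq_nonneg A),
    mul_nonneg (sub_nonneg.2 h1) (sq_nonneg (A - 0.0038172)),
    mul_nonneg (sub_nonneg.2 h2) (sq_nonneg (A - 0.0038172)),
    mul_nonneg (mul_nonneg (sub_nonneg.2 h1) (sub_nonneg.2 h2)) (sq_nonneg (A - 0.0038172))]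

theorem vt0254 {A d r : ℝ} (hA : 0 ≤ A) (hA1 : A ≤ 0.013086) (hr : 0 ≤ r)
    (hd : d ≤ 1.5 * A ^ 2) (h : r ^ 2 + 0.816 * A * r ≤ 2 * A - d) :
    r ^ 2 + 3 * 0.96 * d ≤ 1.91371 * A + 0.96 / 2 * A ^ 2 + 0.0000967 := by
  refine vt_gen hA hr (by norm_num) hd h fun hq => ?_
  have h1 : 0.0009525 ≤ A := by
    by_contra hc
    push Not at hc
    nlinarith
  have := G0254 h1 hA1
  norm_num at this ⊢
  exact this

section near
variable {K : Set E3} {a c : Fin 4 → E3} (N : Near K a c)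
include N
variable (hK : IsCompact K) (hw : Width1 K)
include hK hw

/-- `∑ S ≤ 0.00742` for `X = 0.00752` -/
theorem Near.sum_00752 (hE : Eps c ≤ 0.00752) {z : Fin 4 → E3} (hz : ∀ i, z i ∈ K) :
    ∑ i, max (Qv a i (z i)) 0 ≤ 0.00742 := by
  have hs := N.A_sum_1115 hK hw (hE.trans (by norm_num))
  have hAm := N.A_sum_le_of (Am := 0.003793) (by norm_num) hE (by norm_num) (by norm_num)
    (by norm_num) hs
  have h := N.sum_t (t := 0.977) (p := 1.95214) (q := 0.0000143) (by norm_num) hE hAm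
    (by norm_num) (N.hv_of hK hw hAm fun A d r h1 h2 h3 h4 h5 => vt00752 h1 h2 h3 h4 h5) hz
  linarith

/-- `∑ S ≤ 0.00936` for `X = 0.0095` -/
theorem Near.sum_0095 (hE : Eps c ≤ 0.0095) {z : Fin 4 → E3} (hz : ∀ i, z i ∈ K) :
    ∑ i, max (Qv a i (z i)) 0 ≤ 0.00936 := by
  have hs := N.A_sum_1115 hK hw (hE.trans (by norm_num))
  have hAm := N.A_sum_le_of (Am := 0.004803) (by norm_num) hE (by norm_num) (by norm_num)
    (by norm_num) hs
  have h := N.sum_t (t := 0.9745) (p := 1.94665) (q := 0.0000202) (by norm_num) hE hAm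
    (by norm_num) (N.hv_of hK hw hAm fun A d r h1 h2 h3 h4 h5 => vt0095 h1 h2 h3 h4 h5) hz
  linarith

/-- `∑ S ≤ 0.0118` for `X = 0.0120` -/
theorem Near.sum_0120 (hE : Eps c ≤ 0.0120) {z : Fin 4 → E3} (hz : ∀ i, z i ∈ K) :
    ∑ i, max (Qv a i (z i)) 0 ≤ 0.0118 := by
  have hs := N.A_sum_1115 hK hw (hE.trans (by norm_num))
  have hAm := N.A_sum_le_of (Am := 0.006084) (by norm_num) hE (by norm_num) (by norm_num)
    (by norm_num) hs
  have h := N.sum_t (t := 0.972) (p := 1.94104) (q := 0.0000277) (by norm_num) hE hAm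
    (by norm_num) (N.hv_of hK hw hAm fun A d r h1 h2 h3 h4 h5 => vt0120 h1 h2 h3 h4 h5) hz
  linarith

/-- `∑ S ≤ 0.0147` for `X = 0.0150` -/
theorem Near.sum_0150 (hE : Eps c ≤ 0.0150) {z : Fin 4 → E3} (hz : ∀ i, z i ∈ K) :
    ∑ i, max (Qv a i (z i)) 0 ≤ 0.0147 := by
  have hs := N.A_sum_1115 hK hw (hE.trans (by norm_num))
  have hAm := N.A_sum_le_of (Am := 0.007632) (by norm_num) hE (by norm_num) (by norm_num)
    (by norm_num) hs
  have h := N.sum_t (t := 0.969) (p := 1.9343) (q := 0.0000393) (by norm_num) hE hAm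
    (by norm_num) (N.hv_of hK hw hAm fun A d r h1 h2 h3 h4 h5 => vt0150 h1 h2 h3 h4 h5) hz
  linarith

/-- `∑ S ≤ 0.0248` for `X = 0.0254` -/
theorem Near.sum_0254 (hE : Eps c ≤ 0.0254) {z : Fin 4 → E3} (hz : ∀ i, z i ∈ K) :
    ∑ i, max (Qv a i (z i)) 0 ≤ 0.0248 := by
  have hs := N.A_sum_1115 hK hw (hE.trans (by norm_num))
  have hAm := N.A_sum_le_of (Am := 0.013086) (by norm_num) hE (by norm_num) (by norm_num)
    (by norm_num) hs
  have h := N.sum_t (t := 0.96) (p := 1.91371) (q := 0.0000967) (by norm_num) hE hAm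
    (by norm_num) (N.hv_of hK hw hAm fun A d r h1 h2 h3 h4 h5 => vt0254 h1 h2 h3 h4 h5) hz
  linarith

end near

theorem sumB_00752 : SumB 0.00752 0.00742 := fun _ _ _ _ _ hC hE hV =>
  sumS_le hC hV fun _ hz => hC.near.sum_00752 hC.cpt hC.w1 (eps_of_epsLe hE) hz

theorem sumB_0095 : SumB 0.0095 0.00936 := fun _ _ _ _ _ hC hE hV =>
  sumS_le hC hV fun _ hz => hC.near.sum_0095 hC.cpt hC.w1 (eps_of_epsLe hE) hz

theorem sumB_0120 : SumB 0.0120 0.0118 := fun _ _ _ _ _ hC hE hV =>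
  sumS_le hC hV fun _ hz => hC.near.sum_0120 hC.cpt hC.w1 (eps_of_epsLe hE) hz

theorem sumB_0150 : SumB 0.0150 0.0147 := fun _ _ _ _ _ hC hE hV =>
  sumS_le hC hV fun _ hz => hC.near.sum_0150 hC.cpt hC.w1 (eps_of_epsLe hE) hz

theorem sumB_0254 : SumB 0.0254 0.0248 := fun _ _ _ _ _ hC hE hV =>
  sumS_le hC hV fun _ hz => hC.near.sum_0254 hC.cpt hC.w1 (eps_of_epsLe hE) hz

end Helper13.PLM
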